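import Pool.Agent.Lib.BrownShields.Defs

set_option autoImplicit false

namespace Pool.Agent.Lib.BrownShields

open Complex Finset MeasureTheory Metric

namespace AreaAux

lemma integral_exp_int (k : ℤ) :
    ∫ θ in Set.Ioo (-Real.pi) Real.pi, Complex.exp ((k : ℂ) * I * (θ : ℂ)) =
      if k = 0 then ((2 * Real.pi : ℝ) : ℂ) else 0 := by
  have hle : -Real.pi ≤ Real.pi := by linarith [Real.pi_pos]
  rw [← integral_Ioc_eq_integral_Ioo, ← intervalIntegral.integral_of_le hle]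
  by_cases hk : k = 0
  · subst hk
    simp
    ring
  · rw [if_neg hk]
    have hc : (k : ℂ) * I ≠ 0 := by
      apply mul_ne_zero _ I_ne_zero
      exact_mod_cast hk
    rw [integral_exp_mul_complex hc]
    have h1 : Complex.exp ((k : ℂ) * I * ((Real.pi : ℝ) : ℂ)) =
        Complex.exp ((k : ℂ) * I * ((-Real.pi : ℝ) : ℂ)) := by
      rw [Complex.exp_eq_exp_iff_exists_int]
      refine ⟨k, ?_⟩
      push_cast
      ring
    rw [h1, sub_self, zero_div]

lemma circle_hasSum {b : ℕ → ℂ} (hb : Summable (fun n => ‖b n‖)) {g : ℝ → ℂ}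
    (hg : ∀ θ : ℝ, HasSum (fun n => b n * Complex.exp ((θ : ℂ) * I) ^ n) (g θ)) :
    Continuous g ∧
    HasSum (fun n => 2 * Real.pi * ‖b n‖ ^ 2)
      (∫ θ in Set.Ioo (-Real.pi) Real.pi, ‖g θ‖ ^ 2) := by
  have hnorm : ∀ (θ : ℝ) (n : ℕ), ‖b n * Complex.exp ((θ : ℂ) * I) ^ n‖ = ‖b n‖ := by
    intro θ n
    rw [norm_mul, norm_pow, Complex.norm_exp_ofReal_mul_I, one_pow, mul_one]
  have hgc : Continuous g := by
    have h1 : g = fun θ : ℝ => ∑' n, b n * Complex.exp ((θ : ℂ) * I) ^ n := by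
      funext θ
      exact (hg θ).tsum_eq.symm
    rw [h1]
    apply continuous_tsum (u := fun n => ‖b n‖) _ hb
    · intro n θ
      exact (hnorm θ n).le
    · intro n
      fun_prop
  refine ⟨hgc, ?_⟩
  set F : ℕ × ℕ → ℝ → ℂ := fun p θ =>
    (b p.1 * Complex.exp ((θ : ℂ) * I) ^ p.1) *
      (starRingEnd ℂ) (b p.2 * Complex.exp ((θ : ℂ) * I) ^ p.2) with hF
  have hFc : ∀ p, Continuous (F p) := by
    intro p
    simp only [hF]
    fun_prop
  have hFn : ∀ p θ, ‖F p θ‖ = ‖b p.1‖ * ‖b p.2‖ := by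
    intro p θ
    simp only [hF]
    rw [norm_mul, hnorm, RCLike.norm_conj, hnorm]
  have hsum : ∀ θ, HasSum (fun p => F p θ) (((‖g θ‖ ^ 2 : ℝ)) : ℂ) := by
    intro θ
    have h1 := hg θ
    have h2 : HasSum (fun n => (starRingEnd ℂ) (b n * Complex.exp ((θ : ℂ) * I) ^ n))
        ((starRingEnd ℂ) (g θ)) := h1.star
    have h3 : Summable (fun p : ℕ × ℕ => (b p.1 * Complex.exp ((θ : ℂ) * I) ^ p.1) *
      (starRingEnd ℂ) (b p.2 * Complex.exp ((θ : ℂ) * I) ^ p.2)) := by
      apply Summable.of_norm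
      have h4 : (fun p : ℕ × ℕ => ‖F p θ‖) = fun p : ℕ × ℕ => ‖b p.1‖ * ‖b p.2‖ := by
        funext p
        exact hFn p θ
      change Summable (fun p : ℕ × ℕ => ‖F p θ‖)
      rw [h4]
      exact hb.mul_of_nonneg hb (fun _ => norm_nonneg _) (fun _ => norm_nonneg _)
    have h5 := h1.mul h2 h3
    rw [Complex.mul_conj'] at h5
    push_cast
    exact h5
  have hint : ∀ p, Integrable (F p) (volume.restrict (Set.Ioo (-Real.pi) Real.pi)) := by
    intro p
    exact ((hFc p).integrableOn_Icc (a := -Real.pi) (b := Real.pi)).mono_set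
      Set.Ioo_subset_Icc_self
  have hval : ∀ p : ℕ × ℕ, ∫ θ in Set.Ioo (-Real.pi) Real.pi, F p θ =
      if p.1 = p.2 then ((2 * Real.pi * ‖b p.1‖ ^ 2 : ℝ) : ℂ) else 0 := by
    intro p
    have h1 : ∀ θ : ℝ, F p θ = (b p.1 * (starRingEnd ℂ) (b p.2)) *
        Complex.exp ((((p.1 : ℤ) - (p.2 : ℤ) : ℤ) : ℂ) * I * (θ : ℂ)) := by
      intro θ
      simp only [hF]
      rw [map_mul, map_pow, ← Complex.exp_conj, map_mul, Complex.conj_ofReal, Complex.conj_I,
        ← Complex.exp_nat_mul, ← Complex.exp_nat_mul]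
      have h2 : Complex.exp ((((p.1 : ℤ) - (p.2 : ℤ) : ℤ) : ℂ) * I * (θ : ℂ)) =
          Complex.exp ((p.1 : ℂ) * ((θ : ℂ) * I)) * Complex.exp ((p.2 : ℂ) * ((θ : ℂ) * -I)) := by
        rw [← Complex.exp_add]
        congr 1
        push_cast
        ring
      rw [h2]
      ring
    simp_rw [h1]
    rw [integral_const_mul, integral_exp_int]
    by_cases hp : p.1 = p.2
    · rw [if_pos hp, if_pos (by rw [hp]; simp), hp, Complex.mul_conj']
      push_cast
      ring
    · rw [if_neg hp, if_neg (by omega), mul_zero]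
  have hsumint : Summable (fun p => ∫ θ in Set.Ioo (-Real.pi) Real.pi, ‖F p θ‖) := by
    have h1 : (fun p : ℕ × ℕ => ∫ θ in Set.Ioo (-Real.pi) Real.pi, ‖F p θ‖) =
        fun p : ℕ × ℕ => (volume.real (Set.Ioo (-Real.pi) Real.pi)) * (‖b p.1‖ * ‖b p.2‖) := by
      funext p
      simp_rw [hFn]
      rw [setIntegral_const, smul_eq_mul]
    rw [h1]
    apply Summable.mul_left
    exact hb.mul_of_nonneg hb (fun _ => norm_nonneg _) (fun _ => norm_nonneg _)
  have hmain := hasSum_integral_of_summable_integral_norm hint hsumint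
  have h1 : ∀ θ, ∑' p, F p θ = (((‖g θ‖ ^ 2 : ℝ)) : ℂ) := fun θ => (hsum θ).tsum_eq
  simp_rw [h1, hval] at hmain
  have hre : ∫ θ in Set.Ioo (-Real.pi) Real.pi, (((‖g θ‖ ^ 2 : ℝ)) : ℂ) =
      ((∫ θ in Set.Ioo (-Real.pi) Real.pi, ‖g θ‖ ^ 2 : ℝ) : ℂ) := integral_ofReal
  rw [hre] at hmain
  have hinj : Function.Injective (fun n : ℕ => ((n, n) : ℕ × ℕ)) := by
    intro a c h
    exact (Prod.mk.inj h).1
  have h2 := (hinj.hasSum_iff (f := fun p : ℕ × ℕ =>
      if p.1 = p.2 then ((2 * Real.pi * ‖b p.1‖ ^ 2 : ℝ) : ℂ) else 0) (by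
    rintro ⟨x, y⟩ hxy
    rw [if_neg]
    intro h
    apply hxy
    exact ⟨x, by simp at h; simp [h]⟩)).2 hmain
  have h3 : ((fun p : ℕ × ℕ => if p.1 = p.2 then ((2 * Real.pi * ‖b p.1‖ ^ 2 : ℝ) : ℂ) else 0) ∘
      fun n : ℕ => (n, n)) = fun n : ℕ => ((2 * Real.pi * ‖b n‖ ^ 2 : ℝ) : ℂ) := by
    funext n
    simp
  rw [h3] at h2
  exact_mod_cast h2

lemma circle_lintegral {b : ℕ → ℂ} (hb : Summable (fun n => ‖b n‖)) {g : ℝ → ℂ}
    (hg : ∀ θ : ℝ, HasSum (fun n => b n * Complex.exp ((θ : ℂ) * I) ^ n) (g θ)) :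
    ∫⁻ θ in Set.Ioo (-Real.pi) Real.pi, ENNReal.ofReal (‖g θ‖ ^ 2) =
      ∑' n, ENNReal.ofReal (2 * Real.pi * ‖b n‖ ^ 2) := by
  obtain ⟨hgc, hs⟩ := circle_hasSum hb hg
  rw [← ENNReal.ofReal_tsum_of_nonneg (fun n => by positivity) hs.summable, hs.tsum_eq,
    ofReal_integral_eq_lintegral_ofReal]
  · have hc : Continuous (fun θ => ‖g θ‖ ^ 2) := by fun_prop
    exact (hc.integrableOn_Icc (a := -Real.pi) (b := Real.pi)).mono_set Set.Ioo_subset_Icc_self
  · exact Filter.Eventually.of_forall (fun θ => by positivity)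

/-- Parseval over a disc -/
theorem disc_parseval {c : ℕ → ℂ} {g : ℂ → ℂ} {ρ : ℝ} (hρ : 0 < ρ) (hgm : Measurable g)
    (hg : ∀ z ∈ ball (0 : ℂ) ρ, HasSum (fun n => c n * z ^ n) (g z)) :
    ∫⁻ z in ball (0 : ℂ) ρ, ENNReal.ofReal (‖g z‖ ^ 2) =
      ∑' n : ℕ, ENNReal.ofReal (2 * Real.pi * ‖c n‖ ^ 2 * (ρ ^ (2 * n + 2) / (2 * n + 2))) := by
  set h : ℂ → ENNReal := fun z => ENNReal.ofReal (‖g z‖ ^ 2) with hh
  have hhm : Measurable h := by
    simp only [hh]
    fun_prop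
  have hpolar : ∀ p : ℝ × ℝ, Complex.polarCoord.symm p = (p.1 : ℂ) * Complex.exp ((p.2 : ℂ) * I) := by
    intro p
    rw [Complex.polarCoord_symm_apply, Complex.exp_mul_I]
    push_cast
    rfl
  set Φ : ℝ × ℝ → ENNReal := fun p => ENNReal.ofReal p.1 *
    (ball (0 : ℂ) ρ).indicator h ((p.1 : ℂ) * Complex.exp ((p.2 : ℂ) * I)) with hΦ
  have hΦm : Measurable Φ := by
    have h1 : Measurable ((ball (0 : ℂ) ρ).indicator h) := hhm.indicator measurableSet_ball
    have h2 : Measurable (fun p : ℝ × ℝ => (p.1 : ℂ) * Complex.exp ((p.2 : ℂ) * I)) := by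
      fun_prop
    exact (ENNReal.measurable_ofReal.comp measurable_fst).mul (h1.comp h2)
  have h1 : ∫⁻ z in ball (0 : ℂ) ρ, ENNReal.ofReal (‖g z‖ ^ 2) =
      ∫⁻ p in Set.Ioi (0 : ℝ) ×ˢ Set.Ioo (-Real.pi) Real.pi, Φ p := by
    rw [← lintegral_indicator measurableSet_ball, ← Complex.lintegral_comp_polarCoord_symm]
    rw [show polarCoord.target = Set.Ioi (0 : ℝ) ×ˢ Set.Ioo (-Real.pi) Real.pi from rfl]
    apply lintegral_congr
    intro p
    rw [hpolar, smul_eq_mul]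
  rw [h1, Measure.volume_eq_prod, ← Measure.prod_restrict, lintegral_prod _ hΦm.aemeasurable]
  have hin : ∀ r ∈ Set.Ioi (0 : ℝ), ∫⁻ θ in Set.Ioo (-Real.pi) Real.pi, Φ (r, θ) =
      (Set.Iio ρ).indicator (fun r => ∑' n : ℕ,
        ENNReal.ofReal (2 * Real.pi * ‖c n‖ ^ 2 * r ^ (2 * n + 1))) r := by
    intro r hr
    have hr0 : (0 : ℝ) < r := hr
    by_cases hrρ : r < ρ
    · rw [Set.indicator_of_mem (show r ∈ Set.Iio ρ from hrρ)]
      have hmem : ∀ θ : ℝ, (r : ℂ) * Complex.exp ((θ : ℂ) * I) ∈ ball (0 : ℂ) ρ := by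
        intro θ
        rw [mem_ball_zero_iff, norm_mul, Complex.norm_exp_ofReal_mul_I, mul_one,
          Complex.norm_real, Real.norm_of_nonneg hr0.le]
        exact hrρ
      have hval : ∀ θ : ℝ, Φ (r, θ) = ENNReal.ofReal r *
          ENNReal.ofReal (‖g ((r : ℂ) * Complex.exp ((θ : ℂ) * I))‖ ^ 2) := by
        intro θ
        simp only [hΦ]
        rw [Set.indicator_of_mem (hmem θ)]
      simp_rw [hval]
      rw [lintegral_const_mul _ (by fun_prop)]
      have hb : Summable (fun n => ‖c n * (r : ℂ) ^ n‖) := by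
        have h2 := (hg (r : ℂ) (by
          rw [mem_ball_zero_iff, Complex.norm_real, Real.norm_of_nonneg hr0.le]
          exact hrρ)).summable
        exact h2.norm
      rw [circle_lintegral (b := fun n => c n * (r : ℂ) ^ n) hb (by
        intro θ
        have h3 := hg _ (hmem θ)
        have h4 : (fun n => c n * (r : ℂ) ^ n * Complex.exp ((θ : ℂ) * I) ^ n) =
            fun n => c n * ((r : ℂ) * Complex.exp ((θ : ℂ) * I)) ^ n := by
          funext n
          rw [mul_pow]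
          ring
        rw [h4]
        exact h3), ← ENNReal.tsum_mul_left]
      apply tsum_congr
      intro n
      rw [← ENNReal.ofReal_mul hr0.le]
      congr 1
      rw [norm_mul, norm_pow, Complex.norm_real, Real.norm_of_nonneg hr0.le]
      ring
    · rw [Set.indicator_of_notMem (show r ∉ Set.Iio ρ from hrρ)]
      have hval : ∀ θ : ℝ, Φ (r, θ) = 0 := by
        intro θ
        simp only [hΦ]
        rw [Set.indicator_of_notMem, mul_zero]
        rw [mem_ball_zero_iff, norm_mul, Complex.norm_exp_ofReal_mul_I, mul_one,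
          Complex.norm_real, Real.norm_of_nonneg hr0.le]
        exact hrρ
      simp_rw [hval]
      simp
  rw [setLIntegral_congr_fun measurableSet_Ioi hin, lintegral_indicator measurableSet_Iio,
    Measure.restrict_restrict measurableSet_Iio]
  have hset : Set.Iio ρ ∩ Set.Ioi 0 = Set.Ioo 0 ρ := by
    ext x
    simp [and_comm]
  rw [hset, lintegral_tsum (fun n => by fun_prop)]
  apply tsum_congr
  intro n
  rw [← ofReal_integral_eq_lintegral_ofReal]
  · congr 1
    rw [← integral_Ioc_eq_integral_Ioo, ← intervalIntegral.integral_of_le hρ.le,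
      intervalIntegral.integral_const_mul, integral_pow]
    congr 1
    push_cast
    rw [zero_pow (by omega), sub_zero]
    congr 1
    ring
  · have hc : Continuous (fun r : ℝ => 2 * Real.pi * ‖c n‖ ^ 2 * r ^ (2 * n + 1)) := by fun_prop
    exact (hc.integrableOn_Icc (a := 0) (b := ρ)).mono_set Set.Ioo_subset_Icc_self
  · filter_upwards [ae_restrict_mem measurableSet_Ioo] with r hr
    have : (0 : ℝ) < r := hr.1
    positivity

/-- termwise differentiation of a power series -/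
lemma hasSum_deriv {a : ℕ → ℂ} {f : ℂ → ℂ} {ρ : ℝ}
    (hf : ∀ z ∈ ball (0 : ℂ) ρ, HasSum (fun n => a n * z ^ n) (f z)) {z : ℂ}
    (hz : z ∈ ball (0 : ℂ) ρ) :
    HasSum (fun n : ℕ => (((n : ℂ) + 1) * a (n + 1)) * z ^ n) (deriv f z) := by
  have hz' : ‖z‖ < ρ := by simpa using hz
  obtain ⟨r, hr1, hr2⟩ := exists_between hz'
  have hr0 : 0 < r := (norm_nonneg z).trans_lt hr1
  have hsum : Summable (fun n => ‖a n‖ * r ^ n) := by
    have h2 := (hf (r : ℂ) (by
          rw [mem_ball_zero_iff, Complex.norm_real, Real.norm_of_nonneg hr0.le]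
          exact hr2)).summable.norm
    have h3 : (fun n => ‖a n * (r : ℂ) ^ n‖) = fun n => ‖a n‖ * r ^ n := by
      funext n
      rw [norm_mul, norm_pow, Complex.norm_real, Real.norm_of_nonneg hr0.le]
    rwa [h3] at h2
  have h1 := hasSum_deriv_of_summable_norm (F := fun n w => a n * w ^ n) (U := ball (0 : ℂ) r)
    hsum (fun n => by fun_prop) isOpen_ball (by
      intro n w hw
      rw [norm_mul, norm_pow]
      have hw' : ‖w‖ < r := by simpa using hw
      gcongr) (show z ∈ ball (0 : ℂ) r by simpa using hr1)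
  have h2 : deriv (fun w => ∑' n, a n * w ^ n) z = deriv f z := by
    apply Filter.EventuallyEq.deriv_eq
    filter_upwards [isOpen_ball.mem_nhds hz] with w hw
    exact (hf w hw).tsum_eq
  rw [h2] at h1
  have h3 : (fun n => deriv (fun w => a n * w ^ n) z) = fun n : ℕ => a n * ((n : ℂ) * z ^ (n - 1)) := by
    funext n
    exact ((hasDerivAt_pow n z).const_mul (a n)).deriv
  rw [h3] at h1
  have h4 := (hasSum_nat_add_iff' 1).2 h1
  simp only [Finset.range_one, Finset.sum_singleton, Nat.cast_zero, zero_mul, mul_zero,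
    sub_zero] at h4
  have h5 : (fun n : ℕ => (((n : ℂ) + 1) * a (n + 1)) * z ^ n) =
      fun n : ℕ => a (n + 1) * (((n + 1 : ℕ) : ℂ) * z ^ (n + 1 - 1)) := by
    funext n
    rw [Nat.add_sub_cancel]
    push_cast
    ring
  rw [h5]
  exact h4

end AreaAux

open AreaAux

theorem area_parseval {a : ℕ → ℂ} {f : ℂ → ℂ}
    (hf : ∀ z ∈ ball (0 : ℂ) 1, HasSum (fun n => a n * z ^ n) (f z)) :
    ∫⁻ z in ball (0 : ℂ) 1, ENNReal.ofReal (‖deriv f z‖ ^ 2) =
      ENNReal.ofReal Real.pi * ∑' n : ℕ, ENNReal.ofReal ((n : ℝ) * ‖a n‖ ^ 2) := by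
  rw [disc_parseval one_pos (measurable_deriv f) (fun z hz => hasSum_deriv hf hz)]
  rw [tsum_eq_zero_add' (f := fun n : ℕ => ENNReal.ofReal ((n : ℝ) * ‖a n‖ ^ 2))
    ENNReal.summable]
  simp only [Nat.cast_zero, zero_mul, ENNReal.ofReal_zero, zero_add]
  rw [← ENNReal.tsum_mul_left]
  apply tsum_congr
  intro n
  rw [← ENNReal.ofReal_mul Real.pi_pos.le]
  congr 1
  rw [norm_mul]
  have h1 : ‖(n : ℂ) + 1‖ = (n : ℝ) + 1 := by
    have : ((n : ℂ) + 1) = (((n : ℝ) + 1 : ℝ) : ℂ) := by push_cast; rfl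
    rw [this, Complex.norm_real, Real.norm_of_nonneg (by positivity)]
  rw [h1, one_pow]
  have h2 : (n : ℝ) + 1 ≠ 0 := by positivity
  push_cast
  field_simp

end Pool.Agent.Lib.BrownShields
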