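import Mathlib

set_option autoImplicit false

namespace Pool.Agent.Lib.BrownShields

open Complex Finset

/-- The parameters: `m 0` is large and `m (i+1) = m i + 2 ^ (2 ^ m i)`. -/
structure Par (m : ℕ → ℕ) : Prop where
  h0 : m 0 = 1000
  hs : ∀ i, m (i + 1) = m i + 2 ^ (2 ^ m i)

/-- number of arcs of level `i` -/
def MM (m : ℕ → ℕ) (i : ℕ) : ℕ := 2 ^ m i

/-- number of children (arcs of level `i+1`) of an arc of level `i` -/
def nn (m : ℕ → ℕ) (i : ℕ) : ℕ := 2 ^ (2 ^ MM m i)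

/-- exponent of the length of the arcs of level `i` -/
def ll (m : ℕ → ℕ) : ℕ → ℕ
  | 0 => m 0
  | (i + 1) => ll m i + MM m i + 2 ^ MM m i

/-- length of the arcs of level `i` (in full turns) -/
noncomputable def LL (m : ℕ → ℕ) (i : ℕ) : ℝ := 1 / 2 ^ ll m i

/-- length of the central arc kept in an arc of level `i` -/
noncomputable def dd (m : ℕ → ℕ) (i : ℕ) : ℝ := 1 / 2 ^ (ll m i + MM m i)

/-- the centres (in full turns) -/
noncomputable def xx (m : ℕ → ℕ) : ℕ → ℕ → ℝ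
  | 0, j => (j : ℝ) * LL m 0
  | (i + 1), j => xx m i (j / nn m i) +
      (((j % nn m i : ℕ) : ℝ) - ((nn m i : ℝ) - 1) / 2) * LL m (i + 1)

/-- the point `exp (2 π i x)` of the unit circle -/
noncomputable def ee (x : ℝ) : ℂ := Complex.exp (((2 * Real.pi * x : ℝ) : ℂ) * Complex.I)

/-- the coordinate `ζ = 1 - z e(-x)` -/
noncomputable def zz (x : ℝ) (z : ℂ) : ℂ := 1 - z * ee (-x)

/-- one spike, as a function of `ζ` -/
noncomputable def spike (K L δ : ℝ) (ζ : ℂ) : ℂ :=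
  (ζ + (δ : ℂ)) / (ζ + (L : ℂ)) * Complex.exp (-((K * L : ℝ) : ℂ) / (ζ + (δ : ℂ)))

/-- the constant of the spikes -/
noncomputable def KK : ℝ := 1000

/-- the spike number `j` of level `i` -/
noncomputable def uu (m : ℕ → ℕ) (i j : ℕ) (z : ℂ) : ℂ :=
  spike KK (LL m i) (dd m i) (zz (xx m i j) z)

/-- level `i` -/
noncomputable def FF (m : ℕ → ℕ) (i : ℕ) (z : ℂ) : ℂ := ∏ j ∈ range (MM m i), uu m i j z

/-- product of the levels `< k` -/
noncomputable def GG (m : ℕ → ℕ) (k : ℕ) (z : ℂ) : ℂ := ∏ i ∈ range k, FF m i z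

/-- the function of the counterexample (limit of `GG m k z`) -/
noncomputable def ff (m : ℕ → ℕ) (z : ℂ) : ℂ := Filter.limUnder Filter.atTop (fun k : ℕ => GG m k z)

/-- depth used in a channel of level `i` -/
def JJ (m : ℕ → ℕ) (i : ℕ) : ℕ := m i + 13

/-- height used in a channel of level `i` -/
noncomputable def ss (m : ℕ → ℕ) (i : ℕ) : ℝ := LL m i / 2 ^ JJ m i

/-- smallness threshold at level `i` -/
noncomputable def et (m : ℕ → ℕ) (i : ℕ) : ℝ := Real.exp (-((m i : ℝ) * Real.log 2 / 4))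

/-- the point at height `t` over `x` -/
noncomputable def pt (t x : ℝ) : ℂ := ((1 - t : ℝ) : ℂ) * ee x

/-- index `j` is good for `φ` at level `i` -/
def Good (m : ℕ → ℕ) (φ : ℂ → ℂ) (i j : ℕ) : Prop :=
  ∀ u : ℝ, |u| ≤ LL m i / 16 → ‖φ (pt (LL m i) (xx m i j + u))‖ ≤ et m i

end Pool.Agent.Lib.BrownShields
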