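import Pool.Agent.Lib.BrownShields.Defs

set_option autoImplicit false

namespace Pool.Agent.Lib.BrownShields

open Complex Finset MeasureTheory Metric

/-- the open set `U_i` -/
def UU (m : ℕ → ℕ) (i : ℕ) : Set ℂ :=
  ⋃ j ∈ range (MM m i), ball (ee (xx m i j)) (4 * dd m i)

/- ===== parameters ===== -/

theorem LL_pos (m : ℕ → ℕ) (i : ℕ) : 0 < LL m i := by
  unfold LL; positivity

theorem dd_pos (m : ℕ → ℕ) (i : ℕ) : 0 < dd m i := by
  unfold dd; positivity

theorem nn_pos (m : ℕ → ℕ) (i : ℕ) : 0 < nn m i := by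
  unfold nn; positivity

theorem MM_pos (m : ℕ → ℕ) (i : ℕ) : 0 < MM m i := by
  unfold MM; positivity

theorem dd_eq (m : ℕ → ℕ) (i : ℕ) : dd m i * 2 ^ MM m i = LL m i := by
  unfold dd LL
  rw [pow_add]
  have h1 : (2 : ℝ) ^ ll m i ≠ 0 := by positivity
  have h2 : (2 : ℝ) ^ MM m i ≠ 0 := by positivity
  field_simp

theorem dd_le_LL (m : ℕ → ℕ) (i : ℕ) : dd m i ≤ LL m i := by
  rw [← dd_eq]
  have h1 : (1 : ℝ) ≤ 2 ^ MM m i := one_le_pow₀ (by norm_num)
  nlinarith [dd_pos m i]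

theorem LL_succ (m : ℕ → ℕ) (i : ℕ) : LL m (i + 1) * nn m i = dd m i := by
  have hll : ll m (i + 1) = ll m i + MM m i + 2 ^ MM m i := rfl
  unfold LL dd nn
  rw [hll, pow_add _ (ll m i + MM m i)]
  push_cast
  have h1 : (2 : ℝ) ^ (ll m i + MM m i) ≠ 0 := by positivity
  have h2 : (2 : ℝ) ^ (2 ^ MM m i) ≠ 0 := by positivity
  field_simp

theorem LL_succ_le_dd (m : ℕ → ℕ) (i : ℕ) : LL m (i + 1) ≤ dd m i := by
  rw [← LL_succ]
  have h1 : (1 : ℝ) ≤ (nn m i : ℝ) := by exact_mod_cast nn_pos m i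
  nlinarith [LL_pos m (i + 1)]

theorem dd_succ_le (m : ℕ → ℕ) (i : ℕ) : dd m (i + 1) ≤ dd m i :=
  (dd_le_LL m (i + 1)).trans (LL_succ_le_dd m i)

theorem dd_anti (m : ℕ → ℕ) : Antitone (dd m) := antitone_nat_of_succ_le (dd_succ_le m)

theorem LL_anti (m : ℕ → ℕ) : Antitone (LL m) :=
  antitone_nat_of_succ_le (fun i => (LL_succ_le_dd m i).trans (dd_le_LL m i))

theorem MM_succ {m : ℕ → ℕ} (hm : Par m) (i : ℕ) : MM m (i + 1) = MM m i * nn m i := by
  unfold MM nn
  rw [hm.hs i, pow_add]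
  rfl

theorem m_succ {m : ℕ → ℕ} (hm : Par m) (i : ℕ) : m (i + 1) = m i + 2 ^ MM m i := hm.hs i

theorem m_lt_MM (m : ℕ → ℕ) (i : ℕ) : m i < MM m i := Nat.lt_two_pow_self

theorem MM_lt_two_pow (m : ℕ → ℕ) (i : ℕ) : MM m i < 2 ^ MM m i := Nat.lt_two_pow_self

theorem mul_le_m {m : ℕ → ℕ} (hm : Par m) (i : ℕ) : 1000 * (i + 1) ≤ m i := by
  induction i with
  | zero => rw [hm.h0]
  | succ i ih =>
    have h1 := m_lt_MM m i
    have h2 := MM_lt_two_pow m i
    rw [m_succ hm]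
    nlinarith

theorem thousand_le {m : ℕ → ℕ} (hm : Par m) (i : ℕ) : 1000 ≤ m i := by
  have := mul_le_m hm i
  nlinarith

theorem m_le_ll {m : ℕ → ℕ} (hm : Par m) (i : ℕ) : m i ≤ ll m i := by
  induction i with
  | zero => exact le_rfl
  | succ i ih =>
    rw [m_succ hm]
    show m i + 2 ^ MM m i ≤ ll m i + MM m i + 2 ^ MM m i
    omega

theorem three_mul_le_two_pow {n : ℕ} (hn : 4 ≤ n) : 3 * n ≤ 2 ^ n := by
  induction n, hn using Nat.le_induction with
  | base => norm_num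
  | succ n hn ih => rw [pow_succ]; omega

theorem ll_le {m : ℕ → ℕ} (hm : Par m) (i : ℕ) : ll m i ≤ 2 * m i := by
  induction i with
  | zero => show m 0 ≤ 2 * m 0; omega
  | succ i ih =>
    rw [m_succ hm]
    show ll m i + MM m i + 2 ^ MM m i ≤ 2 * (m i + 2 ^ MM m i)
    have h1 := m_lt_MM m i
    have h0 := thousand_le hm i
    have h2 : 3 * MM m i ≤ 2 ^ MM m i := three_mul_le_two_pow (by omega)
    omega

/-- `MM (i+1) LL (i+1) = MM i dd i` -/
theorem MM_LL_succ {m : ℕ → ℕ} (hm : Par m) (i : ℕ) :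
    (MM m (i + 1) : ℝ) * LL m (i + 1) = MM m i * dd m i := by
  rw [MM_succ hm, ← LL_succ]
  push_cast
  ring

theorem MM_LL_zero {m : ℕ → ℕ} : (MM m 0 : ℝ) * LL m 0 = 1 := by
  unfold MM LL
  show (((2 ^ m 0 : ℕ)) : ℝ) * (1 / 2 ^ m 0) = 1
  push_cast
  have h1 : (2 : ℝ) ^ m 0 ≠ 0 := by positivity
  field_simp

theorem MM_LL_le_one {m : ℕ → ℕ} (hm : Par m) (i : ℕ) : (MM m i : ℝ) * LL m i ≤ 1 := by
  induction i with
  | zero => exact MM_LL_zero.le
  | succ i ih =>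
    rw [MM_LL_succ hm]
    have := dd_le_LL m i
    have h2 : (0 : ℝ) ≤ MM m i := by positivity
    nlinarith

theorem LL_le {m : ℕ → ℕ} (hm : Par m) (i : ℕ) : LL m i ≤ 1 / 2 ^ 1000 := by
  unfold LL
  have h1 : 1000 ≤ ll m i := (thousand_le hm i).trans (m_le_ll hm i)
  have h2 : (2 : ℝ) ^ 1000 ≤ 2 ^ ll m i := pow_le_pow_right₀ (by norm_num) h1
  exact one_div_le_one_div_of_le (by positivity) h2

theorem LL_le_small {m : ℕ → ℕ} (hm : Par m) (i : ℕ) : LL m i ≤ 1 / 1000 := by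
  refine (LL_le hm i).trans ?_
  apply one_div_le_one_div_of_le (by norm_num)
  calc (1000 : ℝ) ≤ 2 ^ 10 := by norm_num
    _ ≤ 2 ^ 1000 := pow_le_pow_right₀ (by norm_num) (by norm_num)

theorem MM_dd_le {m : ℕ → ℕ} (hm : Par m) (i : ℕ) : (MM m i : ℝ) * dd m i ≤ 1 / 2 ^ MM m i := by
  rw [le_div_iff₀ (by positivity), mul_assoc, dd_eq]
  exact MM_LL_le_one hm i

theorem JJ_le_MM {m : ℕ → ℕ} (hm : Par m) (i : ℕ) : JJ m i ≤ MM m i := by
  unfold JJ MM
  have h := thousand_le hm i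
  have h2 : 3 * m i ≤ 2 ^ m i := three_mul_le_two_pow (by omega)
  omega

theorem ss_pos (m : ℕ → ℕ) (i : ℕ) : 0 < ss m i := by
  unfold ss
  have := LL_pos m i
  positivity

theorem dd_le_ss {m : ℕ → ℕ} (hm : Par m) (i : ℕ) : dd m i ≤ ss m i := by
  unfold ss
  rw [le_div_iff₀ (by positivity), ← dd_eq]
  exact mul_le_mul_of_nonneg_left (pow_le_pow_right₀ (by norm_num) (JJ_le_MM hm i)) (dd_pos m i).le

theorem ss_mul (m : ℕ → ℕ) (i : ℕ) : ss m i * 2 ^ JJ m i = LL m i := by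
  unfold ss
  field_simp

theorem ss_le_LL (m : ℕ → ℕ) (i : ℕ) : ss m i ≤ LL m i := by
  rw [← ss_mul]
  have h1 : (1 : ℝ) ≤ 2 ^ JJ m i := one_le_pow₀ (by norm_num)
  nlinarith [ss_pos m i]

/-- the children are much shorter than the height `ss` -/
theorem LL_succ_le_ss {m : ℕ → ℕ} (hm : Par m) (i : ℕ) : LL m (i + 1) ≤ ss m i / 2 := by
  have h1 := dd_le_ss hm i
  have h2 := LL_succ m i
  have h3 : (2 : ℝ) ≤ nn m i := by
    have h4 : 2 ^ 1 ≤ nn m i := by
      unfold nn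
      exact Nat.pow_le_pow_right (by norm_num) (Nat.one_le_two_pow)
    exact_mod_cast h4
  have h5 := LL_pos m (i + 1)
  nlinarith

theorem log_inv_LL (m : ℕ → ℕ) (i : ℕ) : Real.log (1 / LL m i) = ll m i * Real.log 2 := by
  unfold LL
  rw [one_div_one_div, Real.log_pow]

theorem LL_eq_dd_mul_nn (m : ℕ → ℕ) (i : ℕ) : dd m i = ss m i * 2 ^ JJ m i / 2 ^ MM m i := by
  rw [ss_mul, ← dd_eq]
  field_simp

/- ===== positions ===== -/

theorem xx_zero (m : ℕ → ℕ) (j : ℕ) : xx m 0 j = (j : ℝ) * LL m 0 := rfl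

theorem xx_succ (m : ℕ → ℕ) (i j : ℕ) : xx m (i + 1) j = xx m i (j / nn m i) +
      (((j % nn m i : ℕ) : ℝ) - ((nn m i : ℝ) - 1) / 2) * LL m (i + 1) := rfl

/-- child number `k` of the arc `j` -/
theorem xx_child_eq (m : ℕ → ℕ) (i j k : ℕ) (hk : k < nn m i) :
    xx m (i + 1) (j * nn m i + k) = xx m i j +
      ((k : ℝ) - ((nn m i : ℝ) - 1) / 2) * LL m (i + 1) := by
  rw [xx_succ]
  have h1 : (j * nn m i + k) / nn m i = j := by
    rw [mul_comm, Nat.mul_add_div (nn_pos m i), Nat.div_eq_of_lt hk, add_zero]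
  have h2 : (j * nn m i + k) % nn m i = k := by
    rw [mul_comm, Nat.mul_add_mod, Nat.mod_eq_of_lt hk]
  rw [h1, h2]

theorem xx_child {m : ℕ → ℕ} (_hm : Par m) (i j : ℕ) :
    |xx m (i + 1) j - xx m i (j / nn m i)| ≤ dd m i / 2 - LL m (i + 1) / 2 := by
  rw [xx_succ, add_sub_cancel_left, ← LL_succ, abs_mul, abs_of_pos (LL_pos m (i + 1))]
  have h1 : |((j % nn m i : ℕ) : ℝ) - ((nn m i : ℝ) - 1) / 2| ≤ ((nn m i : ℝ) - 1) / 2 := by
    have h2 : ((j % nn m i : ℕ) : ℝ) ≤ (nn m i : ℝ) - 1 := by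
      have h3 : j % nn m i + 1 ≤ nn m i := Nat.mod_lt _ (nn_pos m i)
      have h4 : ((j % nn m i : ℕ) : ℝ) + 1 ≤ (nn m i : ℝ) := by exact_mod_cast h3
      linarith
    have h5 : (0 : ℝ) ≤ ((j % nn m i : ℕ) : ℝ) := by positivity
    rw [abs_le]; constructor <;> linarith
  have := LL_pos m (i + 1)
  nlinarith

theorem xx_lower {m : ℕ → ℕ} (hm : Par m) (i j : ℕ) (hj : j < MM m i) :
    -(LL m 0 / 2) ≤ xx m i j - LL m i / 2 := by
  induction i generalizing j with
  | zero =>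
    rw [xx_zero]
    have : (0 : ℝ) ≤ (j : ℝ) * LL m 0 := mul_nonneg (by positivity) (LL_pos m 0).le
    linarith
  | succ i ih =>
    have hp : j / nn m i < MM m i := by
      rw [MM_succ hm] at hj
      exact Nat.div_lt_of_lt_mul (by rwa [mul_comm])
    have h1 := ih _ hp
    have h2 := xx_child hm i j
    have h3 := dd_le_LL m i
    rw [abs_le] at h2
    linarith [h2.1]

theorem xx_upper {m : ℕ → ℕ} (hm : Par m) (i j : ℕ) (hj : j < MM m i) :
    xx m i j + LL m i / 2 ≤ 1 - LL m 0 / 2 := by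
  induction i generalizing j with
  | zero =>
    rw [xx_zero]
    have h1 : (j : ℝ) + 1 ≤ MM m 0 := by exact_mod_cast hj
    have h2 := @MM_LL_zero m
    have h3 := LL_pos m 0
    nlinarith
  | succ i ih =>
    have hp : j / nn m i < MM m i := by
      rw [MM_succ hm] at hj
      exact Nat.div_lt_of_lt_mul (by rwa [mul_comm])
    have h1 := ih _ hp
    have h2 := xx_child hm i j
    have h3 := dd_le_LL m i
    rw [abs_le] at h2
    linarith [h2.2]

theorem xx_gap {m : ℕ → ℕ} (hm : Par m) (i j j' : ℕ) (hj' : j' < MM m i) (h : j < j') :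
    xx m i j + LL m i ≤ xx m i j' := by
  induction i generalizing j j' with
  | zero =>
    rw [xx_zero, xx_zero]
    have h1 : (j : ℝ) + 1 ≤ j' := by exact_mod_cast h
    have h3 := LL_pos m 0
    nlinarith
  | succ i ih =>
    have hp : j' / nn m i < MM m i := by
      rw [MM_succ hm] at hj'
      exact Nat.div_lt_of_lt_mul (by rwa [mul_comm])
    rcases (Nat.div_le_div_right (c := nn m i) h.le).eq_or_lt with h0 | h0
    · rw [xx_succ, xx_succ, h0]
      have h1 : j % nn m i < j' % nn m i := by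
        have e1 := Nat.div_add_mod j (nn m i)
        have e2 := Nat.div_add_mod j' (nn m i)
        rw [h0] at e1
        omega
      have h2 : ((j % nn m i : ℕ) : ℝ) + 1 ≤ ((j' % nn m i : ℕ) : ℝ) := by exact_mod_cast h1
      have h3 := LL_pos m (i + 1)
      nlinarith
    · have h1 := ih _ _ hp h0
      have h2 := xx_child hm i j
      have h4 := xx_child hm i j'
      have h3 := dd_le_LL m i
      rw [abs_le] at h2 h4
      linarith [h2.2, h4.1]

theorem xx_anc {m : ℕ → ℕ} (hm : Par m) (i l j : ℕ) (hil : i < l) (hj : j < MM m l) :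
    ∃ j' < MM m i, |xx m l j - xx m i j'| ≤ dd m i / 2 - LL m l / 2 := by
  induction l, hil using Nat.le_induction generalizing j with
  | base =>
    have hp : j / nn m i < MM m i := by
      rw [Nat.succ_eq_add_one, MM_succ hm] at hj
      exact Nat.div_lt_of_lt_mul (by rwa [mul_comm])
    exact ⟨_, hp, xx_child hm i j⟩
  | succ l hl ih =>
    have hp : j / nn m l < MM m l := by
      rw [MM_succ hm] at hj
      exact Nat.div_lt_of_lt_mul (by rwa [mul_comm])
    obtain ⟨j', hj', h1⟩ := ih _ hp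
    refine ⟨j', hj', ?_⟩
    have h2 := xx_child hm l j
    have h3 := dd_le_LL m l
    rw [abs_le] at h1 h2 ⊢
    constructor <;> linarith [h1.1, h1.2, h2.1, h2.2]

/- ===== the circle ===== -/

theorem norm_ee (x : ℝ) : ‖ee x‖ = 1 := by
  unfold ee; exact Complex.norm_exp_ofReal_mul_I _

theorem ee_ne_zero (x : ℝ) : ee x ≠ 0 := by
  unfold ee; exact Complex.exp_ne_zero _

theorem ee_zero : ee 0 = 1 := by simp [ee]

theorem ee_add (x y : ℝ) : ee (x + y) = ee x * ee y := by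
  unfold ee
  rw [← Complex.exp_add]
  congr 1
  push_cast
  ring

theorem ee_mul_neg (x : ℝ) : ee x * ee (-x) = 1 := by
  rw [← ee_add, add_neg_cancel, ee_zero]

theorem ee_neg (x : ℝ) : ee (-x) = (starRingEnd ℂ) (ee x) := by
  unfold ee
  rw [← Complex.exp_conj, map_mul, Complex.conj_ofReal, Complex.conj_I]
  congr 1
  push_cast
  ring

theorem ee_one : ee 1 = 1 := by
  unfold ee
  rw [show (((2 * Real.pi * 1 : ℝ) : ℂ) * Complex.I) = 2 * Real.pi * Complex.I by push_cast; ring]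
  exact Complex.exp_two_pi_mul_I

theorem ee_add_one (x : ℝ) : ee (x + 1) = ee x := by
  rw [ee_add, ee_one, mul_one]

theorem ee_eq_exp (θ : ℝ) : ee (θ / (2 * Real.pi)) = Complex.exp ((θ : ℂ) * Complex.I) := by
  unfold ee
  congr 2
  rw [mul_div_cancel₀]
  positivity

theorem norm_ee_sub (x y : ℝ) : ‖ee x - ee y‖ = 2 * |Real.sin (Real.pi * (x - y))| := by
  have h1 : ee x - ee y = ee y * (ee (x - y) - 1) := by
    rw [mul_sub, ← ee_add]; ring_nf
  rw [h1, norm_mul, norm_ee, one_mul]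
  unfold ee
  rw [mul_comm, Complex.norm_exp_I_mul_ofReal_sub_one, norm_mul, Real.norm_eq_abs, Real.norm_eq_abs,
    abs_of_pos (by norm_num : (0 : ℝ) < 2)]
  congr 3
  ring

theorem ee_sub_le (x y : ℝ) : ‖ee x - ee y‖ ≤ 2 * Real.pi * |x - y| := by
  rw [norm_ee_sub]
  have h1 : |Real.sin (Real.pi * (x - y))| ≤ |Real.pi * (x - y)| := Real.abs_sin_le_abs
  rw [abs_mul, abs_of_pos Real.pi_pos] at h1
  linarith

theorem le_ee_sub (x y t : ℝ) (h1 : t ≤ |x - y|) (h2 : |x - y| ≤ 1 - t) (ht : 0 ≤ t) :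
    4 * t ≤ ‖ee x - ee y‖ := by
  rw [norm_ee_sub]
  have e1 : |Real.sin (Real.pi * (x - y))| = |Real.sin (Real.pi * |x - y|)| := by
    rcases abs_cases (x - y) with ⟨h, _⟩ | ⟨h, _⟩
    · rw [h]
    · rw [h, mul_neg, Real.sin_neg, abs_neg]
  rw [e1]
  set v := |x - y| with hv
  have hpi := Real.pi_pos
  have key : 2 * t ≤ Real.sin (Real.pi * v) := by
    rcases le_total v (1 / 2) with h | h
    · have h3 := Real.mul_le_sin (x := Real.pi * v) (by positivity) (by nlinarith)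
      have h4 : 2 / Real.pi * (Real.pi * v) = 2 * v := by field_simp
      rw [h4] at h3
      linarith
    · have h3 := Real.mul_le_sin (x := Real.pi * (1 - v))
        (mul_nonneg hpi.le (by linarith)) (by nlinarith)
      have h4 : 2 / Real.pi * (Real.pi * (1 - v)) = 2 * (1 - v) := by field_simp
      have h5 : Real.sin (Real.pi * (1 - v)) = Real.sin (Real.pi * v) := by
        rw [show Real.pi * (1 - v) = Real.pi - Real.pi * v by ring, Real.sin_pi_sub]
      rw [h4, h5] at h3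
      linarith
  have := le_abs_self (Real.sin (Real.pi * v))
  linarith

theorem zz_eq (x : ℝ) (z : ℂ) : zz x z = ee (-x) * (ee x - z) := by
  unfold zz
  rw [mul_sub, mul_comm (ee (-x)) (ee x), ee_mul_neg, mul_comm z]

theorem norm_zz (x : ℝ) (z : ℂ) : ‖zz x z‖ = ‖ee x - z‖ := by
  rw [zz_eq, norm_mul, norm_ee, one_mul]

theorem zz_re_nonneg (x : ℝ) {z : ℂ} (hz : ‖z‖ ≤ 1) : 0 ≤ (zz x z).re := by
  unfold zz
  have h1 : (z * ee (-x)).re ≤ ‖z * ee (-x)‖ := Complex.re_le_norm _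
  rw [norm_mul, norm_ee, mul_one] at h1
  rw [Complex.sub_re, Complex.one_re]
  linarith

/-- on the radius over `x` -/
theorem zz_pt (t x : ℝ) : zz x (pt t x) = (t : ℂ) := by
  unfold zz pt
  rw [mul_assoc, ee_mul_neg]
  push_cast
  ring

theorem norm_pt {t : ℝ} (ht : t ≤ 1) (x : ℝ) : ‖pt t x‖ = 1 - t := by
  unfold pt
  rw [norm_mul, norm_ee, mul_one, Complex.norm_real, Real.norm_eq_abs, abs_of_nonneg (by linarith)]

theorem ee_sep {m : ℕ → ℕ} (hm : Par m) (i j j' : ℕ) (hj : j < MM m i) (hj' : j' < MM m i)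
    (h : j ≠ j') : 4 * LL m i ≤ ‖ee (xx m i j) - ee (xx m i j')‖ := by
  have key : ∀ a b : ℕ, a < b → a < MM m i → b < MM m i →
      4 * LL m i ≤ ‖ee (xx m i a) - ee (xx m i b)‖ := by
    intro a b hab ha hb
    have h1 := xx_gap hm i a b hb hab
    have h2 := xx_lower hm i a ha
    have h3 := xx_upper hm i b hb
    have h4 : |xx m i a - xx m i b| = xx m i b - xx m i a := by
      rw [abs_sub_comm, abs_of_nonneg]
      linarith [LL_pos m i]
    apply le_ee_sub _ _ _ _ _ (LL_pos m i).le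
    · rw [h4]; linarith
    · rw [h4]; linarith
  rcases lt_or_gt_of_ne h with h | h
  · exact key _ _ h hj hj'
  · rw [norm_sub_rev]; exact key _ _ h hj' hj

end Pool.Agent.Lib.BrownShields
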