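import Mathlib
import Pool.Agent.Lib.BrownShields.Defs
import Pool.Agent.Lib.BrownShields.Pos

set_option autoImplicit false

namespace Pool.Agent.Lib.BrownShields

open Complex Finset MeasureTheory Metric

theorem cap_aux_dd_le (m : ℕ → ℕ) (i : ℕ) : dd m i ≤ LL m i := by
  have h := dd_eq m i
  have h1 : (1 : ℝ) ≤ 2 ^ MM m i := one_le_pow₀ (by norm_num)
  nlinarith [dd_pos m i]

theorem UU_subset {m : ℕ → ℕ} (hm : Par m) {l i : ℕ} (hli : l ≤ i) : UU m i ⊆ UU m l := by
  rcases hli.eq_or_lt with rfl | hlt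
  · exact le_rfl
  intro z hz
  simp only [UU, Set.mem_iUnion, Finset.mem_range, mem_ball, exists_prop] at hz ⊢
  obtain ⟨j, hj, hz⟩ := hz
  obtain ⟨j', hj', hx⟩ := xx_anc hm l i j hlt hj
  refine ⟨j', hj', ?_⟩
  have h0 := abs_nonneg (xx m i j - xx m l j')
  have h1 : LL m i ≤ dd m l := by linarith
  have h2 : dd m i ≤ LL m i := cap_aux_dd_le m i
  have h3 : dist (ee (xx m i j)) (ee (xx m l j')) ≤ 2 * Real.pi * |xx m i j - xx m l j'| := by
    rw [dist_eq_norm]
    exact ee_sub_le _ _
  have h4 : 2 * Real.pi * |xx m i j - xx m l j'| ≤ 2 * Real.pi * (dd m l / 2 - LL m i / 2) :=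
    mul_le_mul_of_nonneg_left hx (by positivity)
  have h5 : 2 * Real.pi * (dd m l / 2 - LL m i / 2) ≤ 4 * (dd m l - LL m i) := by
    have := Real.pi_le_four
    nlinarith
  have h6 := dist_triangle z (ee (xx m i j)) (ee (xx m l j'))
  linarith

theorem cap_pair_mass (μ : Measure ℂ) [IsProbabilityMeasure μ] (N : ℕ) (c : ℕ → ℂ) (r : ℝ)
    (hcov : μ (⋃ j ∈ range N, ball (c j) r)ᶜ = 0) :
    (N : ENNReal)⁻¹ ≤ ∫⁻ z, ∫⁻ w, (if ‖z - w‖ ≤ 2 * r then 1 else 0) ∂μ ∂μ := by
  classical
  set B : ℕ → Set ℂ := fun j => if j < N then ball (c j) r else ∅ with hB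
  set A : ℕ → Set ℂ := disjointed B with hA
  have hBm : ∀ j, MeasurableSet (B j) := by
    intro j
    simp only [hB]
    split_ifs
    · exact measurableSet_ball
    · exact MeasurableSet.empty
  have hAm : ∀ j, MeasurableSet (A j) := fun j => MeasurableSet.disjointed hBm j
  have hAB : ∀ j, A j ⊆ B j := fun j => disjointed_subset B j
  have hUB : (⋃ j, B j) = ⋃ j ∈ range N, ball (c j) r := by
    ext z
    simp only [Set.mem_iUnion, hB, Finset.mem_range, exists_prop]
    constructor
    · rintro ⟨j, hj⟩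
      by_cases h : j < N
      · rw [if_pos h] at hj; exact ⟨j, h, hj⟩
      · rw [if_neg h] at hj; exact absurd hj (Set.notMem_empty z)
    · rintro ⟨j, h, hj⟩
      exact ⟨j, by rw [if_pos h]; exact hj⟩
  have hUA : (⋃ j, A j) = ⋃ j ∈ range N, ball (c j) r := by
    rw [hA, iUnion_disjointed, hUB]
  have hAe : ∀ j, ¬ j < N → A j = ∅ := by
    intro j hj
    have := hAB j
    simp only [hB, if_neg hj] at this
    exact Set.subset_empty_iff.mp this
  have hdis : Pairwise (Function.onFun Disjoint A) := disjoint_disjointed B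
  have hm1 : μ (⋃ j, A j) = 1 := by
    rw [hUA]
    have hms : MeasurableSet (⋃ j ∈ range N, ball (c j) r) :=
      Finset.measurableSet_biUnion _ (fun j _ => measurableSet_ball)
    exact (prob_compl_eq_zero_iff hms).mp hcov
  have hsum : ∑ j ∈ range N, μ (A j) = 1 := by
    rw [← hm1, measure_iUnion hdis hAm]
    rw [tsum_eq_sum (s := range N)]
    intro j hj
    rw [hAe j (by simpa using hj), measure_empty]
  -- Cauchy-Schwarz
  have hCS : (N : ENNReal)⁻¹ ≤ ∑ j ∈ range N, μ (A j) * μ (A j) := by
    have hfin : ∀ j, μ (A j) ≠ ⊤ := fun j => measure_ne_top μ _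
    set a : ℕ → ℝ := fun j => (μ (A j)).toReal with ha
    have hsum' : ∑ j ∈ range N, a j = 1 := by
      have : (∑ j ∈ range N, μ (A j)).toReal = ∑ j ∈ range N, a j :=
        ENNReal.toReal_sum (fun j _ => hfin j)
      rw [← this, hsum]; simp
    have hcs := sq_sum_le_card_mul_sum_sq (s := range N) (f := a)
    rw [hsum', card_range] at hcs
    have hN : 0 < N := by
      rcases Nat.eq_zero_or_pos N with h | h
      · exfalso; subst h; simp at hsum'
      · exact h
    have hN' : (0 : ℝ) < N := by exact_mod_cast hN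
    have h2 : (N : ℝ)⁻¹ ≤ ∑ j ∈ range N, a j ^ 2 := by
      rw [inv_le_iff_one_le_mul₀ hN']
      nlinarith
    have h3 : ∑ j ∈ range N, μ (A j) * μ (A j) = ENNReal.ofReal (∑ j ∈ range N, a j ^ 2) := by
      rw [ENNReal.ofReal_sum_of_nonneg (fun j _ => sq_nonneg _)]
      refine Finset.sum_congr rfl (fun j _ => ?_)
      rw [pow_two, ENNReal.ofReal_mul (by positivity), ENNReal.ofReal_toReal (hfin j)]
    rw [h3]
    have h4 : (N : ENNReal)⁻¹ = ENNReal.ofReal ((N : ℝ)⁻¹) := by
      rw [ENNReal.ofReal_inv_of_pos hN', ENNReal.ofReal_natCast]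
    rw [h4]
    exact ENNReal.ofReal_le_ofReal h2
  refine hCS.trans ?_
  have h5 : ∀ z, ∑ j ∈ range N, (A j).indicator (fun _ => μ (A j)) z ≤
      ∫⁻ w, (if ‖z - w‖ ≤ 2 * r then 1 else 0) ∂μ := by
    intro z
    by_cases hz : ∃ j, j < N ∧ z ∈ A j
    · obtain ⟨j, hj, hzj⟩ := hz
      have hs : ∑ k ∈ range N, (A k).indicator (fun _ => μ (A k)) z = μ (A j) := by
        rw [Finset.sum_eq_single_of_mem j (by simpa using hj)]
        · rw [Set.indicator_of_mem hzj]
        · intro k _ hkj
          rw [Set.indicator_of_notMem]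
          intro hk
          exact Set.disjoint_left.mp (hdis hkj) hk hzj
      rw [hs]
      calc μ (A j) = ∫⁻ w, (A j).indicator (fun _ => 1) w ∂μ := by
            rw [lintegral_indicator_const (hAm j), one_mul]
        _ ≤ _ := by
            refine lintegral_mono (fun w => ?_)
            by_cases hw : w ∈ A j
            · have hz' : z ∈ ball (c j) r := by
                have := hAB j hzj; simpa only [hB, if_pos hj] using this
              have hw' : w ∈ ball (c j) r := by
                have := hAB j hw; simpa only [hB, if_pos hj] using this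
              have : ‖z - w‖ ≤ 2 * r := by
                rw [← dist_eq_norm]
                have := dist_triangle_right z w (c j)
                rw [mem_ball] at hz' hw'
                linarith
              rw [Set.indicator_of_mem hw, if_pos this]
            · rw [Set.indicator_of_notMem hw]; exact bot_le
    · push Not at hz
      have hs : ∑ k ∈ range N, (A k).indicator (fun _ => μ (A k)) z = 0 := by
        refine Finset.sum_eq_zero (fun k hk => ?_)
        rw [Set.indicator_of_notMem (hz k (by simpa using hk))]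
      rw [hs]; exact bot_le
  calc ∑ j ∈ range N, μ (A j) * μ (A j)
      = ∫⁻ z, ∑ j ∈ range N, (A j).indicator (fun _ => μ (A j)) z ∂μ := by
        rw [lintegral_finsetSum _ (fun j _ => measurable_const.indicator (hAm j))]
        refine Finset.sum_congr rfl (fun j _ => ?_)
        rw [lintegral_indicator_const (hAm j)]
    _ ≤ _ := lintegral_mono h5

theorem cap_sum_lintegral_le {α : Type*} [MeasurableSpace α] (μ : Measure α) (s : Finset ℕ)
    (f : ℕ → α → ENNReal) : ∑ l ∈ s, ∫⁻ a, f l a ∂μ ≤ ∫⁻ a, ∑ l ∈ s, f l a ∂μ := by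
  classical
  induction s using Finset.induction_on with
  | empty => simp
  | insert l s hl ih =>
    rw [Finset.sum_insert hl]
    have : (fun a => ∑ l ∈ insert l s, f l a) = fun a => f l a + ∑ l ∈ s, f l a := by
      funext a; rw [Finset.sum_insert hl]
    rw [this]
    exact (add_le_add le_rfl ih).trans (le_lintegral_add _ _)

/-- the pointwise bound -/
theorem cap_pointwise {m : ℕ → ℕ} (hm : Par m) (k : ℕ) {t : ℝ} (ht0 : 0 < t) (ht2 : t ≤ 2) :
    ∑ l ∈ range k, (if t ≤ 8 * dd m l then Real.log (LL m l / (8 * dd m l)) else 0) ≤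
      Real.log (2 / max t (LL m k)) := by
  have hLL1 : ∀ l, LL m l ≤ 1 := by
    intro l
    rw [LL, div_le_one (by positivity)]
    exact one_le_pow₀ (by norm_num)
  have hM : ∀ l, 8 * dd m l ≤ LL m l := by
    intro l
    have h := dd_eq m l
    have h1 : (2 : ℝ) ^ 3 ≤ 2 ^ MM m l := by
      refine pow_le_pow_right₀ (by norm_num) ?_
      have h2 : 2 ≤ m l := by have := mul_le_m hm l; omega
      calc 3 ≤ 2 ^ 2 := by norm_num
        _ ≤ MM m l := by rw [MM]; exact Nat.pow_le_pow_right (by norm_num) h2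
    nlinarith [dd_pos m l]
  have hL : ∀ l, LL m (l + 1) ≤ dd m l := by
    intro l
    have h := LL_succ m l
    have h1 : (1 : ℝ) ≤ (nn m l : ℝ) := by
      have : 1 ≤ nn m l := Nat.one_le_two_pow
      exact_mod_cast this
    nlinarith [LL_pos m (l + 1)]
  induction k with
  | zero =>
    simp only [range_zero, sum_empty]
    refine Real.log_nonneg ?_
    rw [one_le_div (lt_max_of_lt_left ht0)]
    exact max_le ht2 ((hLL1 0).trans (by norm_num))
  | succ k ih =>
    rw [Finset.sum_range_succ]
    have hdk := dd_pos m k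
    have hLk := LL_pos m k
    have hLk1 := LL_pos m (k + 1)
    have h1 := hL k
    have h2 := hM k
    by_cases h : t ≤ 8 * dd m k
    · rw [if_pos h]
      have e1 : max t (LL m k) = LL m k := max_eq_right (h.trans h2)
      rw [e1] at ih
      have e2 : Real.log (2 / LL m k) + Real.log (LL m k / (8 * dd m k)) =
          Real.log (2 / (8 * dd m k)) := by
        rw [← Real.log_mul (by positivity) (by positivity)]
        congr 1
        field_simp
      have e3 : Real.log (2 / (8 * dd m k)) ≤ Real.log (2 / max t (LL m (k + 1))) := by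
        refine Real.log_le_log (by positivity) ?_
        refine div_le_div_of_nonneg_left (by norm_num) (lt_max_of_lt_left ht0) ?_
        exact max_le h (by linarith)
      linarith
    · rw [if_neg h, add_zero]
      refine ih.trans ?_
      refine Real.log_le_log (div_pos (by norm_num) (lt_max_of_lt_left ht0)) ?_
      refine div_le_div_of_nonneg_left (by norm_num) (lt_max_of_lt_left ht0) ?_
      exact max_le_max le_rfl (by linarith)

theorem capacity {m : ℕ → ℕ} (hm : Par m) (i : ℕ) (K : Set ℂ) (_hK : IsCompact K)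
    (hKU : K ⊆ UU m i ∩ sphere (0 : ℂ) 1) (μ : Measure ℂ) [IsProbabilityMeasure μ]
    (hμ : μ Kᶜ = 0) :
    ENNReal.ofReal (((i : ℝ) + 1) / 2) ≤ ∫⁻ z, ∫⁻ w,
      (if z = w then (⊤ : ENNReal) else ENNReal.ofReal (Real.log (2 / ‖z - w‖))) ∂μ ∂μ := by
  classical
  -- the constants
  set a : ℕ → ℝ := fun l => Real.log (LL m l / (8 * dd m l)) with ha
  have hMM : ∀ l, (16 : ℝ) ≤ (MM m l : ℝ) := by
    intro l
    have h2 : 4 ≤ m l := by have := mul_le_m hm l; omega
    have : 2 ^ 4 ≤ MM m l := by rw [MM]; exact Nat.pow_le_pow_right (by norm_num) h2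
    exact_mod_cast this
  have ha' : ∀ l, (1 / 2 : ℝ) * (MM m l : ℝ) ≤ a l := by
    intro l
    have e : LL m l / (8 * dd m l) = 2 ^ MM m l / 2 ^ 3 := by
      rw [← dd_eq m l]
      have := dd_pos m l
      field_simp
      norm_num
    have e2 : a l = ((MM m l : ℝ) - 3) * Real.log 2 := by
      rw [ha]
      simp only
      rw [e, Real.log_div (by positivity) (by norm_num), Real.log_pow, Real.log_pow]
      push_cast
      ring
    rw [e2]
    have := Real.log_two_gt_d9
    have h16 := hMM l
    nlinarith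
  have ha0 : ∀ l, 0 ≤ a l := fun l => le_trans (by have := hMM l; positivity) (ha' l)
  -- pointwise bound
  have hpt : ∀ z w : ℂ, ∑ l ∈ range (i + 1), ENNReal.ofReal (a l) *
      (if ‖z - w‖ ≤ 2 * (4 * dd m l) then 1 else 0) ≤
      (if z = w then (⊤ : ENNReal) else ENNReal.ofReal (Real.log (2 / ‖z - w‖))) := by
    intro z w
    by_cases hzw : z = w
    · rw [if_pos hzw]; exact le_top
    · rw [if_neg hzw]
      have ht0 : 0 < ‖z - w‖ := norm_pos_iff.mpr (sub_ne_zero.mpr hzw)
      set t := ‖z - w‖ with ht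
      have hS : ∑ l ∈ range (i + 1), ENNReal.ofReal (a l) *
          (if t ≤ 2 * (4 * dd m l) then 1 else 0) = ENNReal.ofReal
          (∑ l ∈ range (i + 1), (if t ≤ 8 * dd m l then a l else 0)) := by
        rw [ENNReal.ofReal_sum_of_nonneg (fun l _ => by split_ifs; exacts [ha0 l, le_rfl])]
        refine Finset.sum_congr rfl (fun l _ => ?_)
        have e : 2 * (4 * dd m l) = 8 * dd m l := by ring
        rw [e]
        split_ifs <;> simp
      rw [hS]
      by_cases ht2 : t ≤ 2
      · refine ENNReal.ofReal_le_ofReal ?_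
        refine (cap_pointwise hm (i + 1) ht0 ht2).trans ?_
        refine Real.log_le_log (div_pos (by norm_num) (lt_max_of_lt_left ht0)) ?_
        exact div_le_div_of_nonneg_left (by norm_num) ht0 (le_max_left _ _)
      · have h0 : ∑ l ∈ range (i + 1), (if t ≤ 8 * dd m l then a l else 0) = 0 := by
          refine Finset.sum_eq_zero (fun l _ => ?_)
          rw [if_neg]
          have hLL1 : LL m l ≤ 1 := by
            rw [LL, div_le_one (by positivity)]
            exact one_le_pow₀ (by norm_num)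
          have h := dd_eq m l
          have h1 : (2 : ℝ) ^ 3 ≤ 2 ^ MM m l := by
            refine pow_le_pow_right₀ (by norm_num) ?_
            have := hMM l
            have : (3 : ℝ) ≤ (MM m l : ℝ) := by linarith
            exact_mod_cast this
          have := dd_pos m l
          push Not at ht2 ⊢
          nlinarith
        rw [h0]; simp
  -- mass
  have hmass : ∀ l ∈ range (i + 1), (MM m l : ENNReal)⁻¹ ≤ ∫⁻ z, ∫⁻ w,
      (if ‖z - w‖ ≤ 2 * (4 * dd m l) then 1 else 0) ∂μ ∂μ := by
    intro l hl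
    refine cap_pair_mass μ (MM m l) (fun j => ee (xx m l j)) (4 * dd m l) ?_
    refine measure_mono_null ?_ hμ
    refine Set.compl_subset_compl.mpr ?_
    intro z hz
    exact UU_subset hm (by have := Finset.mem_range.mp hl; omega) (hKU hz).1
  calc ENNReal.ofReal (((i : ℝ) + 1) / 2)
      = ∑ l ∈ range (i + 1), ENNReal.ofReal (1 / 2) := by
        rw [Finset.sum_const, card_range, nsmul_eq_mul, ← ENNReal.ofReal_natCast,
          ← ENNReal.ofReal_mul (by positivity)]
        congr 1
        push_cast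
        ring
    _ ≤ ∑ l ∈ range (i + 1), ENNReal.ofReal (a l) * (MM m l : ENNReal)⁻¹ := by
        refine Finset.sum_le_sum (fun l _ => ?_)
        have hMpos : (0 : ℝ) < MM m l := by have := hMM l; linarith
        have e : (MM m l : ENNReal)⁻¹ = ENNReal.ofReal ((MM m l : ℝ)⁻¹) := by
          rw [ENNReal.ofReal_inv_of_pos hMpos, ENNReal.ofReal_natCast]
        rw [e, ← ENNReal.ofReal_mul (ha0 l)]
        refine ENNReal.ofReal_le_ofReal ?_
        rw [← div_eq_mul_inv, le_div_iff₀ hMpos]
        exact ha' l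
    _ ≤ ∑ l ∈ range (i + 1), ENNReal.ofReal (a l) * ∫⁻ z, ∫⁻ w,
          (if ‖z - w‖ ≤ 2 * (4 * dd m l) then 1 else 0) ∂μ ∂μ :=
        Finset.sum_le_sum (fun l hl => mul_le_mul_right (hmass l hl) _)
    _ = ∑ l ∈ range (i + 1), ∫⁻ z, ∫⁻ w, ENNReal.ofReal (a l) *
          (if ‖z - w‖ ≤ 2 * (4 * dd m l) then 1 else 0) ∂μ ∂μ := by
        refine Finset.sum_congr rfl (fun l _ => ?_)
        rw [← lintegral_const_mul' _ _ ENNReal.ofReal_ne_top]
        refine lintegral_congr (fun z => ?_)
        rw [← lintegral_const_mul' _ _ ENNReal.ofReal_ne_top]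
    _ ≤ ∫⁻ z, ∑ l ∈ range (i + 1), ∫⁻ w, ENNReal.ofReal (a l) *
          (if ‖z - w‖ ≤ 2 * (4 * dd m l) then 1 else 0) ∂μ ∂μ := cap_sum_lintegral_le _ _ _
    _ ≤ ∫⁻ z, ∫⁻ w, ∑ l ∈ range (i + 1), ENNReal.ofReal (a l) *
          (if ‖z - w‖ ≤ 2 * (4 * dd m l) then 1 else 0) ∂μ ∂μ :=
        lintegral_mono (fun z => cap_sum_lintegral_le _ _ _)
    _ ≤ _ := lintegral_mono (fun z => lintegral_mono (fun w => hpt z w))

end Pool.Agent.Lib.BrownShields
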