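import Pool.Agent.Lib.BrownShields.Defs

/-!
Elementary estimates for one spike (MP_d9131c_an, Brown-Shields): `norm_uu_le`, `uu_ne_zero`,
`norm_uu_sub_one_le`, `analyticAt_uu`, `norm_deriv_uu_le`.
-/

set_option autoImplicit false

namespace Pool.Agent.Lib.BrownShields

open Complex Finset MeasureTheory Metric

namespace Spike

theorem norm_ee' (x : ℝ) : ‖ee x‖ = 1 := by
  rw [ee, Complex.norm_exp_ofReal_mul_I]

theorem ee_mul_neg' (x : ℝ) : ee x * ee (-x) = 1 := by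
  rw [ee, ee, ← Complex.exp_add]
  have h : (((2 * Real.pi * x : ℝ) : ℂ) * Complex.I + ((2 * Real.pi * -x : ℝ) : ℂ) * Complex.I)
      = 0 := by
    push_cast
    ring
  rw [h, Complex.exp_zero]

theorem LL_pos' (m : ℕ → ℕ) (i : ℕ) : 0 < LL m i := by
  rw [LL]
  positivity

theorem dd_pos' (m : ℕ → ℕ) (i : ℕ) : 0 < dd m i := by
  rw [dd]
  positivity

theorem dd_le_LL' (m : ℕ → ℕ) (i : ℕ) : dd m i ≤ LL m i := by
  rw [dd, LL]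
  apply one_div_le_one_div_of_le (by positivity)
  exact pow_le_pow_right₀ (by norm_num) (by omega)

/-- `‖ζ‖ = ‖ee x - z‖` -/
theorem norm_zz (x : ℝ) (z : ℂ) : ‖zz x z‖ = ‖ee x - z‖ := by
  have h : ee x - z = ee x * zz x z := by
    rw [zz, mul_sub, mul_one]
    have := ee_mul_neg' x
    linear_combination z * this
  rw [h, norm_mul, norm_ee', one_mul]

theorem zz_re_nonneg (x : ℝ) {z : ℂ} (hz : ‖z‖ ≤ 1) : 0 ≤ (zz x z).re := by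
  rw [zz, Complex.sub_re, Complex.one_re]
  have h1 : (z * ee (-x)).re ≤ ‖z * ee (-x)‖ := Complex.re_le_norm _
  rw [norm_mul, norm_ee', mul_one] at h1
  linarith

theorem norm_sq_add (ζ : ℂ) (a : ℝ) : ‖ζ + (a : ℂ)‖ ^ 2 = ‖ζ‖ ^ 2 + 2 * a * ζ.re + a ^ 2 := by
  rw [← Complex.normSq_eq_norm_sq, ← Complex.normSq_eq_norm_sq, Complex.normSq_apply,
    Complex.normSq_apply]
  simp only [Complex.add_re, Complex.ofReal_re, Complex.add_im, Complex.ofReal_im, add_zero]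
  ring

/-- monotonicity of `‖ζ + a‖` -/
theorem norm_add_mono {ζ : ℂ} (hζ : 0 ≤ ζ.re) {a b : ℝ} (ha : 0 ≤ a) (hab : a ≤ b) :
    ‖ζ + (a : ℂ)‖ ≤ ‖ζ + (b : ℂ)‖ := by
  refine (sq_le_sq₀ (norm_nonneg _) (norm_nonneg _)).1 ?_
  rw [norm_sq_add, norm_sq_add]
  nlinarith [mul_nonneg (sub_nonneg.2 hab) hζ, mul_nonneg ha ha]

theorem norm_le_norm_add {ζ : ℂ} (hζ : 0 ≤ ζ.re) {b : ℝ} (hb : 0 ≤ b) :
    ‖ζ‖ ≤ ‖ζ + (b : ℂ)‖ := by
  simpa using norm_add_mono hζ le_rfl hb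

theorem norm_add_pos {ζ : ℂ} (hζ : 0 ≤ ζ.re) {a : ℝ} (ha : 0 < a) : 0 < ‖ζ + (a : ℂ)‖ := by
  have h1 : a ≤ (ζ + (a : ℂ)).re := by
    rw [Complex.add_re, Complex.ofReal_re]
    linarith
  have h2 := Complex.re_le_norm (ζ + (a : ℂ))
  linarith

theorem add_ne_zero {ζ : ℂ} (hζ : 0 ≤ ζ.re) {a : ℝ} (ha : 0 < a) : ζ + (a : ℂ) ≠ 0 :=
  norm_pos_iff.1 (norm_add_pos hζ ha)

theorem re_neg_div_nonpos {ζ : ℂ} (hζ : 0 ≤ ζ.re) {a c : ℝ} (ha : 0 < a) (hc : 0 ≤ c) :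
    (-(c : ℂ) / (ζ + (a : ℂ))).re ≤ 0 := by
  rw [Complex.div_re]
  simp only [Complex.neg_re, Complex.ofReal_re, Complex.add_re, Complex.neg_im, Complex.ofReal_im,
    neg_zero, zero_mul, zero_div, add_zero]
  have h1 : 0 < Complex.normSq (ζ + (a : ℂ)) := Complex.normSq_pos.2 (add_ne_zero hζ ha)
  apply div_nonpos_of_nonpos_of_nonneg _ h1.le
  nlinarith [mul_nonneg hc (by linarith : 0 ≤ ζ.re + a)]

theorem norm_exp_le_one {w : ℂ} (hw : w.re ≤ 0) : ‖Complex.exp w‖ ≤ 1 := by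
  rw [Complex.norm_exp]
  exact Real.exp_le_one_iff.2 hw

theorem norm_exp_sub_one_le' {w : ℂ} (hw : w.re ≤ 0) : ‖Complex.exp w - 1‖ ≤ ‖w‖ := by
  have hconv : Convex ℝ {z : ℂ | z.re ≤ 0} := convex_halfSpace_re_le 0
  have h := hconv.norm_image_sub_le_of_norm_deriv_le (𝕜 := ℂ) (f := Complex.exp) (C := 1)
    (x := 0) (y := w) (fun z _ => Complex.differentiable_exp z)
    (fun z hz => by rw [Complex.deriv_exp]; exact norm_exp_le_one hz) (by simp) hw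
  simpa using h

variable {K L δ : ℝ} {ζ : ℂ}

theorem norm_spike_le (hK : 0 ≤ K) (hδ : 0 < δ) (hL : δ ≤ L) (hζ : 0 ≤ ζ.re) :
    ‖spike K L δ ζ‖ ≤ 1 := by
  rw [spike, norm_mul, norm_div]
  have h1 := norm_add_pos hζ (lt_of_lt_of_le hδ hL)
  have h2 : ‖ζ + (δ : ℂ)‖ / ‖ζ + (L : ℂ)‖ ≤ 1 := by
    rw [div_le_one h1]
    exact norm_add_mono hζ hδ.le hL
  have h3 := norm_exp_le_one (re_neg_div_nonpos hζ hδ (mul_nonneg hK (hδ.le.trans hL)))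
  exact mul_le_one₀ h2 (norm_nonneg _) h3

theorem spike_ne_zero (hδ : 0 < δ) (hL : δ ≤ L) (hζ : 0 ≤ ζ.re) :
    spike K L δ ζ ≠ 0 := by
  rw [spike]
  refine mul_ne_zero (div_ne_zero (add_ne_zero hζ hδ) (add_ne_zero hζ (lt_of_lt_of_le hδ hL)))
    (Complex.exp_ne_zero _)

theorem norm_spike_sub_one_le (hK : 0 ≤ K) (hδ : 0 < δ) (hL : δ ≤ L) (hζ : 0 ≤ ζ.re) :
    ‖spike K L δ ζ - 1‖ * ‖ζ + (L : ℂ)‖ ≤ (K + 1) * L := by
  have hL0 : 0 < L := lt_of_lt_of_le hδ hL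
  have n1 := add_ne_zero hζ hδ
  have n2 := add_ne_zero hζ hL0
  set E := Complex.exp (-((K * L : ℝ) : ℂ) / (ζ + (δ : ℂ))) with hE
  have h1 : (spike K L δ ζ - 1) * (ζ + (L : ℂ)) =
      (ζ + (δ : ℂ)) * (E - 1) + ((δ - L : ℝ) : ℂ) := by
    rw [spike, ← hE]
    field_simp
    push_cast
    ring
  rw [← norm_mul, h1]
  have h2 : ‖E - 1‖ ≤ K * L / ‖ζ + (δ : ℂ)‖ := by
    refine (norm_exp_sub_one_le' (re_neg_div_nonpos hζ hδ (mul_nonneg hK hL0.le))).trans ?_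
    rw [norm_div, norm_neg, Complex.norm_real, Real.norm_of_nonneg (mul_nonneg hK hL0.le)]
  have h3 : ‖(ζ + (δ : ℂ)) * (E - 1)‖ ≤ K * L := by
    rw [norm_mul]
    have h4 := norm_add_pos hζ hδ
    calc ‖ζ + (δ : ℂ)‖ * ‖E - 1‖ ≤ ‖ζ + (δ : ℂ)‖ * (K * L / ‖ζ + (δ : ℂ)‖) := by gcongr
      _ = K * L := by field_simp
  have h5 : ‖((δ - L : ℝ) : ℂ)‖ ≤ L := by
    rw [Complex.norm_real, Real.norm_eq_abs, abs_le]
    constructor <;> linarith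
  calc ‖(ζ + (δ : ℂ)) * (E - 1) + ((δ - L : ℝ) : ℂ)‖
      ≤ ‖(ζ + (δ : ℂ)) * (E - 1)‖ + ‖((δ - L : ℝ) : ℂ)‖ := norm_add_le _ _
    _ ≤ K * L + L := add_le_add h3 h5
    _ = (K + 1) * L := by ring

theorem hasDerivAt_spike (hδ : 0 < δ) (hL : δ ≤ L) (hζ : 0 ≤ ζ.re) :
    HasDerivAt (spike K L δ)
      (Complex.exp (-((K * L : ℝ) : ℂ) / (ζ + (δ : ℂ))) *
        (((L - δ : ℝ) : ℂ) / (ζ + (L : ℂ)) ^ 2 +
          ((K * L : ℝ) : ℂ) / ((ζ + (L : ℂ)) * (ζ + (δ : ℂ))))) ζ := by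
  have n1 := add_ne_zero hζ hδ
  have n2 := add_ne_zero hζ (lt_of_lt_of_le hδ hL)
  have d1 : HasDerivAt (fun y : ℂ => y + (δ : ℂ)) 1 ζ := (hasDerivAt_id ζ).add_const _
  have d2 : HasDerivAt (fun y : ℂ => y + (L : ℂ)) 1 ζ := (hasDerivAt_id ζ).add_const _
  have d3 := d1.div d2 n2
  have d4 := (hasDerivAt_const ζ (-((K * L : ℝ) : ℂ))).div d1 n1
  have d5 := d3.mul d4.cexp
  refine HasDerivAt.congr_deriv (f := spike K L δ) d5 ?_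
  simp only [Pi.div_apply]
  generalize Complex.exp (-((K * L : ℝ) : ℂ) / (ζ + (δ : ℂ))) = E
  field_simp
  push_cast
  ring

theorem analyticAt_spike (hδ : 0 < δ) (hL : δ ≤ L) (hζ : 0 ≤ ζ.re) :
    AnalyticAt ℂ (spike K L δ) ζ := by
  have n1 := add_ne_zero hζ hδ
  have n2 := add_ne_zero hζ (lt_of_lt_of_le hδ hL)
  have a1 : AnalyticAt ℂ (fun y : ℂ => y + (δ : ℂ)) ζ := analyticAt_id.add analyticAt_const
  have a2 : AnalyticAt ℂ (fun y : ℂ => y + (L : ℂ)) ζ := analyticAt_id.add analyticAt_const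
  exact (a1.div a2 n2).mul ((analyticAt_const.div a1 n1).cexp)

theorem norm_deriv_spike_le (hK : 0 ≤ K) (hδ : 0 < δ) (hL : δ ≤ L) (hζ : 0 ≤ ζ.re) :
    ‖deriv (spike K L δ) ζ‖ ≤ (K + 1) * L / (‖ζ + (L : ℂ)‖ * ‖ζ + (δ : ℂ)‖) := by
  have hL0 : 0 < L := lt_of_lt_of_le hδ hL
  rw [(hasDerivAt_spike hδ hL hζ).deriv, norm_mul]
  have p1 := norm_add_pos hζ hδ
  have p2 := norm_add_pos hζ hL0
  have h1 := norm_exp_le_one (re_neg_div_nonpos hζ hδ (mul_nonneg hK hL0.le))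
  have h2 : ‖((L - δ : ℝ) : ℂ) / (ζ + (L : ℂ)) ^ 2‖ ≤ L / (‖ζ + (L : ℂ)‖ * ‖ζ + (δ : ℂ)‖) := by
    rw [norm_div, norm_pow, Complex.norm_real, Real.norm_of_nonneg (by linarith), sq]
    have := norm_add_mono hζ hδ.le hL
    gcongr
    linarith
  have h3 : ‖((K * L : ℝ) : ℂ) / ((ζ + (L : ℂ)) * (ζ + (δ : ℂ)))‖ =
      K * L / (‖ζ + (L : ℂ)‖ * ‖ζ + (δ : ℂ)‖) := by
    rw [norm_div, norm_mul, Complex.norm_real, Real.norm_of_nonneg (mul_nonneg hK hL0.le)]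
  calc _ ≤ 1 * ‖((L - δ : ℝ) : ℂ) / (ζ + (L : ℂ)) ^ 2 +
          ((K * L : ℝ) : ℂ) / ((ζ + (L : ℂ)) * (ζ + (δ : ℂ)))‖ := by gcongr
    _ ≤ L / (‖ζ + (L : ℂ)‖ * ‖ζ + (δ : ℂ)‖) + K * L / (‖ζ + (L : ℂ)‖ * ‖ζ + (δ : ℂ)‖) := by
      rw [one_mul, ← h3]
      exact (norm_add_le _ _).trans (add_le_add h2 le_rfl)
    _ = (K + 1) * L / (‖ζ + (L : ℂ)‖ * ‖ζ + (δ : ℂ)‖) := by ring

theorem hasDerivAt_zz (x : ℝ) (z : ℂ) : HasDerivAt (zz x) (-ee (-x)) z := by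
  have h := (hasDerivAt_const z (1 : ℂ)).sub ((hasDerivAt_id z).mul_const (ee (-x)))
  refine HasDerivAt.congr_deriv (f := zz x) h ?_
  ring

end Spike

open Spike

/-- `|u| ≤ 1` on the closed disc -/
theorem norm_uu_le (m : ℕ → ℕ) (i j : ℕ) {z : ℂ} (hz : ‖z‖ ≤ 1) : ‖uu m i j z‖ ≤ 1 :=
  norm_spike_le (by rw [KK]; norm_num) (dd_pos' m i) (dd_le_LL' m i) (zz_re_nonneg _ hz)

theorem uu_ne_zero (m : ℕ → ℕ) (i j : ℕ) {z : ℂ} (hz : ‖z‖ ≤ 1) : uu m i j z ≠ 0 :=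
  spike_ne_zero (dd_pos' m i) (dd_le_LL' m i) (zz_re_nonneg _ hz)

/-- `|u - 1| ≤ 1001 L / |ζ|` -/
theorem norm_uu_sub_one_le (m : ℕ → ℕ) (i j : ℕ) {z : ℂ} (hz : ‖z‖ ≤ 1) :
    ‖uu m i j z - 1‖ * ‖zz (xx m i j) z‖ ≤ 1001 * LL m i := by
  have h1 := norm_spike_sub_one_le (K := KK) (by rw [KK]; norm_num) (dd_pos' m i)
    (dd_le_LL' m i) (zz_re_nonneg (xx m i j) hz)
  have h2 := norm_le_norm_add (zz_re_nonneg (xx m i j) hz) (LL_pos' m i).le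
  calc ‖uu m i j z - 1‖ * ‖zz (xx m i j) z‖
      ≤ ‖uu m i j z - 1‖ * ‖zz (xx m i j) z + (LL m i : ℂ)‖ := by gcongr
    _ ≤ (KK + 1) * LL m i := h1
    _ = 1001 * LL m i := by rw [KK]; norm_num

theorem analyticAt_uu (m : ℕ → ℕ) (i j : ℕ) {z : ℂ} (hz : ‖z‖ ≤ 1) :
    AnalyticAt ℂ (uu m i j) z := by
  have h1 := analyticAt_spike (K := KK) (dd_pos' m i) (dd_le_LL' m i)
    (zz_re_nonneg (xx m i j) hz)
  have h2 : AnalyticAt ℂ (zz (xx m i j)) z :=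
    analyticAt_const.sub (analyticAt_id.mul analyticAt_const)
  exact h1.comp h2

theorem norm_deriv_uu_le (m : ℕ → ℕ) (i j : ℕ) {z : ℂ} (hz : ‖z‖ ≤ 1) :
    ‖deriv (uu m i j) z‖ ≤ 1001 * LL m i /
      (‖zz (xx m i j) z + (LL m i : ℂ)‖ * ‖zz (xx m i j) z + (dd m i : ℂ)‖) := by
  have h1 := norm_deriv_spike_le (K := KK) (by rw [KK]; norm_num) (dd_pos' m i)
    (dd_le_LL' m i) (zz_re_nonneg (xx m i j) hz)
  have h2 := (hasDerivAt_spike (K := KK) (dd_pos' m i) (dd_le_LL' m i)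
    (zz_re_nonneg (xx m i j) hz)).differentiableAt.hasDerivAt
  have h3 := h2.comp z (hasDerivAt_zz (xx m i j) z)
  have h4 : deriv (uu m i j) z = deriv (spike KK (LL m i) (dd m i)) (zz (xx m i j) z) *
      (-ee (-(xx m i j))) := h3.deriv
  rw [h4, norm_mul, norm_neg, norm_ee', mul_one]
  refine h1.trans (le_of_eq ?_)
  rw [KK]
  norm_num

end Pool.Agent.Lib.BrownShields
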