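import Pool.Agent.Lib.BrownShields.Pos
import Pool.Agent.Lib.BrownShields.Spike

set_option autoImplicit false

namespace Pool.Agent.Lib.BrownShields

open Complex Finset MeasureTheory Metric

namespace Conv

/-- product of numbers of the unit disc -/
theorem norm_prod_sub_one_le {ι : Type*} (s : Finset ι) (a : ι → ℂ) (h : ∀ i ∈ s, ‖a i‖ ≤ 1) :
    ‖∏ i ∈ s, a i‖ ≤ 1 ∧ ‖∏ i ∈ s, a i - 1‖ ≤ ∑ i ∈ s, ‖a i - 1‖ := by
  classical
  induction s using Finset.induction_on with
  | empty => simp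
  | insert i s hi ih =>
    obtain ⟨h1, h2⟩ := ih (fun j hj => h j (Finset.mem_insert_of_mem hj))
    have hia := h i (Finset.mem_insert_self i s)
    rw [Finset.prod_insert hi, Finset.sum_insert hi]
    constructor
    · rw [norm_mul]
      exact mul_le_one₀ hia (norm_nonneg _) h1
    · have e : a i * ∏ j ∈ s, a j - 1 = (a i - 1) * ∏ j ∈ s, a j + (∏ j ∈ s, a j - 1) := by ring
      rw [e]
      refine (norm_add_le _ _).trans (add_le_add ?_ h2)
      rw [norm_mul]
      exact mul_le_of_le_one_right (norm_nonneg _) h1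

theorem two_le_two_pow_MM (m : ℕ → ℕ) (i : ℕ) : (2 : ℝ) ≤ 2 ^ MM m i := by
  have h1 : 1 ≤ MM m i := Nat.one_le_two_pow
  calc (2 : ℝ) = 2 ^ 1 := by norm_num
    _ ≤ 2 ^ MM m i := pow_le_pow_right₀ (by norm_num) h1

theorem MMLL_succ {m : ℕ → ℕ} (hm : Par m) (i : ℕ) :
    (MM m (i + 1) : ℝ) * LL m (i + 1) ≤ (MM m i : ℝ) * LL m i / 2 := by
  rw [MM_succ hm]
  push_cast
  have h1 := LL_succ m i
  have h2 := dd_eq m i
  have h3 := two_le_two_pow_MM m i
  have h4 := dd_pos m i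
  have e : (MM m i : ℝ) * (nn m i : ℝ) * LL m (i + 1) = (MM m i : ℝ) * dd m i := by
    rw [← h1]; ring
  rw [e, mul_div_assoc]
  refine mul_le_mul_of_nonneg_left ?_ (Nat.cast_nonneg _)
  rw [← h2]
  rw [le_div_iff₀ (by norm_num)]
  exact mul_le_mul_of_nonneg_left h3 h4.le

theorem MMLL_le {m : ℕ → ℕ} (hm : Par m) (i : ℕ) :
    (MM m i : ℝ) * LL m i ≤ (1 / 2) ^ i := by
  induction i with
  | zero =>
    have : (MM m 0 : ℝ) * LL m 0 = 1 := by
      unfold MM LL ll
      push_cast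
      field_simp
    rw [this]; simp
  | succ i ih =>
    refine (MMLL_succ hm i).trans ?_
    rw [pow_succ]
    linarith

theorem norm_FF_le (m : ℕ → ℕ) (i : ℕ) {z : ℂ} (hz : ‖z‖ ≤ 1) : ‖FF m i z‖ ≤ 1 :=
  (norm_prod_sub_one_le _ _ (fun j _ => norm_uu_le m i j hz)).1

theorem norm_GG_le (m : ℕ → ℕ) (k : ℕ) {z : ℂ} (hz : ‖z‖ ≤ 1) : ‖GG m k z‖ ≤ 1 :=
  (norm_prod_sub_one_le _ _ (fun i _ => norm_FF_le m i hz)).1

theorem norm_FF_sub_one_le (m : ℕ → ℕ) (i : ℕ) {z : ℂ} (hz : ‖z‖ ≤ 1) {δ : ℝ} (hδ : 0 < δ)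
    (h : ∀ j < MM m i, δ ≤ ‖zz (xx m i j) z‖) :
    ‖FF m i z - 1‖ ≤ 1001 / δ * ((MM m i : ℝ) * LL m i) := by
  refine (norm_prod_sub_one_le _ _ (fun j _ => norm_uu_le m i j hz)).2.trans ?_
  have : ∀ j ∈ range (MM m i), ‖uu m i j z - 1‖ ≤ 1001 / δ * LL m i := by
    intro j hj
    have h1 := norm_uu_sub_one_le m i j hz
    have h2 := h j (Finset.mem_range.mp hj)
    rw [div_mul_eq_mul_div, le_div_iff₀ hδ]
    exact (mul_le_mul_of_nonneg_left h2 (norm_nonneg _)).trans h1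
  refine (Finset.sum_le_sum this).trans ?_
  rw [Finset.sum_const, Finset.card_range, nsmul_eq_mul]
  apply le_of_eq; ring

theorem norm_FF_sub_one_le' {m : ℕ → ℕ} (hm : Par m) (i : ℕ) {z : ℂ} (hz : ‖z‖ ≤ 1) {δ : ℝ}
    (hδ : 0 < δ) (h : ∀ j < MM m i, δ ≤ ‖zz (xx m i j) z‖) :
    ‖FF m i z - 1‖ ≤ 1001 / δ * (1 / 2) ^ i :=
  (norm_FF_sub_one_le m i hz hδ h).trans
    (mul_le_mul_of_nonneg_left (MMLL_le hm i) (by positivity))

theorem GG_succ (m : ℕ → ℕ) (k : ℕ) (z : ℂ) : GG m (k + 1) z = GG m k z * FF m k z := by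
  unfold GG
  rw [Finset.prod_range_succ]

theorem tendstoUniformlyOn_GG {m : ℕ → ℕ} (hm : Par m) {s : Set ℂ} (hs : ∀ z ∈ s, ‖z‖ ≤ 1)
    {δ : ℝ} (hδ : 0 < δ) (N : ℕ) (h : ∀ z ∈ s, ∀ i, N ≤ i → ∀ j < MM m i, δ ≤ ‖zz (xx m i j) z‖) :
    TendstoUniformlyOn (fun k : ℕ => GG m k) (ff m) Filter.atTop s := by
  set u : ℕ → ℝ := fun i => if i < N then 2 else 1001 / δ * (1 / 2) ^ i with hu
  have hsum : Summable u := by
    have h1 : Summable (fun i : ℕ => 1001 / δ * (1 / 2 : ℝ) ^ i) :=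
      (summable_geometric_of_lt_one (by norm_num) (by norm_num)).mul_left _
    refine (summable_nat_add_iff N).mp ?_
    have h2 := (summable_nat_add_iff N).mpr h1
    refine h2.congr (fun i => ?_)
    simp only [hu]
    rw [if_neg (by omega)]
  have hbd : ∀ (i : ℕ) (z : ℂ), z ∈ s → ‖GG m (i + 1) z - GG m i z‖ ≤ u i := by
    intro i z hz
    have hz1 := hs z hz
    rw [GG_succ]
    have e : GG m i z * FF m i z - GG m i z = GG m i z * (FF m i z - 1) := by ring
    rw [e, norm_mul]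
    have hF : ‖FF m i z - 1‖ ≤ u i := by
      simp only [hu]
      split_ifs with hi
      · calc ‖FF m i z - 1‖ ≤ ‖FF m i z‖ + ‖(1 : ℂ)‖ := norm_sub_le _ _
          _ ≤ 1 + 1 := add_le_add (norm_FF_le m i hz1) (by simp)
          _ = 2 := by norm_num
      · exact norm_FF_sub_one_le' hm i hz1 hδ (h z hz i (by omega))
    calc ‖GG m i z‖ * ‖FF m i z - 1‖ ≤ 1 * ‖FF m i z - 1‖ :=
          mul_le_mul_of_nonneg_right (norm_GG_le m i hz1) (norm_nonneg _)
      _ = ‖FF m i z - 1‖ := one_mul _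
      _ ≤ u i := hF
  have hT := tendstoUniformlyOn_tsum_nat hsum (f := fun i z => GG m (i + 1) z - GG m i z)
    (s := s) (fun i z hz => hbd i z hz)
  have hpart : ∀ (n : ℕ) (z : ℂ), ∑ i ∈ range n, (GG m (i + 1) z - GG m i z) = GG m n z - 1 := by
    intro n z
    rw [Finset.sum_range_sub (fun i => GG m i z) n]
    simp [GG]
  have hlim : ∀ z ∈ s, Filter.Tendsto (fun k => GG m k z) Filter.atTop
      (nhds (∑' i, (GG m (i + 1) z - GG m i z) + 1)) := by
    intro z hz
    have h1 := hT.tendsto_at hz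
    have h2 := h1.add_const (1 : ℂ)
    refine h2.congr (fun n => ?_)
    rw [hpart n z]; ring
  have hff : ∀ z ∈ s, ff m z = ∑' i, (GG m (i + 1) z - GG m i z) + 1 := by
    intro z hz
    exact (hlim z hz).limUnder_eq
  rw [Metric.tendstoUniformlyOn_iff] at hT ⊢
  intro ε hε
  filter_upwards [hT ε hε] with n hn z hz
  have := hn z hz
  rw [hpart n z, dist_eq_norm] at this
  rw [hff z hz, dist_eq_norm]
  refine lt_of_eq_of_lt ?_ this
  congr 1; ring

/-- the limit does not vanish -/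
theorem limit_ne_zero {m : ℕ → ℕ} (hm : Par m) {z c : ℂ} (hz : ‖z‖ ≤ 1)
    {δ : ℝ} (hδ : 0 < δ) (N : ℕ) (h : ∀ i, N ≤ i → ∀ j < MM m i, δ ≤ ‖zz (xx m i j) z‖)
    (hc : Filter.Tendsto (fun k : ℕ => GG m k z) Filter.atTop (nhds c)) : c ≠ 0 := by
  have hsum : Summable (fun i : ℕ => ‖FF m (i + N) z - 1‖) := by
    have h1 : Summable (fun i : ℕ => 1001 / δ * (1 / 2 : ℝ) ^ i) :=
      (summable_geometric_of_lt_one (by norm_num) (by norm_num)).mul_left _
    have h2 := (summable_nat_add_iff N).mpr h1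
    refine Summable.of_nonneg_of_le (fun i => norm_nonneg _) (fun i => ?_) h2
    exact norm_FF_sub_one_le' hm (i + N) hz hδ (h (i + N) (by omega))
  have hsum' : Summable (fun i : ℕ => ‖FF m i z - 1‖) := (summable_nat_add_iff N).mp hsum
  obtain ⟨K, hK⟩ : ∃ K : ℕ, ∑' i, ‖FF m (i + K) z - 1‖ < 1 / 2 := by
    have := tendsto_sum_nat_add (fun i : ℕ => ‖FF m i z - 1‖)
    exact ((this.eventually (gt_mem_nhds (by norm_num : (0 : ℝ) < 1 / 2))).exists)
  have hKs : Summable (fun i : ℕ => ‖FF m (i + K) z - 1‖) := (summable_nat_add_iff K).mpr hsum'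
  have hGK : GG m K z ≠ 0 := by
    unfold GG FF
    exact Finset.prod_ne_zero_iff.mpr (fun i _ => Finset.prod_ne_zero_iff.mpr
      (fun j _ => uu_ne_zero m i j hz))
  have hlow : ∀ n : ℕ, ‖GG m K z‖ / 2 ≤ ‖GG m (n + K) z‖ := by
    intro n
    have e : GG m (n + K) z = GG m K z * ∏ i ∈ range n, FF m (i + K) z := by
      unfold GG
      rw [add_comm n K, Finset.prod_range_add]
      congr 1
      exact Finset.prod_congr rfl (fun i _ => by rw [add_comm])
    have h1 := (norm_prod_sub_one_le (range n) (fun i => FF m (i + K) z)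
      (fun i _ => norm_FF_le m (i + K) hz)).2
    have h2 : ∑ i ∈ range n, ‖FF m (i + K) z - 1‖ ≤ ∑' i, ‖FF m (i + K) z - 1‖ :=
      hKs.sum_le_tsum _ (fun i _ => norm_nonneg _)
    have h3 : 1 / 2 ≤ ‖∏ i ∈ range n, FF m (i + K) z‖ := by
      have h4 : ‖(1 : ℂ)‖ - ‖∏ i ∈ range n, FF m (i + K) z - 1‖ ≤
          ‖∏ i ∈ range n, FF m (i + K) z‖ := by
        have := norm_sub_norm_le (1 : ℂ) (1 - ∏ i ∈ range n, FF m (i + K) z)
        rw [norm_sub_rev 1 (∏ i ∈ range n, FF m (i + K) z)] at this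
        simpa using this
      rw [norm_one] at h4
      linarith
    rw [e, norm_mul]
    have := mul_le_mul_of_nonneg_left h3 (norm_nonneg (GG m K z))
    linarith
  have hc' : Filter.Tendsto (fun n : ℕ => ‖GG m (n + K) z‖) Filter.atTop (nhds ‖c‖) :=
    ((Filter.tendsto_add_atTop_iff_nat K).mpr hc).norm
  have hge : ‖GG m K z‖ / 2 ≤ ‖c‖ := ge_of_tendsto' hc' hlow
  intro h0
  rw [h0, norm_zero] at hge
  have := norm_pos_iff.mpr hGK
  linarith

theorem norm_zz (x : ℝ) (z : ℂ) : ‖zz x z‖ = ‖ee x - z‖ := by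
  have h1 : ee x * zz x z = ee x - z := by
    unfold zz
    have := ee_mul_neg x
    calc ee x * (1 - z * ee (-x)) = ee x - z * (ee x * ee (-x)) := by ring
      _ = ee x - z := by rw [this, mul_one]
  rw [← h1, norm_mul, norm_ee, one_mul]

theorem one_sub_norm_le (x : ℝ) (z : ℂ) : 1 - ‖z‖ ≤ ‖zz x z‖ := by
  rw [norm_zz]
  have := norm_sub_norm_le (ee x) z
  rwa [norm_ee] at this

end Conv

open Conv

theorem GG_tendsto {m : ℕ → ℕ} (hm : Par m) :
    TendstoLocallyUniformlyOn (fun k : ℕ => GG m k) (ff m) Filter.atTop (ball 0 1) := by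
  rw [tendstoLocallyUniformlyOn_iff_forall_isCompact isOpen_ball]
  intro K hKsub hK
  obtain ⟨r, hr1, hr⟩ : ∃ r : ℝ, r < 1 ∧ ∀ z ∈ K, ‖z‖ ≤ r := by
    rcases K.eq_empty_or_nonempty with rfl | hne
    · exact ⟨0, by norm_num, by simp⟩
    · obtain ⟨z0, hz0, hmax⟩ := hK.exists_isMaxOn hne (continuous_norm.continuousOn)
      refine ⟨‖z0‖, by simpa using hKsub hz0, fun z hz => hmax hz⟩
  refine tendstoUniformlyOn_GG hm (δ := 1 - r) (fun z hz => (hr z hz).trans hr1.le)
    (by linarith) 0 ?_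
  intro z hz i _ j _
  have := one_sub_norm_le (xx m i j) z
  have := hr z hz
  linarith

theorem ff_zero_ne {m : ℕ → ℕ} (hm : Par m) : ff m 0 ≠ 0 := by
  have h1 : Filter.Tendsto (fun k : ℕ => GG m k 0) Filter.atTop (nhds (ff m 0)) :=
    (GG_tendsto hm).tendsto_at (by simp)
  refine limit_ne_zero hm (by simp) (δ := 1) one_pos 0 ?_ h1
  intro i _ j _
  simp [zz]

theorem ff_small {m : ℕ → ℕ} (hm : Par m) (k j : ℕ) (hj : j < MM m k) :
    ‖ff m (pt (ss m k) (xx m k j))‖ ≤ Real.exp (-(MM m k : ℝ)) := by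
  have hL := LL_pos m k
  have hd := dd_pos m k
  have hL1 : LL m k ≤ 1 := by
    unfold LL
    rw [div_le_one (by positivity)]
    exact one_le_pow₀ (by norm_num)
  have hs0 : 0 < ss m k := by unfold ss; positivity
  have hs1 : ss m k < 1 := by
    unfold ss
    rw [div_lt_one (by positivity)]
    refine lt_of_le_of_lt hL1 ?_
    exact one_lt_pow₀ (by norm_num) (by unfold JJ; omega)
  set w := pt (ss m k) (xx m k j) with hw
  have hwn : ‖w‖ = 1 - ss m k := by
    rw [hw]; unfold pt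
    rw [norm_mul, norm_ee, mul_one, Complex.norm_real, Real.norm_of_nonneg (by linarith)]
  have hw1 : ‖w‖ ≤ 1 := by rw [hwn]; linarith
  have hz : zz (xx m k j) w = ((ss m k : ℝ) : ℂ) := by
    rw [hw]; unfold zz pt
    have := ee_mul_neg (xx m k j)
    calc 1 - ((1 - ss m k : ℝ) : ℂ) * ee (xx m k j) * ee (-(xx m k j))
        = 1 - ((1 - ss m k : ℝ) : ℂ) * (ee (xx m k j) * ee (-(xx m k j))) := by ring
      _ = ((ss m k : ℝ) : ℂ) := by rw [this]; push_cast; ring
  have hds : dd m k ≤ ss m k := by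
    have h1 := dd_eq m k
    have h2 : ss m k * 2 ^ JJ m k = LL m k := by
      unfold ss; field_simp
    have hJ : JJ m k ≤ MM m k := by
      unfold JJ MM
      have h3 := mul_le_m hm k
      have h4 : 1000 ≤ m k := by nlinarith
      have h5 : ∀ n : ℕ, 5 ≤ n → n + 13 ≤ 2 ^ n := by
        intro n hn
        induction n, hn using Nat.le_induction with
        | base => norm_num
        | succ n hn ih => rw [pow_succ]; omega
      exact h5 _ (by omega)
    have h3 : dd m k * 2 ^ JJ m k ≤ dd m k * 2 ^ MM m k :=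
      mul_le_mul_of_nonneg_left (pow_le_pow_right₀ (by norm_num) hJ) hd.le
    rw [h1, ← h2] at h3
    exact le_of_mul_le_mul_right h3 (by positivity)
  have hu : ‖uu m k j w‖ ≤ Real.exp (-(MM m k : ℝ)) := by
    unfold uu spike
    rw [hz]
    have e1 : ((ss m k : ℝ) : ℂ) + ((dd m k : ℝ) : ℂ) = ((ss m k + dd m k : ℝ) : ℂ) := by
      push_cast; rfl
    have e2 : ((ss m k : ℝ) : ℂ) + ((LL m k : ℝ) : ℂ) = ((ss m k + LL m k : ℝ) : ℂ) := by
      push_cast; rfl
    rw [e1, e2]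
    have e3 : (((ss m k + dd m k : ℝ) : ℂ)) / ((ss m k + LL m k : ℝ) : ℂ) *
        Complex.exp (-((KK * LL m k : ℝ) : ℂ) / ((ss m k + dd m k : ℝ) : ℂ)) =
        (((ss m k + dd m k) / (ss m k + LL m k) *
          Real.exp (-(KK * LL m k) / (ss m k + dd m k)) : ℝ) : ℂ) := by
      push_cast; rfl
    rw [e3, Complex.norm_real, Real.norm_of_nonneg (by positivity)]
    have hdL : dd m k ≤ LL m k := by
      rw [← dd_eq m k]
      exact le_mul_of_one_le_right hd.le (one_le_pow₀ (by norm_num))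
    have hq : (ss m k + dd m k) / (ss m k + LL m k) ≤ 1 := by
      rw [div_le_one (by positivity)]; linarith
    have hexp : Real.exp (-(KK * LL m k) / (ss m k + dd m k)) ≤ Real.exp (-(MM m k : ℝ)) := by
      apply Real.exp_le_exp.mpr
      rw [neg_div, neg_le_neg_iff, le_div_iff₀ (by positivity)]
      have h1 : (MM m k : ℝ) * (ss m k + dd m k) ≤ (MM m k : ℝ) * (2 * ss m k) :=
        mul_le_mul_of_nonneg_left (by linarith) (Nat.cast_nonneg _)
      refine h1.trans ?_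
      have h2 : LL m k = ss m k * 2 ^ JJ m k := by unfold ss; field_simp
      have h3 : (2 : ℝ) ^ JJ m k = (MM m k : ℝ) * 2 ^ 13 := by
        unfold JJ MM; rw [pow_add]; push_cast; ring
      rw [h2, h3]
      unfold KK
      have h4 : 0 ≤ (MM m k : ℝ) * ss m k := by positivity
      nlinarith
    calc _ ≤ 1 * Real.exp (-(KK * LL m k) / (ss m k + dd m k)) :=
          mul_le_mul_of_nonneg_right hq (Real.exp_nonneg _)
      _ ≤ _ := by rw [one_mul]; exact hexp
  have hF : ‖FF m k w‖ ≤ Real.exp (-(MM m k : ℝ)) := by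
    unfold FF
    rw [← Finset.mul_prod_erase (range (MM m k)) _ (Finset.mem_range.mpr hj), norm_mul]
    calc _ ≤ Real.exp (-(MM m k : ℝ)) * 1 :=
          mul_le_mul hu (norm_prod_sub_one_le _ _ (fun j _ => norm_uu_le m k j hw1)).1
            (norm_nonneg _) (Real.exp_nonneg _)
      _ = _ := mul_one _
  have hG : ∀ n : ℕ, k + 1 ≤ n → ‖GG m n w‖ ≤ Real.exp (-(MM m k : ℝ)) := by
    intro n hn
    unfold GG
    rw [← Finset.mul_prod_erase (range n) _ (Finset.mem_range.mpr (show k < n by omega)), norm_mul]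
    calc _ ≤ Real.exp (-(MM m k : ℝ)) * 1 :=
          mul_le_mul hF (norm_prod_sub_one_le _ _ (fun i _ => norm_FF_le m i hw1)).1
            (norm_nonneg _) (Real.exp_nonneg _)
      _ = _ := mul_one _
  have hwb : w ∈ ball (0 : ℂ) 1 := by
    rw [mem_ball_zero_iff, hwn]; linarith
  have hlim := ((GG_tendsto hm).tendsto_at hwb).norm
  exact le_of_tendsto hlim (Filter.eventually_atTop.mpr ⟨k + 1, fun n hn => hG n hn⟩)

theorem radial {m : ℕ → ℕ} (hm : Par m) (i : ℕ) (x : ℝ) (hx : ee x ∉ UU m i) :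
    ∃ c : ℂ, c ≠ 0 ∧ Filter.Tendsto (fun r : ℝ => ff m ((r : ℂ) * ee x))
        (nhdsWithin 1 (Set.Iio 1)) (nhds c) ∧
      Filter.Tendsto (fun k : ℕ => GG m k (ee x)) Filter.atTop (nhds c) := by
  have hd := dd_pos m i
  have hfar : ∀ j < MM m i, 4 * dd m i ≤ ‖ee x - ee (xx m i j)‖ := by
    intro j hj
    by_contra hcon
    push Not at hcon
    apply hx
    unfold UU
    simp only [Set.mem_iUnion, Finset.mem_range]
    exact ⟨j, hj, by rw [mem_ball, dist_eq_norm]; exact hcon⟩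
  have hfar2 : ∀ l, i + 1 ≤ l → ∀ j < MM m l, 4 / 5 * dd m i ≤ ‖ee x - ee (xx m l j)‖ := by
    intro l hl j hj
    obtain ⟨j', hj', hjj⟩ := xx_anc hm i l j (by omega) hj
    have h1 := hfar j' hj'
    have h2 := ee_sub_le (xx m l j) (xx m i j')
    have h3 := LL_pos m l
    have h4 : |xx m l j - xx m i j'| ≤ dd m i / 2 := by linarith
    have h5 : ‖ee (xx m l j) - ee (xx m i j')‖ ≤ Real.pi * dd m i := by
      refine h2.trans ?_
      have := mul_le_mul_of_nonneg_left h4 (by positivity : (0 : ℝ) ≤ 2 * Real.pi)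
      linarith
    have h6 : Real.pi * dd m i ≤ 3.2 * dd m i := by
      have := Real.pi_lt_d2
      exact mul_le_mul_of_nonneg_right (by linarith) hd.le
    have h7 : ‖ee x - ee (xx m i j')‖ ≤ ‖ee x - ee (xx m l j)‖ + ‖ee (xx m l j) - ee (xx m i j')‖ := by
      have := norm_add_le (ee x - ee (xx m l j)) (ee (xx m l j) - ee (xx m i j'))
      rwa [sub_add_sub_cancel] at this
    linarith
  set s : Set ℂ := (fun r : ℝ => (r : ℂ) * ee x) '' Set.Icc 0 1 with hs
  have hs1 : ∀ z ∈ s, ‖z‖ ≤ 1 := by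
    rintro z ⟨r, hr, rfl⟩
    simp only [norm_mul, norm_ee, mul_one, Complex.norm_real, Real.norm_of_nonneg hr.1]
    exact hr.2
  have hδ : 0 < 2 / 5 * dd m i := by positivity
  have hlow : ∀ z ∈ s, ∀ l, i + 1 ≤ l → ∀ j < MM m l, 2 / 5 * dd m i ≤ ‖zz (xx m l j) z‖ := by
    rintro z ⟨r, hr, rfl⟩ l hl j hj
    rw [norm_zz]
    have h1 := hfar2 l hl j hj
    have h2 : ‖ee x - ee (xx m l j)‖ ≤ 2 * ‖ee (xx m l j) - (r : ℂ) * ee x‖ := by
      have h3 : ‖ee x - (r : ℂ) * ee x‖ = 1 - r := by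
        have : ee x - (r : ℂ) * ee x = ((1 - r : ℝ) : ℂ) * ee x := by push_cast; ring
        rw [this, norm_mul, norm_ee, mul_one, Complex.norm_real,
          Real.norm_of_nonneg (by linarith [hr.2])]
      have h4 : 1 - r ≤ ‖ee (xx m l j) - (r : ℂ) * ee x‖ := by
        have := norm_sub_norm_le (ee (xx m l j)) ((r : ℂ) * ee x)
        rw [norm_ee, norm_mul, norm_ee, mul_one, Complex.norm_real, Real.norm_of_nonneg hr.1]
          at this
        exact this
      have h5 : ‖ee x - ee (xx m l j)‖ ≤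
          ‖ee x - (r : ℂ) * ee x‖ + ‖(r : ℂ) * ee x - ee (xx m l j)‖ := by
        have := norm_add_le (ee x - (r : ℂ) * ee x) ((r : ℂ) * ee x - ee (xx m l j))
        rwa [sub_add_sub_cancel] at this
      rw [norm_sub_rev ((r : ℂ) * ee x)] at h5
      linarith
    show 2 / 5 * dd m i ≤ ‖ee (xx m l j) - (r : ℂ) * ee x‖
    linarith
  have hU := tendstoUniformlyOn_GG hm hs1 hδ (i + 1) hlow
  have hxs : ee x ∈ s := ⟨1, by simp, by simp⟩
  have hlim := hU.tendsto_at hxs
  refine ⟨ff m (ee x), ?_, ?_, hlim⟩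
  · exact limit_ne_zero hm (hs1 _ hxs) hδ (i + 1) (hlow _ hxs) hlim
  · have hcont : ContinuousOn (ff m) s := by
      refine hU.continuousOn (Filter.Frequently.of_forall (fun k => ?_))
      intro z hz
      apply ContinuousAt.continuousWithinAt
      have h1 : ∀ l, ContinuousAt (FF m l) z := by
        intro l
        have : FF m l = fun z => ∏ j ∈ range (MM m l), uu m l j z := rfl
        rw [this]
        exact tendsto_finsetProd _ (fun j _ => (analyticAt_uu m l j (hs1 z hz)).continuousAt)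
      have : GG m k = fun z => ∏ l ∈ range k, FF m l z := rfl
      rw [this]
      exact tendsto_finsetProd _ (fun l _ => h1 l)
    have h1 : ContinuousWithinAt (fun r : ℝ => ff m ((r : ℂ) * ee x)) (Set.Icc 0 1) 1 := by
      have h2 : ContinuousWithinAt (ff m) s (((1 : ℝ) : ℂ) * ee x) := by
        simpa using hcont (ee x) hxs
      refine ContinuousWithinAt.comp (g := ff m) (f := fun r : ℝ => (r : ℂ) * ee x) h2
        (Continuous.continuousWithinAt (by fun_prop)) (fun r hr => ⟨r, hr, rfl⟩)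
    have h3 : Filter.Tendsto (fun r : ℝ => ff m ((r : ℂ) * ee x)) (nhdsWithin 1 (Set.Icc 0 1))
        (nhds (ff m (ee x))) := by
      have := h1.tendsto
      simpa using this
    refine h3.mono_left ?_
    rw [← nhdsWithin_Ioo_eq_nhdsLT (show (0 : ℝ) < 1 by norm_num)]
    exact nhdsWithin_mono _ Set.Ioo_subset_Icc_self

end Pool.Agent.Lib.BrownShields
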