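import Pool.Agent.Lib.BrownShields.Defs

set_option autoImplicit false

namespace Pool.Agent.Lib.BrownShields

open Complex Finset

theorem count_MM_succ {m : ℕ → ℕ} (hm : Par m) (i : ℕ) : MM m (i + 1) = MM m i * nn m i := by
  unfold MM nn MM
  rw [hm.hs, pow_add]

theorem count_mul_le_m {m : ℕ → ℕ} (hm : Par m) (i : ℕ) : 1000 * (i + 1) ≤ m i := by
  induction i with
  | zero => rw [hm.h0]
  | succ i ih =>
    rw [hm.hs]
    have h1 : m i < 2 ^ m i := Nat.lt_two_pow_self
    have h2 : 2 ^ m i < 2 ^ (2 ^ m i) := Nat.lt_two_pow_self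
    omega

/-- numerical estimate: `4 (m+14)^2 2^(-m/2) 2^i ≤ 2^(-(i+2))` for `m ≥ 1000 (i+1)` -/
theorem count_num (i m : ℕ) (h : 1000 * (i + 1) ≤ m) :
    2 ^ i * (4 * (((m + 13 : ℕ) : ℝ) + 1) ^ 2 * Real.exp (-((m : ℝ) * Real.log 2 / 2))) ≤
      (1 / 4) * (1 / 2) ^ i := by
  have hl : (0.69 : ℝ) < Real.log 2 := lt_trans (by norm_num) Real.log_two_gt_d9
  have hm : (1000 : ℝ) * ((i : ℝ) + 1) ≤ (m : ℝ) := by exact_mod_cast h
  have hi : (0 : ℝ) ≤ (i : ℝ) := Nat.cast_nonneg i
  have hm1 : (1000 : ℝ) ≤ (m : ℝ) := by nlinarith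
  set x : ℝ := (m : ℝ) with hx
  set l : ℝ := Real.log 2 with hl'
  -- exp (l x / 8) ≥ 213 x
  have h1 : 0.0215 * x ≤ Real.exp (l * x / 32) := by
    have := Real.add_one_le_exp (l * x / 32)
    nlinarith
  have h2 : (0.0215 * x) ^ 4 ≤ Real.exp (l * x / 8) := by
    have : Real.exp (l * x / 8) = (Real.exp (l * x / 32)) ^ 4 := by
      rw [← Real.exp_nat_mul]; congr 1; push_cast; ring
    rw [this]
    exact pow_le_pow_left₀ (by positivity) h1 4
  have h3 : 4 * (x + 14) ≤ (0.0215 * x) ^ 4 := by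
    have h4 : (1000 : ℝ) ^ 3 * x ≤ x ^ 4 := by
      have : (1000 : ℝ) ^ 3 ≤ x ^ 3 := pow_le_pow_left₀ (by norm_num) hm1 3
      nlinarith
    have h5 : (0.0215 * x) ^ 4 = 0.0215 ^ 4 * x ^ 4 := by ring
    rw [h5]
    nlinarith
  have h4 : (4 * (x + 14)) ^ 2 ≤ Real.exp (l * x / 4) := by
    have : Real.exp (l * x / 4) = (Real.exp (l * x / 8)) ^ 2 := by
      rw [← Real.exp_nat_mul]; congr 1; push_cast; ring
    rw [this]
    exact pow_le_pow_left₀ (by positivity) (h3.trans h2) 2
  have h5 : (2 : ℝ) ^ i = Real.exp (l * i) := by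
    rw [mul_comm, Real.exp_nat_mul, Real.exp_log (by norm_num)]
  have h6 : (4 : ℝ) ^ i ≤ Real.exp (l * x / 4) := by
    have : (4 : ℝ) ^ i = Real.exp (l * (2 * i)) := by
      have h7 : (4 : ℝ) ^ i = ((2 : ℝ) ^ i) ^ 2 := by
        rw [← pow_mul, mul_comm, pow_mul]; norm_num
      rw [h7, h5, ← Real.exp_nat_mul]; congr 1; push_cast; ring
    rw [this]
    apply Real.exp_le_exp.2
    have : 2 * (i : ℝ) ≤ x / 4 := by nlinarith
    have := mul_le_mul_of_nonneg_left this (show (0:ℝ) ≤ l by linarith)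
    linarith
  have h7 : Real.exp (-(x * l / 2)) = (Real.exp (l * x / 4) * Real.exp (l * x / 4))⁻¹ := by
    rw [← Real.exp_add, ← Real.exp_neg]; congr 1; ring
  rw [h7, ← div_eq_mul_inv]
  have hE : 0 < Real.exp (l * x / 4) := Real.exp_pos _
  have h8 : (1 / 2 : ℝ) ^ i = 2 ^ i / 4 ^ i := by
    rw [← div_pow]; norm_num
  rw [h8]
  have h9 : (0 : ℝ) < 2 ^ i := by positivity
  have h10 : (0 : ℝ) < 4 ^ i := by positivity
  have h11 : (((m + 13 : ℕ) : ℝ) + 1) = x + 14 := by push_cast; ring
  rw [h11, ← mul_div_assoc, div_le_iff₀ (by positivity)]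
  have h12 : 4 * (x + 14) ^ 2 ≤ (1 / 4) * (Real.exp (l * x / 4)) := by nlinarith
  have h13 : 4 * (x + 14) ^ 2 * 4 ^ i ≤ (1 / 4) * (Real.exp (l * x / 4)) * Real.exp (l * x / 4) :=
    mul_le_mul h12 h6 h10.le (by positivity)
  have h14 : 1 / 4 * (2 ^ i / 4 ^ i) * (Real.exp (l * x / 4) * Real.exp (l * x / 4)) =
      2 ^ i * ((1 / 4) * (Real.exp (l * x / 4)) * Real.exp (l * x / 4) / 4 ^ i) := by
    field_simp
  rw [h14]
  apply mul_le_mul_of_nonneg_left _ h9.le
  rw [le_div_iff₀ h10]
  exact h13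

/-- the counting argument, with the three steps as hypotheses -/
theorem no_cyclic_of {m : ℕ → ℕ} (hm : Par m) {φ : ℂ → ℂ}
    (hA : ∀ (i : ℕ) (u : ℕ → ℝ), (∀ j, |u j| ≤ LL m i / 16) →
      ∑ j ∈ range (MM m i), ‖φ (pt (LL m i) (xx m i j + u j)) - φ (pt (ss m i) (xx m i j))‖ ^ 2
        ≤ ((JJ m i : ℝ) + 1) ^ 2)
    (hB : ∀ (i j : ℕ), j < MM m i →
      (∃ T ⊆ range (nn m i), nn m i ≤ 2 * T.card ∧
        ∀ k ∈ T, Good m φ (i + 1) (j * nn m i + k)) →
      ‖φ (pt (ss m i) (xx m i j))‖ ≤ et m i / 2)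
    (hT : (∃ T ⊆ range (MM m 0), MM m 0 ≤ 2 * T.card ∧ ∀ k ∈ T, Good m φ 0 k) → False)
    (k : ℕ) (hsmall : ∀ j < MM m k, ‖φ (pt (ss m k) (xx m k j))‖ ≤ et m k / 2) :
    False := by
  classical
  -- the bad sets
  set B : ℕ → Finset ℕ := fun i => (range (MM m i)).filter (fun j => ¬ Good m φ i j) with hBdef
  set S : ℕ → Finset ℕ := fun i => (range (MM m i)).filter
    (fun j => et m i / 2 < ‖φ (pt (ss m i) (xx m i j))‖) with hSdef
  set ε : ℕ → ℝ := fun i => 4 * (((m i + 13 : ℕ) : ℝ) + 1) ^ 2 *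
    Real.exp (-((m i : ℝ) * Real.log 2 / 2)) with hε
  have hMpos : ∀ i, 0 < MM m i := fun i => by unfold MM; positivity
  have hMposR : ∀ i, (0 : ℝ) < MM m i := fun i => by exact_mod_cast hMpos i
  have hnpos : ∀ i, 0 < nn m i := fun i => by unfold nn; positivity
  have hetpos : ∀ i, 0 < et m i := fun i => Real.exp_pos _
  have hLpos : ∀ i, 0 < LL m i := fun i => by unfold LL; positivity
  -- step A : number of bad indices that are small at depth
  have hA1 : ∀ i, ((B i \ S i).card : ℝ) ≤ ε i * MM m i := by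
    intro i
    -- choose bad points
    have hch : ∀ j, ∃ u : ℝ, |u| ≤ LL m i / 16 ∧
        (¬ Good m φ i j → et m i < ‖φ (pt (LL m i) (xx m i j + u))‖) := by
      intro j
      by_cases hg : Good m φ i j
      · exact ⟨0, by rw [abs_zero]; have := hLpos i; positivity, fun h => absurd hg h⟩
      · unfold Good at hg
        push Not at hg
        obtain ⟨u, hu1, hu2⟩ := hg
        exact ⟨u, hu1, fun _ => hu2⟩
    choose u hu1 hu2 using hch
    have h1 := hA i u hu1
    have h2 : ∑ j ∈ B i \ S i, (et m i / 2) ^ 2 ≤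
        ∑ j ∈ range (MM m i),
          ‖φ (pt (LL m i) (xx m i j + u j)) - φ (pt (ss m i) (xx m i j))‖ ^ 2 := by
      refine (Finset.sum_le_sum ?_).trans (Finset.sum_le_sum_of_subset_of_nonneg ?_ ?_)
      · intro j hj
        rw [Finset.mem_sdiff] at hj
        obtain ⟨hj1, hj2⟩ := hj
        rw [hBdef, Finset.mem_filter] at hj1
        have hj3 : ‖φ (pt (ss m i) (xx m i j))‖ ≤ et m i / 2 := by
          by_contra hcon
          exact hj2 (by rw [hSdef, Finset.mem_filter]; exact ⟨hj1.1, not_le.1 hcon⟩)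
        have hj4 := hu2 j hj1.2
        have hj5 : et m i / 2 ≤ ‖φ (pt (LL m i) (xx m i j + u j)) - φ (pt (ss m i) (xx m i j))‖ := by
          have := norm_sub_norm_le (φ (pt (LL m i) (xx m i j + u j))) (φ (pt (ss m i) (xx m i j)))
          linarith
        have := hetpos i
        exact pow_le_pow_left₀ (by positivity) hj5 2
      · intro j hj
        rw [Finset.mem_sdiff] at hj
        exact (Finset.mem_filter.1 hj.1).1
      · intro j _ _
        positivity
    rw [Finset.sum_const, nsmul_eq_mul] at h2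
    have h3 := h2.trans h1
    have h4 : (et m i / 2) ^ 2 * (ε i * MM m i) = ((JJ m i : ℝ) + 1) ^ 2 := by
      rw [hε]
      simp only [et, MM, JJ]
      have e1 : (Real.exp (-((m i : ℝ) * Real.log 2 / 4))) ^ 2 =
          Real.exp (-((m i : ℝ) * Real.log 2 / 2)) := by
        rw [← Real.exp_nat_mul]; congr 1; push_cast; ring
      have e2 : (((2 ^ m i : ℕ)) : ℝ) = Real.exp ((m i : ℝ) * Real.log 2) := by
        rw [Real.exp_nat_mul, Real.exp_log (by norm_num)]; push_cast; rfl
      rw [div_pow, e1, e2]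
      have e3 : Real.exp (-((m i : ℝ) * Real.log 2 / 2)) *
          (Real.exp (-((m i : ℝ) * Real.log 2 / 2)) * Real.exp ((m i : ℝ) * Real.log 2)) = 1 := by
        rw [← Real.exp_add, ← Real.exp_add]
        convert Real.exp_zero using 2
        ring
      calc Real.exp (-((m i : ℝ) * Real.log 2 / 2)) / 2 ^ 2 *
            (4 * (((m i + 13 : ℕ) : ℝ) + 1) ^ 2 * Real.exp (-((m i : ℝ) * Real.log 2 / 2)) *
              Real.exp ((m i : ℝ) * Real.log 2)) =
          (((m i + 13 : ℕ) : ℝ) + 1) ^ 2 * (Real.exp (-((m i : ℝ) * Real.log 2 / 2)) *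
          (Real.exp (-((m i : ℝ) * Real.log 2 / 2)) * Real.exp ((m i : ℝ) * Real.log 2))) := by ring
        _ = (((m i + 13 : ℕ) : ℝ) + 1) ^ 2 := by rw [e3, mul_one]
    rw [← h4, mul_comm] at h3
    have h5 : 0 < (et m i / 2) ^ 2 := by have := hetpos i; positivity
    exact le_of_mul_le_mul_left h3 h5
  have hA2 : ∀ i, ((B i).card : ℝ) ≤ ε i * MM m i + (S i).card := by
    intro i
    have h1 : (B i).card ≤ (B i \ S i).card + (S i).card := by
      have := Finset.card_le_card_sdiff_add_card (s := B i) (t := S i)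
      exact this
    have h2 : ((B i).card : ℝ) ≤ ((B i \ S i).card : ℝ) + (S i).card := by exact_mod_cast h1
    linarith [hA1 i]
  -- step B
  have hB1 : ∀ i, nn m i * (S i).card ≤ 2 * (B (i + 1)).card := by
    intro i
    -- bad children
    set C : ℕ → Finset ℕ := fun j => (range (nn m i)).filter
      (fun k => ¬ Good m φ (i + 1) (j * nn m i + k)) with hC
    have h1 : ∀ j ∈ S i, nn m i ≤ 2 * (C j).card := by
      intro j hj
      rw [hSdef, Finset.mem_filter, Finset.mem_range] at hj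
      by_contra hcon
      have h2 : ((range (nn m i)).filter (fun k => Good m φ (i + 1) (j * nn m i + k))).card +
          (C j).card = nn m i := by
        rw [hC]
        have := Finset.card_filter_add_card_filter_not (s := range (nn m i))
          (fun k => Good m φ (i + 1) (j * nn m i + k))
        rw [Finset.card_range] at this
        exact this
      have h3 := hB i j hj.1 ⟨_, Finset.filter_subset (fun k => Good m φ (i + 1) (j * nn m i + k)) _,
        by omega, fun k hk => (Finset.mem_filter.1 hk).2⟩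
      exact absurd h3 (not_le.2 hj.2)
    have h2 : nn m i * (S i).card ≤ ∑ j ∈ S i, 2 * (C j).card := by
      rw [mul_comm, ← smul_eq_mul]
      exact Finset.card_nsmul_le_sum _ _ _ h1
    refine h2.trans ?_
    rw [← Finset.mul_sum]
    apply Nat.mul_le_mul_left
    rw [← Finset.card_sigma]
    refine Finset.card_le_card_of_injOn (fun p => p.1 * nn m i + p.2) ?_ ?_
    · rintro ⟨j, c⟩ hp
      rw [Finset.mem_coe, Finset.mem_sigma] at hp
      obtain ⟨hj, hc⟩ := hp
      rw [hSdef, Finset.mem_filter, Finset.mem_range] at hj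
      rw [hC, Finset.mem_filter, Finset.mem_range] at hc
      rw [Finset.mem_coe, hBdef, Finset.mem_filter, Finset.mem_range]
      refine ⟨?_, hc.2⟩
      have hc1 : c < nn m i := hc.1
      have hj1 : j + 1 ≤ MM m i := hj.1
      show j * nn m i + c < MM m (i + 1)
      rw [count_MM_succ hm]
      calc j * nn m i + c < j * nn m i + nn m i := Nat.add_lt_add_left hc1 _
        _ = (j + 1) * nn m i := by ring
        _ ≤ MM m i * nn m i := Nat.mul_le_mul_right _ hj1
    · rintro ⟨j, c⟩ hp ⟨j', c'⟩ hp' heq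
      rw [Finset.mem_coe, Finset.mem_sigma] at hp hp'
      have hc := hp.2
      have hc' := hp'.2
      rw [hC, Finset.mem_filter, Finset.mem_range] at hc hc'
      simp only at heq hc hc'
      have e1 : j = j' := by
        have h3 : (j * nn m i + c) / nn m i = j := by
          rw [mul_comm, Nat.mul_add_div (hnpos i), Nat.div_eq_of_lt hc.1, add_zero]
        have h4 : (j' * nn m i + c') / nn m i = j' := by
          rw [mul_comm, Nat.mul_add_div (hnpos i), Nat.div_eq_of_lt hc'.1, add_zero]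
        rw [← h3, ← h4, heq]
      subst e1
      have e2 : c = c' := by omega
      rw [e2]
  -- densities
  have hrec : ∀ i, ((B i).card : ℝ) / MM m i ≤ ε i + 2 * (((B (i + 1)).card : ℝ) / MM m (i + 1)) := by
    intro i
    have h1 := hA2 i
    have h2 : (nn m i : ℝ) * (S i).card ≤ 2 * (B (i + 1)).card := by exact_mod_cast hB1 i
    have h3 : (MM m (i + 1) : ℝ) = MM m i * nn m i := by exact_mod_cast count_MM_succ hm i
    have hn : (0 : ℝ) < nn m i := by exact_mod_cast hnpos i
    rw [div_le_iff₀ (hMposR i), h3]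
    have h4 : (ε i + 2 * (((B (i + 1)).card : ℝ) / (MM m i * nn m i))) * MM m i =
        ε i * MM m i + 2 * (B (i + 1)).card / nn m i := by
      have := (hMposR i).ne'
      field_simp
    rw [h4]
    have h5 : ((S i).card : ℝ) ≤ 2 * (B (i + 1)).card / nn m i := by
      rw [le_div_iff₀ hn, mul_comm]; exact h2
    linarith
  have hlast : ((B k).card : ℝ) / MM m k ≤ ε k := by
    have h1 := hA2 k
    have h2 : S k = ∅ := by
      rw [hSdef]
      apply Finset.filter_eq_empty_iff.2
      intro j hj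
      rw [Finset.mem_range] at hj
      exact not_lt.2 (hsmall j hj)
    rw [h2, Finset.card_empty] at h1
    rw [div_le_iff₀ (hMposR k)]
    simpa using h1
  have hεb : ∀ i, 2 ^ i * ε i ≤ (1 / 4) * (1 / 2) ^ i :=
    fun i => count_num i (m i) (count_mul_le_m hm i)
  have hind : ∀ n i, i + n = k →
      2 ^ i * (((B i).card : ℝ) / MM m i) ≤ (1 / 2) * (1 / 2) ^ i := by
    intro n
    induction n with
    | zero =>
      intro i hi
      have : i = k := by omega
      subst this
      have h1 : (2 : ℝ) ^ i * (((B i).card : ℝ) / MM m i) ≤ 2 ^ i * ε i :=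
        mul_le_mul_of_nonneg_left hlast (by positivity)
      have h2 : (0 : ℝ) < (1 / 2) ^ i := by positivity
      linarith [hεb i]
    | succ n ih =>
      intro i hi
      have h1 := ih (i + 1) (by omega)
      have h2 : (2 : ℝ) ^ i * (((B i).card : ℝ) / MM m i) ≤
          2 ^ i * (ε i + 2 * (((B (i + 1)).card : ℝ) / MM m (i + 1))) :=
        mul_le_mul_of_nonneg_left (hrec i) (by positivity)
      have h3 : (2 : ℝ) ^ i * (ε i + 2 * (((B (i + 1)).card : ℝ) / MM m (i + 1))) =
          2 ^ i * ε i + 2 ^ (i + 1) * (((B (i + 1)).card : ℝ) / MM m (i + 1)) := by ring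
      have h4 : (1 / 2 : ℝ) ^ (i + 1) = (1 / 2) ^ i / 2 := by rw [pow_succ]; ring
      rw [h4] at h1
      linarith [hεb i]
  have hfin := hind k 0 (by omega)
  rw [pow_zero, pow_zero, one_mul, mul_one, div_le_iff₀ (hMposR 0)] at hfin
  have hfin' : 2 * (B 0).card ≤ MM m 0 := by
    have : (2 : ℝ) * (B 0).card ≤ MM m 0 := by linarith
    exact_mod_cast this
  apply hT
  refine ⟨(range (MM m 0)).filter (fun j => Good m φ 0 j), Finset.filter_subset _ _, ?_,
    fun j hj => (Finset.mem_filter.1 hj).2⟩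
  have h1 := Finset.card_filter_add_card_filter_not (s := range (MM m 0)) (fun j => Good m φ 0 j)
  rw [Finset.card_range] at h1
  have h2 : (B 0).card = ((range (MM m 0)).filter (fun j => ¬ Good m φ 0 j)).card := rfl
  omega

end Pool.Agent.Lib.BrownShields
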