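import Pool.Agent.Lib.BrownShields.Final

/-!
# The function on the closed disc

The function `ff m` is continuous on the closed disc, and `log |ff m|` is the Poisson integral of
its boundary values.
-/

set_option autoImplicit false

namespace Pool.Agent.Lib.BrownShields

open Complex Finset MeasureTheory Metric Filter Topology

theorem disc_norm_zz (x : ℝ) (z : ℂ) : ‖zz x z‖ = ‖ee x - z‖ := Conv.norm_zz x z

theorem disc_far {m : ℕ → ℕ} (hm : Par m) {i : ℕ} {z0 z : ℂ} (h0 : z0 ∉ UU m i)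
    (hz : ‖z - z0‖ ≤ 2 / 5 * dd m i) (l : ℕ) (hl : i + 1 ≤ l) (j : ℕ) (hj : j < MM m l) :
    2 / 5 * dd m i ≤ ‖zz (xx m l j) z‖ := by
  have hd := dd_pos m i
  have hfar : ∀ j < MM m i, 4 * dd m i ≤ ‖z0 - ee (xx m i j)‖ := by
    intro j hj
    by_contra hcon
    push Not at hcon
    apply h0
    unfold UU
    simp only [Set.mem_iUnion, Finset.mem_range]
    exact ⟨j, hj, by rw [mem_ball, dist_eq_norm]; exact hcon⟩
  rw [disc_norm_zz]
  obtain ⟨j', hj', hjj⟩ := xx_anc hm i l j (by omega) hj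
  have h1 := hfar j' hj'
  have h2 := ee_sub_le (xx m l j) (xx m i j')
  have h3 := LL_pos m l
  have h4 : |xx m l j - xx m i j'| ≤ dd m i / 2 := by linarith
  have h5 : ‖ee (xx m l j) - ee (xx m i j')‖ ≤ Real.pi * dd m i := by
    refine h2.trans ?_
    have := mul_le_mul_of_nonneg_left h4 (by positivity : (0 : ℝ) ≤ 2 * Real.pi)
    linarith
  have h6 : Real.pi * dd m i ≤ 3.2 * dd m i := by
    have := Real.pi_lt_d2
    exact mul_le_mul_of_nonneg_right (by linarith) hd.le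
  have h7 : ‖z0 - ee (xx m i j')‖ ≤ ‖z - z0‖ + ‖ee (xx m l j) - z‖ +
      ‖ee (xx m l j) - ee (xx m i j')‖ := by
    have e : z0 - ee (xx m i j') = -(z - z0) - (ee (xx m l j) - z) +
        (ee (xx m l j) - ee (xx m i j')) := by ring
    rw [e]
    refine (norm_add_le _ _).trans ?_
    gcongr
    refine (norm_sub_le _ _).trans ?_
    rw [norm_neg]
  linarith

theorem disc_uniform {m : ℕ → ℕ} (hm : Par m) {i : ℕ} {z0 : ℂ} (h0 : z0 ∉ UU m i) :
    TendstoUniformlyOn (fun k : ℕ => GG m k) (ff m) atTop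
      (closedBall 0 1 ∩ closedBall z0 (2 / 5 * dd m i)) := by
  have hd := dd_pos m i
  refine Conv.tendstoUniformlyOn_GG hm (fun z hz => by simpa using hz.1)
    (δ := 2 / 5 * dd m i) (by positivity) (i + 1) ?_
  intro z hz l hl j hj
  refine disc_far hm h0 ?_ l hl j hj
  have := hz.2
  rwa [mem_closedBall, dist_eq_norm] at this

theorem disc_near {m : ℕ → ℕ} (hm : Par m) {i : ℕ} {z0 z : ℂ} (h0 : z0 ∈ UU m i)
    (hz1 : ‖z‖ ≤ 1) (hz : ‖z - z0‖ ≤ dd m i) : ‖FF m i z‖ ≤ 1 / 2 := by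
  have hd := dd_pos m i
  have hL := LL_pos m i
  simp only [UU, Set.mem_iUnion, Finset.mem_range, mem_ball, exists_prop] at h0
  obtain ⟨j, hj, h1⟩ := h0
  rw [dist_eq_norm] at h1
  have h2 : ‖zz (xx m i j) z‖ ≤ 5 * dd m i := by
    rw [disc_norm_zz]
    have e : ee (xx m i j) - z = -(z - z0) - (z0 - ee (xx m i j)) := by ring
    rw [e]
    refine (norm_sub_le _ _).trans ?_
    rw [norm_neg]
    linarith
  have hbig : 17 * dd m i ≤ LL m i := by
    rw [← dd_eq]
    have h3 : 5 ≤ MM m i := by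
      have h4 := m_lt_MM m i
      have h5 := thousand_le hm i
      omega
    have h4 : (2 : ℝ) ^ 5 ≤ 2 ^ MM m i := pow_le_pow_right₀ (by norm_num) h3
    nlinarith
  have hre := zz_re_nonneg (xx m i j) hz1
  have hu : ‖uu m i j z‖ ≤ 1 / 2 := by
    unfold uu spike
    rw [norm_mul, norm_div]
    have h3 := Spike.norm_exp_le_one (Spike.re_neg_div_nonpos hre hd
      (mul_nonneg (by rw [KK]; norm_num : (0 : ℝ) ≤ KK) hL.le))
    have h4 : ‖zz (xx m i j) z + (dd m i : ℂ)‖ ≤ 6 * dd m i := by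
      refine (norm_add_le _ _).trans ?_
      rw [Complex.norm_real, Real.norm_of_nonneg hd.le]
      linarith
    have h5 : 12 * dd m i ≤ ‖zz (xx m i j) z + (LL m i : ℂ)‖ := by
      have h6 : ‖(LL m i : ℂ)‖ ≤ ‖zz (xx m i j) z + (LL m i : ℂ)‖ + ‖zz (xx m i j) z‖ := by
        have := norm_sub_le (zz (xx m i j) z + (LL m i : ℂ)) (zz (xx m i j) z)
        rwa [add_sub_cancel_left] at this
      rw [Complex.norm_real, Real.norm_of_nonneg hL.le] at h6
      linarith
    have h6 : ‖zz (xx m i j) z + (dd m i : ℂ)‖ / ‖zz (xx m i j) z + (LL m i : ℂ)‖ ≤ 1 / 2 := by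
      rw [div_le_div_iff₀ (by linarith) (by norm_num)]
      linarith
    calc _ ≤ 1 / 2 * (1 : ℝ) := mul_le_mul h6 h3 (norm_nonneg _) (by norm_num)
      _ = 1 / 2 := by norm_num
  unfold FF
  rw [← Finset.mul_prod_erase (range (MM m i)) _ (Finset.mem_range.mpr hj), norm_mul]
  calc _ ≤ 1 / 2 * (1 : ℝ) :=
        mul_le_mul hu (Conv.norm_prod_sub_one_le _ _ (fun j _ => norm_uu_le m i j hz1)).1
          (norm_nonneg _) (by norm_num)
    _ = _ := mul_one _

theorem disc_small {m : ℕ → ℕ} (hm : Par m) {z0 z : ℂ} (h0 : ∀ i, z0 ∈ UU m i)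
    (hz1 : ‖z‖ ≤ 1) (k : ℕ) (hz : ‖z - z0‖ ≤ dd m k) (n : ℕ) (hn : k + 1 ≤ n) :
    ‖GG m n z‖ ≤ (1 / 2) ^ (k + 1) := by
  induction n, hn using Nat.le_induction with
  | base =>
    unfold GG
    rw [norm_prod, ← Finset.card_range (k + 1), ← Finset.prod_const, Finset.card_range]
    apply Finset.prod_le_prod (fun i _ => norm_nonneg _)
    intro i hi
    have hik : i ≤ k := by
      have := Finset.mem_range.mp hi
      omega
    exact disc_near hm (h0 i) hz1 (hz.trans (dd_anti m hik))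
  | succ n hn ih =>
    rw [Conv.GG_succ, norm_mul]
    calc _ ≤ (1 / 2 : ℝ) ^ (k + 1) * 1 :=
          mul_le_mul ih (Conv.norm_FF_le m n hz1) (norm_nonneg _) (by positivity)
      _ = _ := mul_one _

theorem disc_tendsto {m : ℕ → ℕ} (hm : Par m) {z : ℂ} (hz : ‖z‖ ≤ 1) :
    Tendsto (fun k : ℕ => GG m k z) atTop (𝓝 (ff m z)) := by
  by_cases h : ∀ i, z ∈ UU m i
  · have h1 : Tendsto (fun k : ℕ => GG m k z) atTop (𝓝 0) := by
      rw [Metric.tendsto_atTop]
      intro ε hε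
      obtain ⟨k, hk⟩ := exists_pow_lt_of_lt_one hε (show (1 / 2 : ℝ) < 1 by norm_num)
      refine ⟨k + 1, fun n hn => ?_⟩
      rw [dist_zero_right]
      refine (disc_small hm h hz k (by rw [sub_self, norm_zero]; exact (dd_pos m k).le) n
        hn).trans_lt ?_
      refine lt_of_le_of_lt ?_ hk
      rw [pow_succ]
      have : (0 : ℝ) < (1 / 2) ^ k := by positivity
      linarith
    have h2 : ff m z = 0 := h1.limUnder_eq
    rw [h2]
    exact h1
  · push Not at h
    obtain ⟨i, hi⟩ := h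
    have hd := dd_pos m i
    exact (disc_uniform hm hi).tendsto_at ⟨by simpa using hz, by
      rw [mem_closedBall, dist_self]; positivity⟩

theorem disc_norm_le {m : ℕ → ℕ} (hm : Par m) {z : ℂ} (hz : ‖z‖ ≤ 1) : ‖ff m z‖ ≤ 1 :=
  le_of_tendsto' (disc_tendsto hm hz).norm (fun k => Conv.norm_GG_le m k hz)

theorem disc_GG_cont (m : ℕ → ℕ) (k : ℕ) : ContinuousOn (GG m k) (closedBall 0 1) := by
  intro z hz
  exact (JensenAux.analyticAt_GG m k (by simpa using hz)).continuousAt.continuousWithinAt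

theorem disc_continuousOn {m : ℕ → ℕ} (hm : Par m) : ContinuousOn (ff m) (closedBall 0 1) := by
  intro z0 hz0
  have hz0' : ‖z0‖ ≤ 1 := by simpa using hz0
  by_cases h : ∀ i, z0 ∈ UU m i
  · have h2 : ff m z0 = 0 := by
      refine tendsto_nhds_unique (disc_tendsto hm hz0') ?_
      rw [Metric.tendsto_atTop]
      intro ε hε
      obtain ⟨k, hk⟩ := exists_pow_lt_of_lt_one hε (show (1 / 2 : ℝ) < 1 by norm_num)
      refine ⟨k + 1, fun n hn => ?_⟩
      rw [dist_zero_right]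
      refine (disc_small hm h hz0' k (by rw [sub_self, norm_zero]; exact (dd_pos m k).le) n
        hn).trans_lt ?_
      refine lt_of_le_of_lt ?_ hk
      rw [pow_succ]
      have : (0 : ℝ) < (1 / 2) ^ k := by positivity
      linarith
    rw [Metric.continuousWithinAt_iff]
    intro ε hε
    obtain ⟨k, hk⟩ := exists_pow_lt_of_lt_one hε (show (1 / 2 : ℝ) < 1 by norm_num)
    refine ⟨dd m k, dd_pos m k, fun z hz hzd => ?_⟩
    rw [h2, dist_zero_right]
    rw [dist_eq_norm] at hzd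
    have hz' : ‖z‖ ≤ 1 := by simpa using hz
    have h3 : ‖ff m z‖ ≤ (1 / 2) ^ (k + 1) :=
      le_of_tendsto (disc_tendsto hm hz').norm (eventually_atTop.mpr
        ⟨k + 1, fun n hn => disc_small hm h hz' k hzd.le n hn⟩)
    refine h3.trans_lt (lt_of_le_of_lt ?_ hk)
    rw [pow_succ]
    have : (0 : ℝ) < (1 / 2) ^ k := by positivity
    linarith
  · push Not at h
    obtain ⟨i, hi⟩ := h
    have hd := dd_pos m i
    have h1 : ContinuousOn (ff m) (closedBall 0 1 ∩ closedBall z0 (2 / 5 * dd m i)) :=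
      (disc_uniform hm hi).continuousOn (Frequently.of_forall fun k =>
        (disc_GG_cont m k).mono Set.inter_subset_left)
    have h2 := h1 z0 ⟨hz0, by rw [mem_closedBall, dist_self]; positivity⟩
    exact h2.mono_of_mem_nhdsWithin (inter_mem_nhdsWithin _
      (closedBall_mem_nhds z0 (by positivity)))

theorem disc_ne_zero {m : ℕ → ℕ} (hm : Par m) {z : ℂ} (hz : ‖z‖ < 1) : ff m z ≠ 0 := by
  refine Conv.limit_ne_zero hm hz.le (δ := 1 - ‖z‖) (by linarith) 0 ?_ (disc_tendsto hm hz.le)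
  intro i _ j _
  exact Conv.one_sub_norm_le (xx m i j) z

/-- values at the points of the circle outside `∩ U_i` -/
theorem disc_ne_zero' {m : ℕ → ℕ} (hm : Par m) {z : ℂ} (hz : ‖z‖ ≤ 1) {i : ℕ}
    (hi : z ∉ UU m i) : ff m z ≠ 0 := by
  have hd := dd_pos m i
  refine Conv.limit_ne_zero hm hz (δ := 2 / 5 * dd m i) (by positivity) (i + 1) ?_
    (disc_tendsto hm hz)
  intro l hl j hj
  exact disc_far hm hi (by rw [sub_self, norm_zero]; positivity) l hl j hj

/-- Poisson formula for `log |G_k|` -/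
theorem poisson_GG (m : ℕ → ℕ) (k : ℕ) {z : ℂ} (hz : ‖z‖ < 1) :
    ∫ θ in (0 : ℝ)..(2 * Real.pi), (1 - ‖z‖ ^ 2) / ‖Complex.exp ((θ : ℂ) * Complex.I) - z‖ ^ 2 *
      Real.log ‖GG m k (Complex.exp ((θ : ℂ) * Complex.I))‖ =
      2 * Real.pi * Real.log ‖GG m k z‖ := by
  have hh : InnerProductSpace.HarmonicOnNhd (fun w : ℂ => Real.log ‖GG m k w‖)
      (closedBall 0 1) := fun w hw =>
    (JensenAux.analyticAt_GG m k (by simpa using hw)).harmonicAt_log_norm
      (JensenAux.GG_ne_zero m k (by simpa using hw))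
  have h := hh.circleAverage_poissonKernel_smul (w := z) (by simpa using hz)
  rw [Real.circleAverage_def] at h
  have h2 : ∀ θ : ℝ, circleMap 0 1 θ = Complex.exp ((θ : ℂ) * Complex.I) := by
    intro θ
    simp [circleMap]
  simp only [h2, smul_eq_mul, Pi.smul_apply', poissonKernel_def, sub_zero,
    JensenAux.norm_exp, one_pow] at h
  rw [← h]
  have : (2 * Real.pi) ≠ 0 := by positivity
  rw [← mul_assoc, mul_inv_cancel₀ this, one_mul]

theorem poisson_cont {z : ℂ} (hz : ‖z‖ < 1) : Continuous fun θ : ℝ =>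
    (1 - ‖z‖ ^ 2) / ‖Complex.exp ((θ : ℂ) * Complex.I) - z‖ ^ 2 := by
  refine continuous_const.div (by fun_prop) fun θ => ?_
  have h1 : 0 < ‖Complex.exp ((θ : ℂ) * Complex.I) - z‖ := by
    have := norm_sub_norm_le (Complex.exp ((θ : ℂ) * Complex.I)) z
    rw [JensenAux.norm_exp] at this
    linarith
  positivity

/-- **Poisson representation** of `log |f|` -/
theorem poisson_of {m : ℕ → ℕ} (hm : Par m) {z : ℂ} (hz : ‖z‖ < 1) (F : ℝ → ℂ)
    (hF : ∀ᵐ θ : ℝ, Filter.Tendsto (fun k : ℕ => GG m k (Complex.exp ((θ : ℂ) * Complex.I)))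
      Filter.atTop (nhds (F θ)) ∧ F θ ≠ 0) :
    IntervalIntegrable (fun θ : ℝ => (1 - ‖z‖ ^ 2) /
      ‖Complex.exp ((θ : ℂ) * Complex.I) - z‖ ^ 2 * Real.log ‖F θ‖) volume 0 (2 * Real.pi) ∧
    Real.log ‖ff m z‖ = (1 / (2 * Real.pi)) * ∫ θ in (0 : ℝ)..(2 * Real.pi), (1 - ‖z‖ ^ 2) /
      ‖Complex.exp ((θ : ℂ) * Complex.I) - z‖ ^ 2 * Real.log ‖F θ‖ := by
  have h0 := disc_tendsto hm hz.le
  have hne := disc_ne_zero hm hz
  set μ : Measure ℝ := volume.restrict (Set.Ioc 0 (2 * Real.pi)) with hμ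
  have hpi : (0 : ℝ) ≤ 2 * Real.pi := by positivity
  set P : ℝ → ℝ := fun θ => (1 - ‖z‖ ^ 2) / ‖Complex.exp ((θ : ℂ) * Complex.I) - z‖ ^ 2 with hP
  have hPc : Continuous P := poisson_cont hz
  have hP0 : ∀ θ, 0 ≤ P θ := by
    intro θ
    simp only [hP]
    have : 0 ≤ 1 - ‖z‖ ^ 2 := by nlinarith [norm_nonneg z]
    positivity
  set g : ℕ → ℝ → ℝ := fun k θ => P θ * (- Real.log ‖GG m k (Complex.exp ((θ : ℂ) * Complex.I))‖)
    with hg
  have hgc : ∀ k, Continuous (g k) := fun k => hPc.mul (JensenAux.cont_log m k).neg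
  have hl0 : ∀ (k : ℕ) (θ : ℝ),
      0 ≤ - Real.log ‖GG m k (Complex.exp ((θ : ℂ) * Complex.I))‖ := by
    intro k θ
    have := Real.log_nonpos (norm_nonneg _) (Conv.norm_GG_le m k (JensenAux.norm_exp θ).le)
    linarith
  have hg0 : ∀ k θ, 0 ≤ g k θ := fun k θ => mul_nonneg (hP0 θ) (hl0 k θ)
  have hgmono : ∀ θ, Monotone fun k => g k θ := by
    intro θ
    apply monotone_nat_of_le_succ
    intro k
    simp only [hg]
    apply mul_le_mul_of_nonneg_left _ (hP0 θ)
    apply neg_le_neg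
    apply Real.log_le_log (norm_pos_iff.mpr (JensenAux.GG_ne_zero m (k + 1)
      (JensenAux.norm_exp θ).le))
    rw [Conv.GG_succ, norm_mul]
    calc _ ≤ ‖GG m k (Complex.exp ((θ : ℂ) * Complex.I))‖ * 1 :=
          mul_le_mul_of_nonneg_left (Conv.norm_FF_le m k (JensenAux.norm_exp θ).le) (norm_nonneg _)
      _ = _ := mul_one _
  have hgi : ∀ k, Integrable (g k) μ := by
    intro k
    exact ((hgc k).integrableOn_Icc (a := 0) (b := 2 * Real.pi)).mono_set Set.Ioc_subset_Icc_self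
  have hgint : ∀ k, ∫ θ, g k θ ∂μ = 2 * Real.pi * (- Real.log ‖GG m k z‖) := by
    intro k
    have h1 := poisson_GG m k hz
    rw [intervalIntegral.integral_of_le hpi] at h1
    have e : g k = fun θ : ℝ => -((1 - ‖z‖ ^ 2) / ‖Complex.exp ((θ : ℂ) * Complex.I) - z‖ ^ 2 *
      Real.log ‖GG m k (Complex.exp ((θ : ℂ) * Complex.I))‖) := by
      funext θ
      simp only [hg, hP]
      ring
    rw [e, integral_neg, h1]
    ring
  set G : ℝ → ℝ := fun θ => P θ * (- Real.log ‖F θ‖) with hG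
  have hlim : ∀ᵐ θ ∂μ, Filter.Tendsto (fun k => g k θ) Filter.atTop (nhds (G θ)) := by
    have h1 : ∀ᵐ (θ : ℝ) ∂μ, Filter.Tendsto
        (fun k : ℕ => GG m k (Complex.exp ((θ : ℂ) * Complex.I)))
        Filter.atTop (nhds (F θ)) ∧ F θ ≠ 0 := ae_restrict_of_ae hF
    filter_upwards [h1] with θ hθ
    exact (((hθ.1.norm).log (norm_ne_zero_iff.mpr hθ.2)).neg).const_mul _
  have hGm : AEMeasurable G μ :=
    aemeasurable_of_tendsto_metrizable_ae _ (fun k => (hgc k).measurable.aemeasurable) hlim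
  have hG0 : 0 ≤ᵐ[μ] G := by
    filter_upwards [hlim] with θ hθ
    exact ge_of_tendsto' hθ (fun k => hg0 k θ)
  -- monotone convergence
  have hl : Filter.Tendsto (fun k => ∫⁻ θ, ENNReal.ofReal (g k θ) ∂μ) Filter.atTop
      (nhds (∫⁻ θ, ENNReal.ofReal (G θ) ∂μ)) := by
    apply lintegral_tendsto_of_tendsto_of_monotone
    · intro k
      exact (hgc k).measurable.ennreal_ofReal.aemeasurable
    · filter_upwards with θ
      intro k l hkl
      exact ENNReal.ofReal_le_ofReal (hgmono θ hkl)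
    · filter_upwards [hlim] with θ hθ
      exact (ENNReal.continuous_ofReal.tendsto _).comp hθ
  have hl2 : ∀ k, ∫⁻ θ, ENNReal.ofReal (g k θ) ∂μ =
      ENNReal.ofReal (2 * Real.pi * (- Real.log ‖GG m k z‖)) := by
    intro k
    rw [← hgint k, ofReal_integral_eq_lintegral_ofReal (hgi k)
      (Filter.Eventually.of_forall (hg0 k))]
  have h0' : Filter.Tendsto (fun k => ENNReal.ofReal (2 * Real.pi * (- Real.log ‖GG m k z‖)))
      Filter.atTop (nhds (ENNReal.ofReal (2 * Real.pi * (- Real.log ‖ff m z‖)))) := by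
    apply (ENNReal.continuous_ofReal.tendsto _).comp
    exact ((h0.norm.log (norm_ne_zero_iff.mpr hne)).neg).const_mul _
  have hkey : ∫⁻ θ, ENNReal.ofReal (G θ) ∂μ =
      ENNReal.ofReal (2 * Real.pi * (- Real.log ‖ff m z‖)) := by
    refine tendsto_nhds_unique hl ?_
    simp only [hl2]
    exact h0'
  have hff0 : 0 ≤ 2 * Real.pi * (- Real.log ‖ff m z‖) := by
    have h2 := Real.log_nonpos (norm_nonneg _) (disc_norm_le hm hz.le)
    apply mul_nonneg hpi
    linarith
  have hint : ∫ θ, G θ ∂μ = 2 * Real.pi * (- Real.log ‖ff m z‖) := by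
    rw [integral_eq_lintegral_of_nonneg_ae hG0 hGm.aestronglyMeasurable, hkey,
      ENNReal.toReal_ofReal hff0]
  have hGint : Integrable G μ := by
    refine ⟨hGm.aestronglyMeasurable, ?_⟩
    rw [hasFiniteIntegral_iff_ofReal hG0, hkey]
    exact ENNReal.ofReal_lt_top
  have e2 : (fun θ : ℝ => P θ * Real.log ‖F θ‖) = fun θ => - G θ := by
    funext θ
    simp only [hG]
    ring
  constructor
  · rw [intervalIntegrable_iff_integrableOn_Ioc_of_le hpi]
    show Integrable (fun θ : ℝ => P θ * Real.log ‖F θ‖) μ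
    rw [e2]
    exact hGint.neg
  · rw [intervalIntegral.integral_of_le hpi]
    have h3 : ∫ θ in Set.Ioc 0 (2 * Real.pi), P θ * Real.log ‖F θ‖ = - ∫ θ, G θ ∂μ := by
      rw [e2, integral_neg]
    have h4 : ∫ θ in Set.Ioc 0 (2 * Real.pi), (1 - ‖z‖ ^ 2) /
      ‖Complex.exp ((θ : ℂ) * Complex.I) - z‖ ^ 2 * Real.log ‖F θ‖ = - ∫ θ, G θ ∂μ := h3
    rw [h4, hint]
    have hpi2 : (2 * Real.pi) ≠ 0 := by positivity
    field_simp

end Pool.Agent.Lib.BrownShields
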