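import Pool.Agent.Lib.BrownShields.Defs

set_option autoImplicit false

namespace Pool.Agent.Lib.BrownShields

open Complex Finset MeasureTheory Metric

theorem norm_zz_eq_norm_sub (x : ℝ) (z : ℂ) : ‖zz x z‖ = ‖z - ee x‖ := by
  have h1 : ee x * ee (-x) = 1 := by
    unfold ee
    rw [← Complex.exp_add]
    rw [show (((2 * Real.pi * x : ℝ) : ℂ) * Complex.I + ((2 * Real.pi * -x : ℝ) : ℂ) * Complex.I)
      = 0 by push_cast; ring]
    exact Complex.exp_zero
  have h2 : ‖ee x‖ = 1 := by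
    unfold ee
    rw [Complex.norm_exp_ofReal_mul_I]
  have h3 : z - ee x = -(ee x * zz x z) := by
    unfold zz
    linear_combination (-z) * h1
  rw [h3, norm_neg, norm_mul, h2, one_mul]

theorem intInv_aux {δ : ℝ} (hδ : 0 < δ) :
    ∫ w in ball (0 : ℂ) 2, 1 / (‖w‖ ^ 2 + δ ^ 2) = Real.pi * Real.log (1 + 4 / δ ^ 2) := by
  have h0 : ∀ w : ℂ, (ball (0 : ℂ) 2).indicator (fun w : ℂ => 1 / (‖w‖ ^ 2 + δ ^ 2)) w =
      (Set.Iio (2 : ℝ)).indicator (fun r : ℝ => 1 / (r ^ 2 + δ ^ 2)) ‖w‖ := by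
    intro w
    by_cases hw : ‖w‖ < 2
    · rw [Set.indicator_of_mem (by simpa using hw), Set.indicator_of_mem (by simpa using hw)]
    · rw [Set.indicator_of_notMem (by simpa using hw), Set.indicator_of_notMem (by simpa using hw)]
  rw [← integral_indicator measurableSet_ball]
  simp_rw [h0]
  rw [integral_fun_norm_addHaar (volume : Measure ℂ)
    ((Set.Iio (2 : ℝ)).indicator (fun r : ℝ => 1 / (r ^ 2 + δ ^ 2)))]
  have hdim : Module.finrank ℝ ℂ = 2 := Complex.finrank_real_complex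
  have hvol : (volume : Measure ℂ).real (ball 0 1) = Real.pi := by
    unfold Measure.real
    rw [Complex.volume_ball]
    simp
  rw [hdim, hvol]
  have h1 : ∀ y : ℝ, y ^ (2 - 1) • (Set.Iio (2 : ℝ)).indicator (fun r : ℝ => 1 / (r ^ 2 + δ ^ 2)) y
      = (Set.Iio (2 : ℝ)).indicator (fun r : ℝ => r / (r ^ 2 + δ ^ 2)) y := by
    intro y
    by_cases hy : y < 2
    · rw [Set.indicator_of_mem (by simpa using hy), Set.indicator_of_mem (by simpa using hy)]
      simp only [smul_eq_mul]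
      rw [show (2 - 1 : ℕ) = 1 from rfl, pow_one]
      ring
    · rw [Set.indicator_of_notMem (by simpa using hy), Set.indicator_of_notMem (by simpa using hy),
        smul_zero]
  simp_rw [h1]
  rw [setIntegral_indicator measurableSet_Iio]
  have h2 : Set.Ioi (0 : ℝ) ∩ Set.Iio 2 = Set.Ioo 0 2 := rfl
  rw [h2, ← integral_Ioc_eq_integral_Ioo, ← intervalIntegral.integral_of_le (by norm_num)]
  have hpos : ∀ r : ℝ, 0 < r ^ 2 + δ ^ 2 := fun r => by positivity
  have h3 : ∫ r in (0 : ℝ)..2, r / (r ^ 2 + δ ^ 2) =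
      (1 / 2) * Real.log (2 ^ 2 + δ ^ 2) - (1 / 2) * Real.log (0 ^ 2 + δ ^ 2) := by
    apply intervalIntegral.integral_eq_sub_of_hasDerivAt
      (f := fun r : ℝ => (1 / 2) * Real.log (r ^ 2 + δ ^ 2))
    · intro r _
      have h := (((hasDerivAt_pow 2 r).add_const (δ ^ 2)).log (hpos r).ne').const_mul (1 / 2)
      have hval : r / (r ^ 2 + δ ^ 2) =
          1 / 2 * (((2 : ℕ) : ℝ) * r ^ (2 - 1) / (r ^ 2 + δ ^ 2)) := by
        push_cast
        ring
      rw [hval]
      exact h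
    · apply ContinuousOn.intervalIntegrable
      exact (continuous_id.div (by fun_prop) (fun r => (hpos r).ne')).continuousOn
  rw [h3]
  have h4 : (1 : ℝ) + 4 / δ ^ 2 = (2 ^ 2 + δ ^ 2) / (0 ^ 2 + δ ^ 2) := by
    have : δ ≠ 0 := hδ.ne'
    field_simp
    ring
  rw [h4, Real.log_div (hpos 2).ne' (hpos 0).ne']
  simp only [nsmul_eq_mul, smul_eq_mul]
  push_cast
  ring

theorem int_inv {x δ : ℝ} (hδ : 0 < δ) :
    ∫⁻ z in ball (0 : ℂ) 1, ENNReal.ofReal (1 / (‖zz x z‖ ^ 2 + δ ^ 2)) ≤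
      ENNReal.ofReal (Real.pi * Real.log (1 + 4 / δ ^ 2)) := by
  have hee : ‖ee x‖ = 1 := by
    unfold ee
    rw [Complex.norm_exp_ofReal_mul_I]
  have hsub : ball (0 : ℂ) 1 ⊆ ball (ee x) 2 := by
    apply ball_subset_ball'
    rw [dist_zero_left, hee]
    norm_num
  have hpos : ∀ w : ℂ, 0 < ‖w‖ ^ 2 + δ ^ 2 := fun w => by positivity
  calc ∫⁻ z in ball (0 : ℂ) 1, ENNReal.ofReal (1 / (‖zz x z‖ ^ 2 + δ ^ 2))
      ≤ ∫⁻ z in ball (ee x) 2, ENNReal.ofReal (1 / (‖zz x z‖ ^ 2 + δ ^ 2)) :=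
        lintegral_mono_set hsub
    _ = ∫⁻ w in ball (0 : ℂ) 2, ENNReal.ofReal (1 / (‖w‖ ^ 2 + δ ^ 2)) := by
        simp_rw [norm_zz_eq_norm_sub]
        rw [← lintegral_indicator measurableSet_ball, ← lintegral_indicator measurableSet_ball,
          ← lintegral_sub_right_eq_self
            ((ball (0 : ℂ) 2).indicator fun w => ENNReal.ofReal (1 / (‖w‖ ^ 2 + δ ^ 2))) (ee x)]
        congr 1
        ext z
        by_cases hz : z ∈ ball (ee x) 2
        · have hz' : z - ee x ∈ ball (0 : ℂ) 2 := by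
            rw [mem_ball_zero_iff, ← dist_eq_norm]; exact hz
          rw [Set.indicator_of_mem hz, Set.indicator_of_mem hz']
        · have hz' : z - ee x ∉ ball (0 : ℂ) 2 := by
            rw [mem_ball_zero_iff, ← dist_eq_norm]; exact hz
          rw [Set.indicator_of_notMem hz, Set.indicator_of_notMem hz']
    _ = ENNReal.ofReal (∫ w in ball (0 : ℂ) 2, 1 / (‖w‖ ^ 2 + δ ^ 2)) := by
        rw [ofReal_integral_eq_lintegral_ofReal]
        · have hc : Continuous (fun w : ℂ => 1 / (‖w‖ ^ 2 + δ ^ 2)) :=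
            continuous_const.div (by fun_prop) (fun w => (hpos w).ne')
          exact (hc.continuousOn.integrableOn_compact
            (isCompact_closedBall (0 : ℂ) 2)).mono_set ball_subset_closedBall
        · exact Filter.Eventually.of_forall fun w => by
            have := hpos w
            positivity
    _ = ENNReal.ofReal (Real.pi * Real.log (1 + 4 / δ ^ 2)) := by rw [intInv_aux hδ]
    _ ≤ ENNReal.ofReal (Real.pi * Real.log (1 + 4 / δ ^ 2)) := le_refl _

end Pool.Agent.Lib.BrownShields
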