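import Pool.Agent.Lib.BrownShields.Defs
import Pool.Agent.Lib.BrownShields.Pos
import Pool.Agent.Lib.BrownShields.Spike
import Pool.Agent.Lib.BrownShields.IntInv

set_option autoImplicit false

namespace Pool.Agent.Lib.BrownShields

open Complex Finset MeasureTheory Metric

namespace Pair

theorem norm_zz_mul (x : ℝ) (z : ℂ) : ‖z * ee (-x)‖ = ‖z‖ := by
  rw [norm_mul, norm_ee, mul_one]

theorem zz_re_nonneg (x : ℝ) {z : ℂ} (hz : ‖z‖ ≤ 1) : 0 ≤ (zz x z).re := by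
  have h1 : (z * ee (-x)).re ≤ 1 := by
    refine le_trans (Complex.re_le_norm _) ?_
    rw [norm_zz_mul]
    exact hz
  unfold zz
  rw [Complex.sub_re, Complex.one_re]
  linarith

theorem continuous_zz (x : ℝ) : Continuous (zz x) := by
  unfold zz
  fun_prop

/-- Pythagoras type inequality for `Re ζ ≥ 0`. -/
theorem sq_add_sq_le {ζ : ℂ} (h : 0 ≤ ζ.re) {δ : ℝ} (hδ : 0 ≤ δ) :
    ‖ζ‖ ^ 2 + δ ^ 2 ≤ ‖ζ + (δ : ℂ)‖ ^ 2 := by
  rw [← Complex.normSq_eq_norm_sq, ← Complex.normSq_eq_norm_sq, Complex.normSq_apply,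
    Complex.normSq_apply]
  simp only [Complex.add_re, Complex.add_im, Complex.ofReal_re, Complex.ofReal_im]
  nlinarith [mul_nonneg h hδ]

theorem le_norm_add {ζ : ℂ} (h : 0 ≤ ζ.re) {δ : ℝ} (hδ : 0 ≤ δ) : δ ≤ ‖ζ + (δ : ℂ)‖ := by
  have h1 := sq_add_sq_le h hδ
  refine le_of_sq_le_sq ?_ (norm_nonneg _)
  nlinarith [sq_nonneg ‖ζ‖]

theorem norm_le_norm_add {ζ : ℂ} (h : 0 ≤ ζ.re) {δ : ℝ} (hδ : 0 ≤ δ) :
    ‖ζ‖ ≤ ‖ζ + (δ : ℂ)‖ := by
  have h1 := sq_add_sq_le h hδ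
  refine le_of_sq_le_sq ?_ (norm_nonneg _)
  nlinarith [sq_nonneg δ]

/-- the norm of the spike -/
theorem norm_spike_le {K L δ : ℝ} (hK : 0 ≤ K) (hL : 0 < L) (hδ : 0 < δ) {ζ : ℂ}
    (h : 0 ≤ ζ.re) :
    ‖spike K L δ ζ‖ ≤ ‖ζ + (δ : ℂ)‖ / ‖ζ + (L : ℂ)‖ *
      Real.exp (-(K * L * δ / ‖ζ + (δ : ℂ)‖ ^ 2)) := by
  have h1 : 0 < ‖ζ + (δ : ℂ)‖ := lt_of_lt_of_le hδ (le_norm_add h hδ.le)
  unfold spike
  rw [norm_mul, norm_div, Complex.norm_exp]
  refine mul_le_mul_of_nonneg_left ?_ (by positivity)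
  rw [Real.exp_le_exp]
  rw [neg_div, Complex.neg_re, neg_le_neg_iff]
  rw [Complex.div_re, Complex.ofReal_re, Complex.ofReal_im, zero_mul, zero_div, add_zero,
    Complex.add_re, Complex.ofReal_re, Complex.normSq_eq_norm_sq]
  refine div_le_div_of_nonneg_right ?_ (by positivity)
  nlinarith [mul_nonneg (mul_nonneg hK hL.le) h]

/-- near estimate -/
theorem norm_spike_near {L δ : ℝ} (hδ : 0 < δ) (hδL : δ ≤ L) {ζ : ℂ}
    (h : 0 ≤ ζ.re) (hn : ‖ζ‖ ≤ 2 * Real.pi * δ) :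
    ‖spike KK L δ ζ‖ ^ 2 ≤ Real.exp (-(1000 / 27) * (L / δ)) := by
  have hL : 0 < L := lt_of_lt_of_le hδ hδL
  have h1 : 0 < ‖ζ + (δ : ℂ)‖ := lt_of_lt_of_le hδ (le_norm_add h hδ.le)
  have hpi := Real.pi_lt_d2
  have hpi0 := Real.pi_pos
  have h2 : ‖ζ + (δ : ℂ)‖ ≤ 7.3 * δ := by
    refine le_trans (norm_add_le _ _) ?_
    rw [Complex.norm_real, Real.norm_of_nonneg hδ.le]
    nlinarith
  have h3 : ‖ζ + (δ : ℂ)‖ ^ 2 ≤ 54 * δ ^ 2 := by
    nlinarith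
  have h4 : ‖ζ + (δ : ℂ)‖ ≤ ‖ζ + (L : ℂ)‖ := by
    refine le_of_sq_le_sq ?_ (norm_nonneg _)
    rw [← Complex.normSq_eq_norm_sq, ← Complex.normSq_eq_norm_sq, Complex.normSq_apply,
      Complex.normSq_apply]
    simp only [Complex.add_re, Complex.add_im, Complex.ofReal_re, Complex.ofReal_im]
    nlinarith [mul_nonneg h (sub_nonneg.2 hδL)]
  have h5 : ‖spike KK L δ ζ‖ ≤ Real.exp (-(1000 / 54) * (L / δ)) := by
    refine le_trans (norm_spike_le (by unfold KK; norm_num) hL hδ h) ?_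
    have h6 : ‖ζ + (δ : ℂ)‖ / ‖ζ + (L : ℂ)‖ ≤ 1 := by
      rw [div_le_one (lt_of_lt_of_le h1 h4)]
      exact h4
    refine le_trans (mul_le_of_le_one_left (Real.exp_pos _).le h6) ?_
    rw [Real.exp_le_exp, neg_mul, neg_le_neg_iff]
    unfold KK
    rw [div_mul_div_comm, div_le_div_iff₀ (by positivity) (by positivity)]
    nlinarith [mul_le_mul_of_nonneg_left h3 (by positivity : 0 ≤ 1000 * L)]
  calc ‖spike KK L δ ζ‖ ^ 2 ≤ (Real.exp (-(1000 / 54) * (L / δ))) ^ 2 :=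
        pow_le_pow_left₀ (norm_nonneg _) h5 2
    _ = Real.exp (-(1000 / 27) * (L / δ)) := by
        rw [← Real.exp_nat_mul]
        congr 1
        push_cast
        ring

/-- far estimate of the parent -/
theorem norm_spike_far {L δ : ℝ} (hδ : 0 < δ) (hδL : δ ≤ L) {ζ : ℂ}
    (h : 0 ≤ ζ.re) (hn : δ ≤ ‖ζ‖) :
    ‖spike KK L δ ζ‖ ≤ 2 * ‖ζ‖ / L := by
  have hL : 0 < L := lt_of_lt_of_le hδ hδL
  refine le_trans (norm_spike_le (by unfold KK; norm_num) hL hδ h) ?_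
  have h1 : Real.exp (-(KK * L * δ / ‖ζ + (δ : ℂ)‖ ^ 2)) ≤ 1 := by
    rw [Real.exp_le_one_iff]
    unfold KK
    have : 0 ≤ 1000 * L * δ / ‖ζ + (δ : ℂ)‖ ^ 2 := by positivity
    linarith
  refine le_trans (mul_le_of_le_one_right (by positivity) h1) ?_
  have h2 : ‖ζ + (δ : ℂ)‖ ≤ 2 * ‖ζ‖ := by
    refine le_trans (norm_add_le _ _) ?_
    rw [Complex.norm_real, Real.norm_of_nonneg hδ.le]
    linarith
  exact div_le_div₀ (by positivity) h2 hL (le_norm_add h hL.le)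

/-- the pointwise bound -/
theorem pointwise {L δ L' δ' D : ℝ} (hδ : 0 < δ) (hL : 0 < L) (hδ' : 0 < δ') (hδL' : δ' ≤ L')
    {ζ ζ' : ℂ} (h : 0 ≤ ζ.re) (h' : 0 ≤ ζ'.re) (hζ : ‖ζ - ζ'‖ ≤ Real.pi * δ') (hD0 : 0 ≤ D)
    (hD : D ≤ 1001 * L / (‖ζ + (L : ℂ)‖ * ‖ζ + (δ : ℂ)‖)) :
    D ^ 2 * ‖spike KK L' δ' ζ'‖ ^ 2 ≤
      1001 ^ 2 * Real.exp (-(1000 / 27) * (L' / δ')) * (1 / (‖ζ‖ ^ 2 + δ ^ 2)) +
      1001 ^ 2 * 128 * (L / L') ^ 2 * (1 / (‖ζ'‖ ^ 2 + δ' ^ 2)) := by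
  have hL' : 0 < L' := lt_of_lt_of_le hδ' hδL'
  have hpi := Real.pi_gt_three
  have hA : 0 < ‖ζ + (L : ℂ)‖ := lt_of_lt_of_le hL (le_norm_add h hL.le)
  have hB : 0 < ‖ζ + (δ : ℂ)‖ := lt_of_lt_of_le hδ (le_norm_add h hδ.le)
  rcases le_total ‖ζ'‖ (2 * Real.pi * δ') with hn | hn
  · -- near
    have h1 : D ≤ 1001 / ‖ζ + (δ : ℂ)‖ := by
      refine le_trans hD ?_
      rw [div_le_div_iff₀ (by positivity) (by positivity)]
      have := le_norm_add h hL.le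
      nlinarith [mul_le_mul_of_nonneg_right this hB.le]
    have h2 : D ^ 2 ≤ 1001 ^ 2 * (1 / (‖ζ‖ ^ 2 + δ ^ 2)) := by
      calc D ^ 2 ≤ (1001 / ‖ζ + (δ : ℂ)‖) ^ 2 := pow_le_pow_left₀ hD0 h1 2
        _ = 1001 ^ 2 * (1 / ‖ζ + (δ : ℂ)‖ ^ 2) := by ring
        _ ≤ 1001 ^ 2 * (1 / (‖ζ‖ ^ 2 + δ ^ 2)) := by
            refine mul_le_mul_of_nonneg_left ?_ (by positivity)
            exact one_div_le_one_div_of_le (by positivity) (sq_add_sq_le h hδ.le)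
    have h3 := norm_spike_near hδ' hδL' h' hn
    calc D ^ 2 * ‖spike KK L' δ' ζ'‖ ^ 2 ≤
        (1001 ^ 2 * (1 / (‖ζ‖ ^ 2 + δ ^ 2))) * Real.exp (-(1000 / 27) * (L' / δ')) :=
          mul_le_mul h2 h3 (by positivity) (by positivity)
      _ = 1001 ^ 2 * Real.exp (-(1000 / 27) * (L' / δ')) * (1 / (‖ζ‖ ^ 2 + δ ^ 2)) := by ring
      _ ≤ _ := le_add_of_nonneg_right (by positivity)
  · -- far
    have hζ'0 : 0 < ‖ζ'‖ := lt_of_lt_of_le (by positivity) hn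
    have hd : δ' ≤ ‖ζ'‖ := by nlinarith
    have h0 : ‖ζ'‖ / 2 ≤ ‖ζ‖ := by
      have h1 : ‖ζ'‖ ≤ ‖ζ‖ + ‖ζ - ζ'‖ := by
        calc ‖ζ'‖ = ‖ζ - (ζ - ζ')‖ := by congr 1; ring
          _ ≤ _ := norm_sub_le _ _
      linarith
    have h1 : D ≤ 4 * 1001 * L / ‖ζ'‖ ^ 2 := by
      refine le_trans hD ?_
      have h2 : ‖ζ'‖ ^ 2 / 4 ≤ ‖ζ + (L : ℂ)‖ * ‖ζ + (δ : ℂ)‖ := by
        have h3 := norm_le_norm_add h hL.le
        have h4 := norm_le_norm_add h hδ.le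
        calc ‖ζ'‖ ^ 2 / 4 = (‖ζ'‖ / 2) * (‖ζ'‖ / 2) := by ring
          _ ≤ ‖ζ + (L : ℂ)‖ * ‖ζ + (δ : ℂ)‖ :=
            mul_le_mul (h0.trans h3) (h0.trans h4) (by positivity) (by positivity)
      calc 1001 * L / (‖ζ + (L : ℂ)‖ * ‖ζ + (δ : ℂ)‖) ≤ 1001 * L / (‖ζ'‖ ^ 2 / 4) :=
            div_le_div_of_nonneg_left (by positivity) (by positivity) h2
        _ = _ := by field_simp
    have h2 := norm_spike_far hδ' hδL' h' hd
    have h3 : D * ‖spike KK L' δ' ζ'‖ ≤ 8 * 1001 * (L / L') / ‖ζ'‖ := by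
      calc D * ‖spike KK L' δ' ζ'‖ ≤ (4 * 1001 * L / ‖ζ'‖ ^ 2) * (2 * ‖ζ'‖ / L') :=
            mul_le_mul h1 h2 (norm_nonneg _) (by positivity)
        _ = 8 * 1001 * (L / L') / ‖ζ'‖ := by
            field_simp
            ring
    calc D ^ 2 * ‖spike KK L' δ' ζ'‖ ^ 2 = (D * ‖spike KK L' δ' ζ'‖) ^ 2 := by ring
      _ ≤ (8 * 1001 * (L / L') / ‖ζ'‖) ^ 2 := pow_le_pow_left₀ (by positivity) h3 2
      _ = 1001 ^ 2 * 128 * (L / L') ^ 2 * (1 / (2 * ‖ζ'‖ ^ 2)) := by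
          field_simp
          ring
      _ ≤ 1001 ^ 2 * 128 * (L / L') ^ 2 * (1 / (‖ζ'‖ ^ 2 + δ' ^ 2)) := by
          refine mul_le_mul_of_nonneg_left ?_ (by positivity)
          refine one_div_le_one_div_of_le (by positivity) ?_
          nlinarith
      _ ≤ _ := le_add_of_nonneg_left (by positivity)

end Pair

theorem energy_pair {m : ℕ → ℕ} (hm : Par m) (i j : ℕ) (_hj : j < MM m (i + 1)) :
    ∫⁻ z in ball (0 : ℂ) 1, ENNReal.ofReal (‖deriv (uu m (i + 1) j) z‖ ^ 2 *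
      ‖uu m i (j / nn m i) z‖ ^ 2) ≤
      ENNReal.ofReal (1001 ^ 2 * Real.pi *
        (Real.exp (-(1000 / 27) * 2 ^ MM m i) * Real.log (1 + 4 / dd m (i + 1) ^ 2) +
          128 * (LL m (i + 1) / LL m i) ^ 2 * Real.log (1 + 4 / dd m i ^ 2))) := by
  set x := xx m (i + 1) j with hx
  set x' := xx m i (j / nn m i) with hx'
  set L := LL m (i + 1) with hL
  set L' := LL m i with hL'
  set δ := dd m (i + 1) with hδ
  set δ' := dd m i with hδ'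
  have hLpos : 0 < L := LL_pos m (i + 1)
  have hLpos' : 0 < L' := LL_pos m i
  have hδpos : 0 < δ := dd_pos m (i + 1)
  have hδpos' : 0 < δ' := dd_pos m i
  have hquot : L' / δ' = 2 ^ MM m i := by
    rw [div_eq_iff hδpos'.ne', hL', hδ', ← dd_eq m i]
    ring
  have hle' : δ' ≤ L' := by
    have h1 : (1 : ℝ) ≤ 2 ^ MM m i := one_le_pow₀ (by norm_num)
    rw [← hquot, le_div_iff₀ hδpos'] at h1
    linarith
  have hdist : ∀ z : ℂ, ‖z‖ ≤ 1 → ‖zz x z - zz x' z‖ ≤ Real.pi * δ' := by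
    intro z hz
    have h1 : zz x z - zz x' z = z * (ee (-x') - ee (-x)) := by
      unfold zz
      ring
    rw [h1, norm_mul]
    have h2 := ee_sub_le (-x') (-x)
    have h3 := xx_child hm i j
    have h4 : |(-x') - (-x)| ≤ δ' / 2 := by
      have : (-x') - (-x) = x - x' := by ring
      rw [this]
      linarith
    have hpi := Real.pi_pos
    calc ‖z‖ * ‖ee (-x') - ee (-x)‖ ≤ 1 * (2 * Real.pi * |(-x') - (-x)|) :=
          mul_le_mul hz h2 (norm_nonneg _) (by norm_num)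
      _ ≤ 1 * (2 * Real.pi * (δ' / 2)) := by gcongr
      _ = Real.pi * δ' := by ring
  have hlog : ∀ t : ℝ, 0 < t → 0 ≤ Real.log (1 + 4 / t ^ 2) := by
    intro t ht
    apply Real.log_nonneg
    have : 0 ≤ 4 / t ^ 2 := by positivity
    linarith
  have hmeas : ∀ (y t : ℝ), Measurable fun z : ℂ =>
      ENNReal.ofReal (1 / (‖zz y z‖ ^ 2 + t ^ 2)) := by
    intro y t
    apply ENNReal.measurable_ofReal.comp
    have h1 : Measurable fun z : ℂ => ‖zz y z‖ ^ 2 + t ^ 2 :=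
      (((Pair.continuous_zz y).norm.pow 2).add continuous_const).measurable
    exact measurable_const.div h1
  calc ∫⁻ z in ball (0 : ℂ) 1, ENNReal.ofReal (‖deriv (uu m (i + 1) j) z‖ ^ 2 *
      ‖uu m i (j / nn m i) z‖ ^ 2)
      ≤ ∫⁻ z in ball (0 : ℂ) 1,
        (ENNReal.ofReal (1001 ^ 2 * Real.exp (-(1000 / 27) * (L' / δ'))) *
          ENNReal.ofReal (1 / (‖zz x z‖ ^ 2 + δ ^ 2)) +
        ENNReal.ofReal (1001 ^ 2 * 128 * (L / L') ^ 2) *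
          ENNReal.ofReal (1 / (‖zz x' z‖ ^ 2 + δ' ^ 2))) := by
        refine setLIntegral_mono' measurableSet_ball fun z hz => ?_
        have hz1 : ‖z‖ ≤ 1 := by
          rw [mem_ball_zero_iff] at hz
          exact hz.le
        rw [← ENNReal.ofReal_mul (by positivity), ← ENNReal.ofReal_mul (by positivity),
          ← ENNReal.ofReal_add (by positivity) (by positivity)]
        refine ENNReal.ofReal_le_ofReal ?_
        exact Pair.pointwise hδpos hLpos hδpos' hle' (Pair.zz_re_nonneg x hz1)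
          (Pair.zz_re_nonneg x' hz1) (hdist z hz1) (norm_nonneg _)
          (norm_deriv_uu_le m (i + 1) j hz1)
    _ = ENNReal.ofReal (1001 ^ 2 * Real.exp (-(1000 / 27) * (L' / δ'))) *
          (∫⁻ z in ball (0 : ℂ) 1, ENNReal.ofReal (1 / (‖zz x z‖ ^ 2 + δ ^ 2))) +
        ENNReal.ofReal (1001 ^ 2 * 128 * (L / L') ^ 2) *
          (∫⁻ z in ball (0 : ℂ) 1, ENNReal.ofReal (1 / (‖zz x' z‖ ^ 2 + δ' ^ 2))) := by
        rw [lintegral_add_left ((hmeas x δ).const_mul _), lintegral_const_mul _ (hmeas x δ),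
          lintegral_const_mul _ (hmeas x' δ')]
    _ ≤ ENNReal.ofReal (1001 ^ 2 * Real.exp (-(1000 / 27) * (L' / δ'))) *
          ENNReal.ofReal (Real.pi * Real.log (1 + 4 / δ ^ 2)) +
        ENNReal.ofReal (1001 ^ 2 * 128 * (L / L') ^ 2) *
          ENNReal.ofReal (Real.pi * Real.log (1 + 4 / δ' ^ 2)) :=
        add_le_add (mul_le_mul_right (int_inv hδpos) _)
          (mul_le_mul_right (int_inv hδpos') _)
    _ = _ := by
        have h1 := hlog δ hδpos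
        have h2 := hlog δ' hδpos'
        have hpi := Real.pi_pos
        rw [← ENNReal.ofReal_mul (by positivity), ← ENNReal.ofReal_mul (by positivity),
          ← ENNReal.ofReal_add (by positivity) (by positivity), hquot]
        congr 1
        ring

end Pool.Agent.Lib.BrownShields
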