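import Pool.Agent.Lib.BrownShields.Defs
import Pool.Agent.Lib.BrownShields.Pos
import Pool.Agent.Lib.BrownShields.Spike
import Pool.Agent.Lib.BrownShields.Pair

/-! Brown-Shields counterexample: the total energy of `ff` is finite. -/

set_option autoImplicit false

namespace Pool.Agent.Lib.BrownShields

open Complex Finset MeasureTheory Metric

namespace Energy

/-- norm of the parent spike (`1` at level `0`) -/
noncomputable def parentNorm (m : ℕ → ℕ) : ℕ → ℕ → ℂ → ℝ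
  | 0, _, _ => 1
  | (i + 1), j, z => ‖uu m i (j / nn m i) z‖

theorem parentNorm_nonneg (m : ℕ → ℕ) (i j : ℕ) (z : ℂ) : 0 ≤ parentNorm m i j z := by
  cases i with
  | zero => simp [parentNorm]
  | succ i => simp [parentNorm]

theorem norm_prod_erase_le {ι : Type*} [DecidableEq ι] (s : Finset ι) (f : ι → ℂ)
    (hf : ∀ x ∈ s, ‖f x‖ ≤ 1) (a b : ι) (hb : b ∈ s) (hab : b ≠ a) :
    ‖∏ x ∈ s.erase a, f x‖ ≤ ‖f b‖ := by
  have hb' : b ∈ s.erase a := Finset.mem_erase.2 ⟨hab, hb⟩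
  rw [← Finset.mul_prod_erase _ _ hb', norm_mul]
  have h1 : ‖∏ x ∈ (s.erase a).erase b, f x‖ ≤ 1 := by
    rw [norm_prod]
    apply Finset.prod_le_one
    · intro i _; exact norm_nonneg _
    · intro i hi
      exact hf i (Finset.mem_of_mem_erase (Finset.mem_of_mem_erase hi))
  calc ‖f b‖ * ‖∏ x ∈ (s.erase a).erase b, f x‖ ≤ ‖f b‖ * 1 :=
        mul_le_mul_of_nonneg_left h1 (norm_nonneg _)
    _ = ‖f b‖ := mul_one _

theorem norm_prod_erase_le_one {ι : Type*} [DecidableEq ι] (s : Finset ι) (f : ι → ℂ)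
    (hf : ∀ x ∈ s, ‖f x‖ ≤ 1) (a : ι) :
    ‖∏ x ∈ s.erase a, f x‖ ≤ 1 := by
  rw [norm_prod]
  apply Finset.prod_le_one
  · intro i _; exact norm_nonneg _
  · intro i hi
    exact hf i (Finset.mem_of_mem_erase hi)

theorem GG_eq_sigma (m : ℕ → ℕ) (k : ℕ) :
    GG m k = fun z => ∏ p ∈ (range k).sigma (fun i => range (MM m i)), uu m p.1 p.2 z := by
  funext z
  simp only [GG, FF, Finset.prod_sigma]

theorem MM_pos' (m : ℕ → ℕ) (i : ℕ) : 0 < MM m i := by
  unfold MM; positivity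

theorem nn_pos' (m : ℕ → ℕ) (i : ℕ) : 0 < nn m i := by
  unfold nn; positivity

theorem norm_deriv_GG_le {m : ℕ → ℕ} (hm : Par m) (k : ℕ) {z : ℂ} (hz : ‖z‖ ≤ 1) :
    ‖deriv (GG m k) z‖ ≤
      ∑ i ∈ range k, ∑ j ∈ range (MM m i), ‖deriv (uu m i j) z‖ * parentNorm m i j z := by
  classical
  rw [GG_eq_sigma]
  have hd : ∀ p ∈ (range k).sigma (fun i => range (MM m i)),
      HasDerivAt (fun z => uu m p.1 p.2 z) (deriv (uu m p.1 p.2) z) z := by
    intro p _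
    exact (analyticAt_uu m p.1 p.2 hz).differentiableAt.hasDerivAt
  rw [(HasDerivAt.fun_finsetProd hd).deriv]
  refine (norm_sum_le _ _).trans ?_
  rw [Finset.sum_sigma]
  refine Finset.sum_le_sum fun i hi => Finset.sum_le_sum fun j hj => ?_
  rw [smul_eq_mul, norm_mul, mul_comm]
  refine mul_le_mul_of_nonneg_left ?_ (norm_nonneg _)
  have hle : ∀ x ∈ (range k).sigma (fun i => range (MM m i)), ‖uu m x.1 x.2 z‖ ≤ 1 :=
    fun x _ => norm_uu_le m x.1 x.2 hz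
  cases i with
  | zero => exact norm_prod_erase_le_one _ _ hle _
  | succ i =>
    have hb : (⟨i, j / nn m i⟩ : (_ : ℕ) × ℕ) ∈ (range k).sigma (fun i => range (MM m i)) := by
      rw [Finset.mem_sigma]
      refine ⟨Finset.mem_range.2 ?_, Finset.mem_range.2 ?_⟩
      · have := Finset.mem_range.1 hi
        simp only
        omega
      · have h1 := Finset.mem_range.1 hj
        rw [MM_succ hm] at h1
        exact Nat.div_lt_of_lt_mul (by rwa [mul_comm] at h1)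
    have hne : (⟨i, j / nn m i⟩ : (_ : ℕ) × ℕ) ≠ ⟨i + 1, j⟩ := by
      intro h
      have := (Sigma.mk.inj_iff.1 h).1
      omega
    have key := norm_prod_erase_le ((range k).sigma (fun i => range (MM m i)))
      (fun p : (_ : ℕ) × ℕ => uu m p.1 p.2 z) hle ⟨i + 1, j⟩ ⟨i, j / nn m i⟩ hb hne
    exact key

theorem sum_half_pow_le (k : ℕ) : ∑ i ∈ range k, ((1 : ℝ) / 2) ^ (i + 1) ≤ 1 := by
  have h : ∀ k : ℕ, ∑ i ∈ range k, ((1 : ℝ) / 2) ^ (i + 1) = 1 - (1 / 2) ^ k := by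
    intro k
    induction k with
    | zero => simp
    | succ k ih => rw [Finset.sum_range_succ, ih]; ring
  rw [h]
  have : (0 : ℝ) ≤ (1 / 2) ^ k := by positivity
  linarith

theorem sq_sum_le_weighted (k : ℕ) (a : ℕ → ℝ) :
    (∑ i ∈ range k, a i) ^ 2 ≤ ∑ i ∈ range k, 2 ^ (i + 1) * a i ^ 2 := by
  have h1 := Finset.sq_sum_div_le_sum_sq_div (range k) a (g := fun i => ((1 : ℝ) / 2) ^ (i + 1))
    (fun i _ => by positivity)
  have h2 : ∑ i ∈ range k, a i ^ 2 / ((1 : ℝ) / 2) ^ (i + 1) =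
      ∑ i ∈ range k, 2 ^ (i + 1) * a i ^ 2 := by
    refine Finset.sum_congr rfl fun i _ => ?_
    rw [one_div, inv_pow, div_inv_eq_mul, mul_comm]
  rw [h2] at h1
  rcases Nat.eq_zero_or_pos k with hk | hk
  · subst hk; simp
  · have h3 : 0 < ∑ i ∈ range k, ((1 : ℝ) / 2) ^ (i + 1) := by
      apply Finset.sum_pos
      · intro i _; positivity
      · exact ⟨0, Finset.mem_range.2 hk⟩
    have h4 := sum_half_pow_le k
    calc (∑ i ∈ range k, a i) ^ 2
        ≤ (∑ i ∈ range k, a i) ^ 2 / ∑ i ∈ range k, ((1 : ℝ) / 2) ^ (i + 1) := by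
          rw [le_div_iff₀ h3]
          exact mul_le_of_le_one_right (sq_nonneg _) h4
      _ ≤ _ := h1

theorem sq_norm_deriv_GG_le {m : ℕ → ℕ} (hm : Par m) (k : ℕ) {z : ℂ} (hz : ‖z‖ ≤ 1) :
    ‖deriv (GG m k) z‖ ^ 2 ≤
      ∑ i ∈ range k, ∑ j ∈ range (MM m i),
        2 ^ (i + 1) * (MM m i : ℝ) * (‖deriv (uu m i j) z‖ ^ 2 * parentNorm m i j z ^ 2) := by
  have h1 := norm_deriv_GG_le hm k hz
  have h2 : ‖deriv (GG m k) z‖ ^ 2 ≤
      (∑ i ∈ range k, ∑ j ∈ range (MM m i), ‖deriv (uu m i j) z‖ * parentNorm m i j z) ^ 2 :=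
    pow_le_pow_left₀ (norm_nonneg _) h1 2
  refine h2.trans ((sq_sum_le_weighted k _).trans ?_)
  refine Finset.sum_le_sum fun i _ => ?_
  have h3 := sq_sum_le_card_mul_sum_sq (s := range (MM m i))
    (f := fun j => ‖deriv (uu m i j) z‖ * parentNorm m i j z)
  rw [Finset.card_range] at h3
  rw [← Finset.mul_sum, mul_assoc]
  refine mul_le_mul_of_nonneg_left ?_ (by positivity)
  refine h3.trans (le_of_eq ?_)
  congr 1
  refine Finset.sum_congr rfl fun j _ => ?_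
  ring

/-- contribution of one spike -/
noncomputable def con (m : ℕ → ℕ) (i j : ℕ) (z : ℂ) : ENNReal :=
  ENNReal.ofReal (2 ^ (i + 1) * (MM m i : ℝ) * (‖deriv (uu m i j) z‖ ^ 2 * parentNorm m i j z ^ 2))

/-- contribution of level `i` -/
noncomputable def lev (m : ℕ → ℕ) (i : ℕ) (z : ℂ) : ENNReal :=
  ∑ j ∈ range (MM m i), con m i j z

theorem measurable_uu (m : ℕ → ℕ) (i j : ℕ) : Measurable (uu m i j) := by
  unfold uu spike zz
  fun_prop

theorem measurable_con (m : ℕ → ℕ) (i j : ℕ) : Measurable (con m i j) := by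
  unfold con
  apply ENNReal.measurable_ofReal.comp
  apply Measurable.const_mul
  apply Measurable.mul
  · exact (measurable_deriv (uu m i j)).norm.pow_const 2
  · apply Measurable.pow_const
    cases i with
    | zero => exact measurable_const
    | succ i => exact (measurable_uu m i (j / nn m i)).norm

theorem measurable_lev (m : ℕ → ℕ) (i : ℕ) : Measurable (lev m i) := by
  unfold lev
  apply Finset.measurable_sum
  intro j _
  exact measurable_con m i j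

theorem ofReal_sq_norm_deriv_GG_le {m : ℕ → ℕ} (hm : Par m) (k : ℕ) {z : ℂ} (hz : ‖z‖ ≤ 1) :
    ENNReal.ofReal (‖deriv (GG m k) z‖ ^ 2) ≤ ∑' i, lev m i z := by
  refine (ENNReal.ofReal_le_ofReal (sq_norm_deriv_GG_le hm k hz)).trans ?_
  rw [ENNReal.ofReal_sum_of_nonneg]
  · refine le_trans (le_of_eq ?_) (ENNReal.sum_le_tsum (range k))
    refine Finset.sum_congr rfl fun i _ => ?_
    unfold lev con
    rw [ENNReal.ofReal_sum_of_nonneg]
    intro j _
    positivity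
  · intro i _
    apply Finset.sum_nonneg
    intro j _
    positivity

theorem differentiableOn_GG (m : ℕ → ℕ) (k : ℕ) : DifferentiableOn ℂ (GG m k) (ball 0 1) := by
  rw [GG_eq_sigma]
  apply DifferentiableOn.fun_finsetProd
  intro p _ z hz
  have hz' : ‖z‖ ≤ 1 := (mem_ball_zero_iff.1 hz).le
  exact (analyticAt_uu m p.1 p.2 hz').differentiableAt.differentiableWithinAt

theorem ofReal_sq_norm_deriv_ff_le {m : ℕ → ℕ} (hm : Par m)
    (hG : TendstoLocallyUniformlyOn (fun k : ℕ => GG m k) (ff m) Filter.atTop (ball 0 1))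
    {z : ℂ} (hz : z ∈ ball (0 : ℂ) 1) :
    ENNReal.ofReal (‖deriv (ff m) z‖ ^ 2) ≤ ∑' i, lev m i z := by
  have h1 := hG.deriv (Filter.Eventually.of_forall (fun k => differentiableOn_GG m k))
    isOpen_ball
  have h2 : Filter.Tendsto (fun k => deriv (GG m k) z) Filter.atTop (nhds (deriv (ff m) z)) :=
    h1.tendsto_at hz
  have h3 : Filter.Tendsto (fun k => ENNReal.ofReal (‖deriv (GG m k) z‖ ^ 2)) Filter.atTop
      (nhds (ENNReal.ofReal (‖deriv (ff m) z‖ ^ 2))) :=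
    ENNReal.tendsto_ofReal (h2.norm.pow 2)
  have hz' : ‖z‖ ≤ 1 := (mem_ball_zero_iff.1 hz).le
  exact le_of_tendsto h3 (Filter.Eventually.of_forall (fun k => ofReal_sq_norm_deriv_GG_le hm k hz'))

theorem log_dd_le {m : ℕ → ℕ} (hm : Par m) (i : ℕ) :
    Real.log (1 + 4 / dd m i ^ 2) ≤ 9 * (MM m i : ℝ) := by
  set N := ll m i + MM m i with hN
  have hdd : dd m i = 1 / 2 ^ N := rfl
  have h1 : 1 + 4 / dd m i ^ 2 ≤ (2 : ℝ) ^ (2 * N + 3) := by
    rw [hdd]
    have h2 : (4 : ℝ) / (1 / 2 ^ N) ^ 2 = 2 ^ (2 * N + 2) := by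
      rw [div_pow, one_pow, div_div_eq_mul_div, div_one, ← pow_mul]
      ring
    rw [h2]
    have h3 : (1 : ℝ) ≤ 2 ^ (2 * N + 2) := one_le_pow₀ (by norm_num)
    have h4 : (2 : ℝ) ^ (2 * N + 3) = 2 ^ (2 * N + 2) + 2 ^ (2 * N + 2) := by ring
    rw [h4]
    linarith
  have hpos : 0 < 1 + 4 / dd m i ^ 2 := by
    have := dd_pos m i
    positivity
  have h5 : Real.log (1 + 4 / dd m i ^ 2) ≤ Real.log ((2 : ℝ) ^ (2 * N + 3)) :=
    Real.log_le_log hpos h1
  rw [Real.log_pow] at h5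
  have h6 : Real.log 2 ≤ 1 := by
    have := Real.log_two_lt_d9
    linarith
  have h7 : ((2 * N + 3 : ℕ) : ℝ) * Real.log 2 ≤ ((2 * N + 3 : ℕ) : ℝ) :=
    mul_le_of_le_one_right (by positivity) h6
  have h8 : 2 * N + 3 ≤ 9 * MM m i := by
    have h9 := ll_le hm i
    have h10 := m_lt_MM m i
    omega
  calc Real.log (1 + 4 / dd m i ^ 2) ≤ ((2 * N + 3 : ℕ) : ℝ) := h5.trans h7
    _ ≤ ((9 * MM m i : ℕ) : ℝ) := by exact_mod_cast h8
    _ = 9 * (MM m i : ℝ) := by push_cast; ring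

theorem term_one {m : ℕ → ℕ} (hm : Par m) (i : ℕ) :
    2 ^ (i + 2) * (MM m (i + 1) : ℝ) ^ 2 * (Real.exp (-(1000 / 27) * 2 ^ MM m i) *
      Real.log (1 + 4 / dd m (i + 1) ^ 2)) ≤ 9 * (1 / 2) ^ i := by
  have h1 := log_dd_le hm (i + 1)
  have ha := mul_le_m hm i
  have hM := m_lt_MM m i
  have hMM : MM m i < 2 ^ MM m i := Nat.lt_two_pow_self
  have h2 : (MM m (i + 1) : ℝ) = 2 ^ (m i + 2 ^ MM m i) := by
    have : MM m (i + 1) = 2 ^ (m i + 2 ^ MM m i) := by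
      unfold MM
      rw [hm.hs i]
    rw [this]
    push_cast
    rfl
  have hE : (0 : ℝ) < Real.exp (-(1000 / 27) * 2 ^ MM m i) := Real.exp_pos _
  have h3 : 2 ^ (i + 2) * (MM m (i + 1) : ℝ) ^ 2 * (Real.exp (-(1000 / 27) * 2 ^ MM m i) *
      Real.log (1 + 4 / dd m (i + 1) ^ 2)) ≤
      9 * ((2 ^ (i + 2) * (MM m (i + 1) : ℝ) ^ 3) * Real.exp (-(1000 / 27) * 2 ^ MM m i)) := by
    calc 2 ^ (i + 2) * (MM m (i + 1) : ℝ) ^ 2 * (Real.exp (-(1000 / 27) * 2 ^ MM m i) *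
      Real.log (1 + 4 / dd m (i + 1) ^ 2)) ≤
        2 ^ (i + 2) * (MM m (i + 1) : ℝ) ^ 2 * (Real.exp (-(1000 / 27) * 2 ^ MM m i) *
        (9 * (MM m (i + 1) : ℝ))) := by gcongr
      _ = _ := by ring
  refine h3.trans ?_
  have h4 : (2 : ℝ) ^ (i + 2) * (MM m (i + 1) : ℝ) ^ 3 ≤ Real.exp (7 * 2 ^ MM m i) := by
    rw [h2, ← pow_mul, ← pow_add]
    have h5 : i + 2 + (m i + 2 ^ MM m i) * 3 ≤ 7 * 2 ^ MM m i := by omega
    have h6 : (2 : ℝ) ^ (i + 2 + (m i + 2 ^ MM m i) * 3) ≤ 2 ^ (7 * 2 ^ MM m i) :=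
      pow_le_pow_right₀ (by norm_num) h5
    have h7 : (2 : ℝ) ≤ Real.exp 1 := by
      have := Real.add_one_le_exp 1
      linarith
    have h8 : (2 : ℝ) ^ (7 * 2 ^ MM m i) ≤ Real.exp 1 ^ (7 * 2 ^ MM m i) :=
      pow_le_pow_left₀ (by norm_num) h7 _
    have h9 : Real.exp 1 ^ (7 * 2 ^ MM m i) = Real.exp (7 * 2 ^ MM m i) := by
      rw [← Real.exp_nat_mul]
      congr 1
      push_cast
      ring
    exact (h6.trans h8).trans h9.le
  have h10 : (2 ^ (i + 2) * (MM m (i + 1) : ℝ) ^ 3) * Real.exp (-(1000 / 27) * 2 ^ MM m i) ≤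
      (1 / 2) ^ i := by
    calc (2 ^ (i + 2) * (MM m (i + 1) : ℝ) ^ 3) * Real.exp (-(1000 / 27) * 2 ^ MM m i)
        ≤ Real.exp (7 * 2 ^ MM m i) * Real.exp (-(1000 / 27) * 2 ^ MM m i) := by gcongr
      _ = Real.exp (7 * 2 ^ MM m i + -(1000 / 27) * 2 ^ MM m i) := (Real.exp_add _ _).symm
      _ ≤ Real.exp (-(i : ℝ)) := by
          apply Real.exp_le_exp.2
          have h11 : (i : ℝ) ≤ 2 ^ MM m i := by
            have : i ≤ 2 ^ MM m i := by omega
            exact_mod_cast this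
          have h12 : (0 : ℝ) < 2 ^ MM m i := by positivity
          nlinarith
      _ ≤ (1 / 2) ^ i := by
          have h7 : (2 : ℝ) ≤ Real.exp 1 := by
            have := Real.add_one_le_exp 1
            linarith
          have h13 : Real.exp (-(i : ℝ)) = (1 / Real.exp 1) ^ i := by
            rw [Real.exp_neg, one_div, inv_pow, ← Real.exp_nat_mul, mul_one]
          rw [h13]
          gcongr
  linarith

theorem term_two {m : ℕ → ℕ} (hm : Par m) (i : ℕ) :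
    2 ^ (i + 2) * (MM m (i + 1) : ℝ) ^ 2 * (128 * (LL m (i + 1) / LL m i) ^ 2 *
      Real.log (1 + 4 / dd m i ^ 2)) ≤ 1152 * (1 / 2) ^ i := by
  have h1 := log_dd_le hm i
  have ha := mul_le_m hm i
  have hL := LL_pos m i
  have hL' := LL_pos m (i + 1)
  have h2 : (MM m (i + 1) : ℝ) * (LL m (i + 1) / LL m i) = MM m i / 2 ^ MM m i := by
    have h3 := LL_succ m i
    have h4 := dd_eq m i
    have h5 : (MM m (i + 1) : ℝ) = MM m i * nn m i := by
      rw [MM_succ hm]; push_cast; ring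
    have hp : (0 : ℝ) < 2 ^ MM m i := by positivity
    rw [h5, ← mul_div_assoc, div_eq_div_iff hL.ne' hp.ne', ← h4, ← h3]
    ring
  have h6 : 2 ^ (i + 2) * (MM m (i + 1) : ℝ) ^ 2 * (128 * (LL m (i + 1) / LL m i) ^ 2 *
      Real.log (1 + 4 / dd m i ^ 2)) ≤
      1152 * (2 ^ (i + 2) * (MM m i : ℝ) ^ 3 / (2 ^ MM m i) ^ 2) := by
    calc 2 ^ (i + 2) * (MM m (i + 1) : ℝ) ^ 2 * (128 * (LL m (i + 1) / LL m i) ^ 2 *
        Real.log (1 + 4 / dd m i ^ 2))
        = 2 ^ (i + 2) * 128 * ((MM m (i + 1) : ℝ) * (LL m (i + 1) / LL m i)) ^ 2 *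
          Real.log (1 + 4 / dd m i ^ 2) := by ring
      _ ≤ 2 ^ (i + 2) * 128 * ((MM m (i + 1) : ℝ) * (LL m (i + 1) / LL m i)) ^ 2 *
          (9 * (MM m i : ℝ)) := by gcongr
      _ = _ := by rw [h2, div_pow]; ring
  refine h6.trans ?_
  have hM2 : 4 * m i ≤ MM m i := by
    unfold MM
    obtain ⟨b, hb⟩ : ∃ b, m i = b + 4 := ⟨m i - 4, by omega⟩
    rw [hb, pow_add]
    have : b < 2 ^ b := Nat.lt_two_pow_self
    omega
  have h7 : 2 ^ (i + 2) * (MM m i : ℝ) ^ 3 / (2 ^ MM m i) ^ 2 ≤ (1 / 2) ^ i := by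
    have h8 : (MM m i : ℝ) = 2 ^ m i := by
      have : MM m i = 2 ^ m i := rfl
      rw [this]
      push_cast
      rfl
    rw [one_div, inv_pow, div_le_iff₀ (by positivity), ← div_eq_inv_mul,
      le_div_iff₀ (by positivity), h8, ← pow_mul, ← pow_mul, ← pow_add, ← pow_add]
    apply pow_le_pow_right₀ (by norm_num)
    have h9 : MM m i = 2 ^ m i := rfl
    omega
  linarith

theorem level_bound {m : ℕ → ℕ} (hm : Par m) (i : ℕ) :
    2 ^ (i + 1 + 1) * (MM m (i + 1) : ℝ) * ((MM m (i + 1) : ℝ) *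
      (1001 ^ 2 * Real.pi *
        (Real.exp (-(1000 / 27) * 2 ^ MM m i) * Real.log (1 + 4 / dd m (i + 1) ^ 2) +
          128 * (LL m (i + 1) / LL m i) ^ 2 * Real.log (1 + 4 / dd m i ^ 2)))) ≤
      1001 ^ 2 * Real.pi * 1161 * (1 / 2) ^ i := by
  have h1 := term_one hm i
  have h2 := term_two hm i
  have hpi := Real.pi_pos
  calc 2 ^ (i + 1 + 1) * (MM m (i + 1) : ℝ) * ((MM m (i + 1) : ℝ) *
      (1001 ^ 2 * Real.pi *
        (Real.exp (-(1000 / 27) * 2 ^ MM m i) * Real.log (1 + 4 / dd m (i + 1) ^ 2) +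
          128 * (LL m (i + 1) / LL m i) ^ 2 * Real.log (1 + 4 / dd m i ^ 2))))
      = 1001 ^ 2 * Real.pi * (2 ^ (i + 2) * (MM m (i + 1) : ℝ) ^ 2 *
        (Real.exp (-(1000 / 27) * 2 ^ MM m i) * Real.log (1 + 4 / dd m (i + 1) ^ 2)) +
        2 ^ (i + 2) * (MM m (i + 1) : ℝ) ^ 2 * (128 * (LL m (i + 1) / LL m i) ^ 2 *
          Real.log (1 + 4 / dd m i ^ 2))) := by ring
    _ ≤ 1001 ^ 2 * Real.pi * (9 * (1 / 2) ^ i + 1152 * (1 / 2) ^ i) := by gcongr
    _ = _ := by ring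

theorem lintegral_lev_succ {m : ℕ → ℕ} (hm : Par m) (i : ℕ) :
    ∫⁻ z in ball (0 : ℂ) 1, lev m (i + 1) z ≤
      ENNReal.ofReal (1001 ^ 2 * Real.pi * 1161 * (1 / 2) ^ i) := by
  set B := (1001 ^ 2 * Real.pi *
        (Real.exp (-(1000 / 27) * 2 ^ MM m i) * Real.log (1 + 4 / dd m (i + 1) ^ 2) +
          128 * (LL m (i + 1) / LL m i) ^ 2 * Real.log (1 + 4 / dd m i ^ 2))) with hB
  have hcon : ∀ j ∈ range (MM m (i + 1)), ∫⁻ z in ball (0 : ℂ) 1, con m (i + 1) j z ≤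
      ENNReal.ofReal (2 ^ (i + 1 + 1) * (MM m (i + 1) : ℝ)) * ENNReal.ofReal B := by
    intro j hj
    have h1 : ∀ z, con m (i + 1) j z = ENNReal.ofReal (2 ^ (i + 1 + 1) * (MM m (i + 1) : ℝ)) *
        ENNReal.ofReal (‖deriv (uu m (i + 1) j) z‖ ^ 2 * ‖uu m i (j / nn m i) z‖ ^ 2) := by
      intro z
      unfold con
      rw [ENNReal.ofReal_mul (by positivity)]
      rfl
    simp_rw [h1]
    rw [lintegral_const_mul']
    · gcongr
      exact energy_pair hm i j (Finset.mem_range.1 hj)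
    · exact ENNReal.ofReal_ne_top
  unfold lev
  rw [lintegral_finsetSum _ (fun j _ => measurable_con m (i + 1) j)]
  refine (Finset.sum_le_sum hcon).trans ?_
  rw [Finset.sum_const, Finset.card_range, nsmul_eq_mul]
  have hBnn : 0 ≤ B := by
    have h1 : 0 ≤ Real.log (1 + 4 / dd m (i + 1) ^ 2) := by
      apply Real.log_nonneg
      have := dd_pos m (i + 1)
      have : 0 ≤ 4 / dd m (i + 1) ^ 2 := by positivity
      linarith
    have h2 : 0 ≤ Real.log (1 + 4 / dd m i ^ 2) := by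
      apply Real.log_nonneg
      have := dd_pos m i
      have : 0 ≤ 4 / dd m i ^ 2 := by positivity
      linarith
    have := Real.pi_pos
    positivity
  have h3 : ((MM m (i + 1) : ℕ) : ENNReal) = ENNReal.ofReal (MM m (i + 1) : ℝ) := by
    rw [ENNReal.ofReal_natCast]
  rw [h3, ← ENNReal.ofReal_mul (by positivity), ← ENNReal.ofReal_mul (by positivity)]
  apply ENNReal.ofReal_le_ofReal
  refine le_trans (le_of_eq ?_) (level_bound hm i)
  rw [← hB]
  ring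

theorem le_norm_add_of_re_nonneg {ζ : ℂ} (hζ : 0 ≤ ζ.re) (L : ℝ) :
    L ≤ ‖ζ + (L : ℂ)‖ := by
  refine le_trans ?_ (Complex.re_le_norm _)
  simp [hζ]

theorem re_zz_nonneg (x : ℝ) {z : ℂ} (hz : ‖z‖ ≤ 1) : 0 ≤ (zz x z).re := by
  unfold zz
  have h1 : (z * ee (-x)).re ≤ 1 := by
    refine (Complex.re_le_norm _).trans ?_
    rw [norm_mul, norm_ee, mul_one]
    exact hz
  simp only [Complex.sub_re, Complex.one_re]
  linarith

theorem lintegral_lev_zero {m : ℕ → ℕ} :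
    ∫⁻ z in ball (0 : ℂ) 1, lev m 0 z < ⊤ := by
  unfold lev
  rw [lintegral_finsetSum _ (fun j _ => measurable_con m 0 j)]
  rw [ENNReal.sum_lt_top]
  intro j _
  have h1 : ∀ z ∈ ball (0 : ℂ) 1, con m 0 j z ≤
      ENNReal.ofReal (2 ^ (0 + 1) * (MM m 0 : ℝ) * ((1001 / dd m 0) ^ 2 * 1 ^ 2)) := by
    intro z hz
    have hz' : ‖z‖ ≤ 1 := (mem_ball_zero_iff.1 hz).le
    unfold con
    apply ENNReal.ofReal_le_ofReal
    have hd := norm_deriv_uu_le m 0 j hz'
    have hL := LL_pos m 0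
    have hδ := dd_pos m 0
    have hre := re_zz_nonneg (xx m 0 j) hz'
    have h2 := le_norm_add_of_re_nonneg hre (LL m 0)
    have h3 := le_norm_add_of_re_nonneg hre (dd m 0)
    have h4 : ‖deriv (uu m 0 j) z‖ ≤ 1001 / dd m 0 := by
      refine hd.trans ?_
      rw [div_le_div_iff₀ (mul_pos (lt_of_lt_of_le hL h2) (lt_of_lt_of_le hδ h3)) hδ]
      have h5 : LL m 0 * dd m 0 ≤ ‖zz (xx m 0 j) z + (LL m 0 : ℂ)‖ *
        ‖zz (xx m 0 j) z + (dd m 0 : ℂ)‖ := by gcongr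
      nlinarith
    have h6 : parentNorm m 0 j z = 1 := rfl
    rw [h6]
    gcongr
  refine lt_of_le_of_lt (setLIntegral_mono measurable_const h1) ?_
  rw [setLIntegral_const]
  exact ENNReal.mul_lt_top ENNReal.ofReal_lt_top measure_ball_lt_top

end Energy

open Energy in
/-- the total energy is finite, given the convergence of `GG m k` (proved in `Conv.lean`) -/
theorem energy_total_of {m : ℕ → ℕ} (hm : Par m)
    (hG : TendstoLocallyUniformlyOn (fun k : ℕ => GG m k) (ff m) Filter.atTop (ball 0 1)) :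
    ∫⁻ z in ball (0 : ℂ) 1, ENNReal.ofReal (‖deriv (ff m) z‖ ^ 2) < ⊤ := by
  have h1 : ∫⁻ z in ball (0 : ℂ) 1, ENNReal.ofReal (‖deriv (ff m) z‖ ^ 2) ≤
      ∫⁻ z in ball (0 : ℂ) 1, ∑' i, lev m i z :=
    setLIntegral_mono' measurableSet_ball (fun z hz => ofReal_sq_norm_deriv_ff_le hm hG hz)
  refine lt_of_le_of_lt h1 ?_
  rw [lintegral_tsum (fun i => (measurable_lev m i).aemeasurable)]
  rw [tsum_eq_zero_add' ENNReal.summable]
  rw [ENNReal.add_lt_top]
  refine ⟨lintegral_lev_zero, ?_⟩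
  refine lt_of_le_of_lt (ENNReal.tsum_le_tsum (fun i => lintegral_lev_succ hm i)) ?_
  apply Summable.tsum_ofReal_lt_top
  apply Summable.mul_left
  exact summable_geometric_of_lt_one (by norm_num) (by norm_num)

end Pool.Agent.Lib.BrownShields
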