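import Pool.Agent.Lib.BrownShields.Glue
import Pool.Agent.Lib.BrownShields.Area

set_option autoImplicit false

namespace Pool.Agent.Lib.BrownShields

open Complex Finset MeasureTheory Metric Filter Topology

theorem exists_par : ∃ m : ℕ → ℕ, Par m :=
  ⟨fun i => Nat.rec 1000 (fun _ t => t + 2 ^ (2 ^ t)) i, ⟨rfl, fun _ => rfl⟩⟩

theorem differentiableOn_GG (m : ℕ → ℕ) (k : ℕ) : DifferentiableOn ℂ (GG m k) (ball 0 1) := by
  unfold GG FF
  apply DifferentiableOn.fun_finsetProd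
  intro i _
  apply DifferentiableOn.fun_finsetProd
  intro j _ z hz
  have hz' : ‖z‖ ≤ 1 := by
    rw [mem_ball_zero_iff] at hz; exact hz.le
  exact (analyticAt_uu m i j hz').differentiableAt.differentiableWithinAt

theorem differentiableOn_ff {m : ℕ → ℕ} (hm : Par m) : DifferentiableOn ℂ (ff m) (ball 0 1) :=
  (GG_tendsto hm).differentiableOn (Eventually.of_forall (differentiableOn_GG m)) isOpen_ball

/-- Taylor coefficients of `ff` -/
noncomputable def coef (m : ℕ → ℕ) (n : ℕ) : ℂ :=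
  ((n.factorial : ℂ))⁻¹ * iteratedDeriv n (ff m) 0

theorem hasSum_coef {m : ℕ → ℕ} (hm : Par m) (z : ℂ) (hz : z ∈ ball (0 : ℂ) 1) :
    HasSum (fun n => coef m n * z ^ n) (ff m z) := by
  have h := Complex.hasSum_taylorSeries_on_ball (differentiableOn_ff hm) hz
  have e : (fun n => coef m n * z ^ n) = (fun n : ℕ ↦ ((n.factorial : ℂ))⁻¹ • (z - 0) ^ n •
      iteratedDeriv n (ff m) 0) := by
    funext n
    simp only [coef, smul_eq_mul, sub_zero]
    ring
  rw [e]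
  exact h

theorem summable_coef {m : ℕ → ℕ} (hm : Par m) :
    Summable (fun n : ℕ => (n : ℝ) * ‖coef m n‖ ^ 2) := by
  have h1 := area_parseval (hasSum_coef hm)
  have h2 := energy_total hm
  rw [h1] at h2
  have h3 : ∑' n : ℕ, ENNReal.ofReal ((n : ℝ) * ‖coef m n‖ ^ 2) ≠ ⊤ := by
    intro h
    rw [h, ENNReal.mul_top] at h2
    · exact lt_irrefl _ h2
    · simp [Real.pi_pos]
  have h4 : Summable (fun n : ℕ => (ENNReal.ofReal ((n : ℝ) * ‖coef m n‖ ^ 2)).toReal) :=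
    ENNReal.summable_toReal h3
  refine h4.congr (fun n => ?_)
  rw [ENNReal.toReal_ofReal (by positivity)]

theorem coef_zero {m : ℕ → ℕ} : coef m 0 = ff m 0 := by
  simp [coef]

/-- the tsum of the frozen statement is `ff` near the boundary -/
theorem tsum_eq {m : ℕ → ℕ} (hm : Par m) (θ : ℝ) :
    (fun r : ℝ => ∑' n : ℕ, coef m n * ((r : ℂ) * Complex.exp ((θ : ℂ) * Complex.I)) ^ n)
      =ᶠ[nhdsWithin 1 (Set.Iio 1)]
      (fun r : ℝ => ff m ((r : ℂ) * ee (θ / (2 * Real.pi)))) := by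
  have h1 : ∀ᶠ r : ℝ in nhdsWithin 1 (Set.Iio 1), r ∈ Set.Ioo (0 : ℝ) 1 :=
    Ioo_mem_nhdsLT (by norm_num)
  filter_upwards [h1] with r hr
  rw [ee_eq_exp]
  apply (hasSum_coef hm _ _).tsum_eq
  rw [mem_ball_zero_iff, norm_mul, Complex.norm_exp_ofReal_mul_I, mul_one, Complex.norm_real,
    Real.norm_eq_abs, abs_of_pos hr.1]
  exact hr.2

theorem outer_part {m : ℕ → ℕ} (hm : Par m) :
    ∃ F : ℝ → ℂ,
      (∀ᵐ θ : ℝ, Filter.Tendsto
        (fun r : ℝ => ∑' n : ℕ, coef m n * ((r : ℂ) * Complex.exp ((θ : ℂ) * Complex.I)) ^ n)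
        (nhdsWithin 1 (Set.Iio 1)) (nhds (F θ))) ∧
      Real.log ‖coef m 0‖ =
        (1 / (2 * Real.pi)) * ∫ θ in (0 : ℝ)..(2 * Real.pi), Real.log ‖F θ‖ := by
  have key : ∀ θ : ℝ, ∃ c : ℂ, (∃ i, Complex.exp ((θ : ℂ) * Complex.I) ∉ UU m i) →
      (c ≠ 0 ∧ Tendsto (fun r : ℝ => ff m ((r : ℂ) * ee (θ / (2 * Real.pi))))
        (nhdsWithin 1 (Set.Iio 1)) (nhds c) ∧
      Tendsto (fun k : ℕ => GG m k (Complex.exp ((θ : ℂ) * Complex.I))) atTop (nhds c)) := by
    intro θ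
    by_cases h : ∃ i, Complex.exp ((θ : ℂ) * Complex.I) ∉ UU m i
    · obtain ⟨i, hi⟩ := h
      rw [← ee_eq_exp] at hi
      obtain ⟨c, h1, h2, h3⟩ := radial hm i (θ / (2 * Real.pi)) hi
      rw [ee_eq_exp] at h3
      exact ⟨c, fun _ => ⟨h1, h2, h3⟩⟩
    · exact ⟨0, fun h' => absurd h' h⟩
  choose F hF using key
  refine ⟨F, ?_, ?_⟩
  · filter_upwards [ae_notin hm] with θ hθ
    exact (tendsto_congr' (tsum_eq hm θ)).mpr (hF θ hθ).2.1
  · rw [coef_zero]
    apply jensen hm F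
    filter_upwards [ae_notin hm] with θ hθ
    exact ⟨(hF θ hθ).2.2, (hF θ hθ).1⟩

theorem isOpen_UU (m : ℕ → ℕ) (i : ℕ) : IsOpen (UU m i) := by
  unfold UU
  exact isOpen_biUnion (fun _ _ => isOpen_ball)

theorem capacity_part {m : ℕ → ℕ} (hm : Par m) (M : ℕ) : ∃ U : Set ℂ, IsOpen U ∧
      {z : ℂ | ∃ θ : ℝ, z = Complex.exp ((θ : ℂ) * Complex.I) ∧
        Filter.Tendsto
          (fun r : ℝ => ∑' n : ℕ, coef m n * ((r : ℂ) * Complex.exp ((θ : ℂ) * Complex.I)) ^ n)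
          (nhdsWithin 1 (Set.Iio 1)) (nhds 0)} ⊆ U ∧
      ∀ K : Set ℂ, IsCompact K → K ⊆ U ∩ Metric.sphere (0 : ℂ) 1 →
        ∀ μ : MeasureTheory.Measure ℂ, MeasureTheory.IsProbabilityMeasure μ → μ Kᶜ = 0 →
          (M : ENNReal) ≤ ∫⁻ z, ∫⁻ w,
            (if z = w then (⊤ : ENNReal) else ENNReal.ofReal (Real.log (2 / ‖z - w‖))) ∂μ ∂μ := by
  refine ⟨UU m (2 * M), isOpen_UU m _, ?_, ?_⟩
  · rintro z ⟨θ, rfl, hz⟩
    by_contra hcon
    rw [← ee_eq_exp] at hcon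
    obtain ⟨c, h1, h2, _⟩ := radial hm (2 * M) (θ / (2 * Real.pi)) hcon
    have h3 := (tendsto_congr' (tsum_eq hm θ)).mp hz
    exact h1 (tendsto_nhds_unique h2 h3)
  · intro K hK hKU μ hμ hμK
    refine le_trans ?_ (capacity hm (2 * M) K hK hKU μ hμK)
    rw [← ENNReal.ofReal_natCast]
    apply ENNReal.ofReal_le_ofReal
    push_cast
    linarith

/-- product with a polynomial -/
theorem hasSum_poly_mul {m : ℕ → ℕ} (hm : Par m) (p : Polynomial ℂ) (z : ℂ)
    (hz : z ∈ ball (0 : ℂ) 1) :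
    HasSum (fun n => (∑ k ∈ Finset.range (n + 1), p.coeff k * coef m (n - k)) * z ^ n)
      (p.eval z * ff m z) := by
  have h1 := hasSum_coef hm z hz
  have h2 : HasSum (fun n => p.coeff n * z ^ n) (p.eval z) := by
    rw [Polynomial.eval_eq_sum_range]
    apply hasSum_sum_of_ne_finset_zero
    intro n hn
    rw [Finset.mem_range, not_lt] at hn
    rw [Polynomial.coeff_eq_zero_of_natDegree_lt (by omega), zero_mul]
  have h1n : Summable (fun n => ‖coef m n * z ^ n‖) := by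
    rw [summable_norm_iff]; exact h1.summable
  have h2n : Summable (fun n => ‖p.coeff n * z ^ n‖) := by
    rw [summable_norm_iff]; exact h2.summable
  have h3 := hasSum_sum_range_mul_of_summable_norm h2n h1n
  rw [h2.tsum_eq, h1.tsum_eq] at h3
  have e : (fun n => (∑ k ∈ Finset.range (n + 1), p.coeff k * coef m (n - k)) * z ^ n) =
      (fun n => ∑ k ∈ Finset.range (n + 1),
        p.coeff k * z ^ k * (coef m (n - k) * z ^ (n - k))) := by
    funext n
    rw [Finset.sum_mul]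
    apply Finset.sum_congr rfl
    intro k hk
    rw [Finset.mem_range] at hk
    have h4 : z ^ n = z ^ k * z ^ (n - k) := by rw [← pow_add]; congr 1; omega
    rw [h4]
    ring
  rw [e]
  exact h3

theorem final_contra {m : ℕ → ℕ} (hm : Par m) (p : Polynomial ℂ)
    (hs : Summable (fun n : ℕ => ((n : ℝ) + 1) *
        ‖(∑ k ∈ Finset.range (n + 1), p.coeff k * coef m (n - k)) -
          (if n = 0 then (1 : ℂ) else 0)‖ ^ 2))
    (ht : ∑' n : ℕ, ((n : ℝ) + 1) *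
        ‖(∑ k ∈ Finset.range (n + 1), p.coeff k * coef m (n - k)) -
          (if n = 0 then (1 : ℂ) else 0)‖ ^ 2 < 1 / 4) : False := by
  set c : ℕ → ℂ := fun n => ∑ k ∈ Finset.range (n + 1), p.coeff k * coef m (n - k) with hc
  set φ : ℂ → ℂ := fun z => p.eval z * ff m z with hφdef
  set t : ℕ → ℝ := fun n => ((n : ℝ) + 1) * ‖c n - (if n = 0 then (1 : ℂ) else 0)‖ ^ 2 with htdef
  have hs' : Summable t := hs
  have ht' : ∑' n, t n < 1 / 4 := ht
  have htn : ∀ n, 0 ≤ t n := fun n => by positivity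
  have hφ : ∀ z ∈ ball (0 : ℂ) 1, HasSum (fun n => c n * z ^ n) (φ z) :=
    fun z hz => hasSum_poly_mul hm p z hz
  have hc0 : ‖c 0 - 1‖ < 1 / 2 := by
    have h1 : t 0 ≤ ∑' n, t n := hs'.le_tsum 0 (fun j _ => htn j)
    have h2 : t 0 = ‖c 0 - 1‖ ^ 2 := by simp [htdef]
    nlinarith [norm_nonneg (c 0 - 1)]
  have hφ0 : φ 0 = c 0 := by
    have h1 := hφ 0 (by simp)
    have h2 : HasSum (fun n => c n * (0 : ℂ) ^ n) (c 0) := by
      convert hasSum_single 0 _ using 1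
      · simp
      · intro n hn
        simp [hn]
    exact h1.unique h2
  have hnorm0 : 1 / 2 < ‖φ 0‖ := by
    rw [hφ0]
    have h1 : ‖(1 : ℂ)‖ ≤ ‖c 0‖ + ‖c 0 - 1‖ := by
      calc ‖(1 : ℂ)‖ = ‖c 0 - (c 0 - 1)‖ := by congr 1; ring
        _ ≤ _ := norm_sub_le _ _
    rw [norm_one] at h1
    linarith
  have hle : ∀ n : ℕ, (n : ℝ) * ‖c n‖ ^ 2 ≤ t n := by
    intro n
    rcases Nat.eq_zero_or_pos n with rfl | hn
    · simpa using htn 0
    · have h0 : n ≠ 0 := by omega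
      simp only [htdef, h0, if_false, sub_zero]
      have : (0 : ℝ) ≤ ‖c n‖ ^ 2 := by positivity
      nlinarith
  have hD : ∫⁻ z in ball (0 : ℂ) 1, ENNReal.ofReal (‖deriv φ z‖ ^ 2) ≤
      ENNReal.ofReal Real.pi := by
    rw [area_parseval hφ]
    have h1 : ∑' n : ℕ, ENNReal.ofReal ((n : ℝ) * ‖c n‖ ^ 2) ≤ ENNReal.ofReal 1 := by
      calc ∑' n : ℕ, ENNReal.ofReal ((n : ℝ) * ‖c n‖ ^ 2) ≤ ∑' n : ℕ, ENNReal.ofReal (t n) :=
            ENNReal.tsum_le_tsum (fun n => ENNReal.ofReal_le_ofReal (hle n))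
        _ = ENNReal.ofReal (∑' n, t n) := (ENNReal.ofReal_tsum_of_nonneg htn hs').symm
        _ ≤ ENNReal.ofReal 1 := ENNReal.ofReal_le_ofReal (by linarith)
    calc _ ≤ ENNReal.ofReal Real.pi * ENNReal.ofReal 1 := by gcongr
      _ = _ := by simp
  have hle2 : ∀ n : ℕ, ((n : ℝ) + 1) * ‖c n‖ ^ 2 ≤ t n + (if n = 0 then (2 : ℝ) else 0) := by
    intro n
    rcases Nat.eq_zero_or_pos n with rfl | hn
    · simp only [htdef, if_true, Nat.cast_zero, zero_add, one_mul]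
      have h1 : ‖c 0‖ ≤ 3 / 2 := by
        have h2 : ‖c 0‖ ≤ ‖c 0 - 1‖ + ‖(1 : ℂ)‖ := by
          calc ‖c 0‖ = ‖(c 0 - 1) + 1‖ := by congr 1; ring
            _ ≤ _ := norm_add_le _ _
        rw [norm_one] at h2
        linarith
      have h3 : ‖c 0‖ ≤ ‖c 0 - 1‖ + 1 := by
        calc ‖c 0‖ = ‖(c 0 - 1) + 1‖ := by congr 1; ring
          _ ≤ ‖c 0 - 1‖ + ‖(1 : ℂ)‖ := norm_add_le _ _
          _ = _ := by rw [norm_one]
      nlinarith [norm_nonneg (c 0), norm_nonneg (c 0 - 1)]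
    · have h0 : n ≠ 0 := by omega
      simp only [htdef, h0, if_false, sub_zero, add_zero]
      exact le_rfl
  have hs2 : Summable (fun n : ℕ => ((n : ℝ) + 1) * ‖c n‖ ^ 2) := by
    apply Summable.of_nonneg_of_le (fun n => by positivity) hle2
    apply hs'.add
    apply summable_of_ne_finset_zero (s := {0})
    intro n hn
    simp only [Finset.mem_singleton] at hn
    simp [hn]
  have hs3 : ∑' n : ℕ, ((n : ℝ) + 1) * ‖c n‖ ^ 2 ≤ 2 ^ 2 := by
    have hi : Summable (fun n : ℕ => if n = 0 then (2 : ℝ) else 0) := by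
      apply summable_of_ne_finset_zero (s := {0})
      intro n hn
      simp only [Finset.mem_singleton] at hn
      simp [hn]
    have hi2 : ∑' n : ℕ, (if n = 0 then (2 : ℝ) else 0) = 2 := by
      rw [tsum_ite_eq]
    calc ∑' n : ℕ, ((n : ℝ) + 1) * ‖c n‖ ^ 2
        ≤ ∑' n : ℕ, (t n + (if n = 0 then (2 : ℝ) else 0)) :=
          hs2.tsum_le_tsum hle2 (hs'.add hi)
      _ = ∑' n, t n + 2 := by rw [hs'.tsum_add hi, hi2]
      _ ≤ 2 ^ 2 := by linarith
  have hgrow : ∀ (t : ℝ) (z : ℂ), 0 < t → t ≤ 1 → ‖z‖ ≤ 1 - t →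
      ‖φ z‖ ≤ 2 * Real.sqrt (1 + Real.log (1 / t)) :=
    fun t z h0 h1 hz => growth hφ (by norm_num) hs2 hs3 h0 h1 hz
  have hdiff : DifferentiableOn ℂ φ (ball 0 1) :=
    p.differentiable.differentiableOn.mul (differentiableOn_ff hm)
  -- bound of the polynomial
  obtain ⟨C, hC⟩ : ∃ C : ℝ, ∀ z : ℂ, ‖z‖ ≤ 1 → ‖p.eval z‖ ≤ C := by
    have h1 : IsCompact (closedBall (0 : ℂ) 1) := isCompact_closedBall 0 1
    obtain ⟨C, hC⟩ := h1.exists_bound_of_continuousOn (f := fun z => p.eval z)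
      p.continuous.continuousOn
    exact ⟨C, fun z hz => hC z (by simpa using hz)⟩
  -- choice of the level
  have hlim : ∃ k : ℕ, C * Real.exp (-(MM m k : ℝ)) ≤ et m k / 2 := by
    obtain ⟨N, hN⟩ := exists_nat_gt (2 * C)
    refine ⟨N, ?_⟩
    have h1 : (N : ℝ) ≤ m N := by
      have := mul_le_m hm N
      have h2 : N ≤ m N := by nlinarith
      exact_mod_cast h2
    have h2 : 3 * m N ≤ MM m N := three_mul_le_two_pow (by have := thousand_le hm N; omega)
    have h3 : 3 * (m N : ℝ) ≤ MM m N := by exact_mod_cast h2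
    have h4 : 2 * C ≤ Real.exp (m N : ℝ) := by
      have := Real.add_one_le_exp (m N : ℝ)
      linarith
    have hlog : Real.log 2 ≤ 1 := by
      have := Real.log_two_lt_d9
      linarith
    have hmn : (0 : ℝ) ≤ m N := by positivity
    have h5 : Real.exp (-(MM m N : ℝ)) ≤ Real.exp (-(m N : ℝ)) * et m N := by
      unfold et
      rw [← Real.exp_add]
      apply Real.exp_le_exp.mpr
      nlinarith
    have h6 : 2 * C * Real.exp (-(m N : ℝ)) ≤ 1 := by
      rw [Real.exp_neg]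
      have h7 : 0 < Real.exp (m N : ℝ) := Real.exp_pos _
      rw [← div_eq_mul_inv, div_le_one h7]
      exact h4
    have hC0 : 0 ≤ C := (norm_nonneg _).trans (hC 0 (by simp))
    have het : 0 < et m N := Real.exp_pos _
    calc C * Real.exp (-(MM m N : ℝ)) ≤ C * (Real.exp (-(m N : ℝ)) * et m N) := by gcongr
      _ = (2 * C * Real.exp (-(m N : ℝ))) * (et m N / 2) := by ring
      _ ≤ 1 * (et m N / 2) := by gcongr
      _ = et m N / 2 := one_mul _
  obtain ⟨k, hk⟩ := hlim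
  apply no_cyclic hm hdiff hD hgrow hnorm0 k
  intro j hj
  have h1 := ff_small hm k j hj
  have h2 : ‖pt (ss m k) (xx m k j)‖ ≤ 1 := by
    have h3 : ss m k ≤ 1 := (ss_le_LL m k).trans ((LL_le_small hm k).trans (by norm_num))
    rw [norm_pt h3]
    linarith [ss_pos m k]
  have h3 := hC _ h2
  have hC0 : 0 ≤ C := (norm_nonneg _).trans h3
  calc ‖φ (pt (ss m k) (xx m k j))‖ = ‖p.eval (pt (ss m k) (xx m k j))‖ *
        ‖ff m (pt (ss m k) (xx m k j))‖ := norm_mul _ _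
    _ ≤ C * Real.exp (-(MM m k : ℝ)) := by gcongr
    _ ≤ _ := hk

end Pool.Agent.Lib.BrownShields
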