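import Mathlib
import Pool.Agent.Lib.BrownShields.Defs
import Pool.Agent.Lib.BrownShields.Pos
import Pool.Agent.Lib.BrownShields.Spike

set_option autoImplicit false

namespace Pool.Agent.Lib.BrownShields

open Complex Finset MeasureTheory Metric

namespace JensenAux

theorem norm_FF_le (m : ℕ → ℕ) (i : ℕ) {z : ℂ} (hz : ‖z‖ ≤ 1) : ‖FF m i z‖ ≤ 1 := by
  unfold FF
  rw [norm_prod]
  exact Finset.prod_le_one (fun j _ => norm_nonneg _) (fun j _ => norm_uu_le m i j hz)

theorem FF_ne_zero (m : ℕ → ℕ) (i : ℕ) {z : ℂ} (hz : ‖z‖ ≤ 1) : FF m i z ≠ 0 := by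
  unfold FF
  exact Finset.prod_ne_zero_iff.mpr (fun j _ => uu_ne_zero m i j hz)

theorem GG_succ (m : ℕ → ℕ) (k : ℕ) (z : ℂ) : GG m (k + 1) z = GG m k z * FF m k z := by
  unfold GG
  rw [Finset.prod_range_succ]

theorem norm_GG_le (m : ℕ → ℕ) (k : ℕ) {z : ℂ} (hz : ‖z‖ ≤ 1) : ‖GG m k z‖ ≤ 1 := by
  unfold GG
  rw [norm_prod]
  exact Finset.prod_le_one (fun j _ => norm_nonneg _) (fun j _ => norm_FF_le m j hz)

theorem GG_ne_zero (m : ℕ → ℕ) (k : ℕ) {z : ℂ} (hz : ‖z‖ ≤ 1) : GG m k z ≠ 0 := by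
  unfold GG
  exact Finset.prod_ne_zero_iff.mpr (fun j _ => FF_ne_zero m j hz)

theorem analyticAt_FF (m : ℕ → ℕ) (i : ℕ) {z : ℂ} (hz : ‖z‖ ≤ 1) :
    AnalyticAt ℂ (FF m i) z := by
  have : FF m i = ∏ j ∈ range (MM m i), uu m i j := by
    funext w
    simp [FF, Finset.prod_apply]
  rw [this]
  exact Finset.analyticAt_prod _ (fun j _ => analyticAt_uu m i j hz)

theorem analyticAt_GG (m : ℕ → ℕ) (k : ℕ) {z : ℂ} (hz : ‖z‖ ≤ 1) :
    AnalyticAt ℂ (GG m k) z := by
  have : GG m k = ∏ i ∈ range k, FF m i := by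
    funext w
    simp [GG, Finset.prod_apply]
  rw [this]
  exact Finset.analyticAt_prod _ (fun j _ => analyticAt_FF m j hz)

/-- the mean value of `log |G_k|` -/
theorem mean_GG (m : ℕ → ℕ) (k : ℕ) :
    ∫ θ in (0 : ℝ)..(2 * Real.pi), Real.log ‖GG m k (Complex.exp ((θ : ℂ) * Complex.I))‖ =
      2 * Real.pi * Real.log ‖GG m k 0‖ := by
  have h := AnalyticOnNhd.circleAverage_log_norm_of_ne_zero (R := 1) (c := 0) (g := GG m k)
    (fun z hz => analyticAt_GG m k (by simpa using hz))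
    (fun z hz => GG_ne_zero m k (by simpa using hz))
  rw [Real.circleAverage_def] at h
  have h2 : ∀ θ : ℝ, circleMap 0 1 θ = Complex.exp ((θ : ℂ) * Complex.I) := by
    intro θ
    simp [circleMap]
  simp only [h2, smul_eq_mul] at h
  rw [← h]
  have : (2 * Real.pi) ≠ 0 := by positivity
  rw [← mul_assoc, mul_inv_cancel₀ this, one_mul]

theorem norm_exp (θ : ℝ) : ‖Complex.exp ((θ : ℂ) * Complex.I)‖ = 1 :=
  Complex.norm_exp_ofReal_mul_I θ

theorem cont_log (m : ℕ → ℕ) (k : ℕ) :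
    Continuous fun θ : ℝ => Real.log ‖GG m k (Complex.exp ((θ : ℂ) * Complex.I))‖ := by
  rw [continuous_iff_continuousAt]
  intro θ
  have h1 : ContinuousAt (fun θ : ℝ => Complex.exp ((θ : ℂ) * Complex.I)) θ := by
    fun_prop
  have h2 : ContinuousAt (GG m k) (Complex.exp ((θ : ℂ) * Complex.I)) :=
    (analyticAt_GG m k (norm_exp θ).le).continuousAt
  have h3 : ContinuousAt (fun θ : ℝ => GG m k (Complex.exp ((θ : ℂ) * Complex.I))) θ :=
    ContinuousAt.comp (f := fun θ : ℝ => Complex.exp ((θ : ℂ) * Complex.I)) h2 h1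
  exact h3.norm.log (norm_ne_zero_iff.mpr (GG_ne_zero m k (norm_exp θ).le))

/-- Jensen equality, given the convergence at the origin -/
theorem jensen_of {m : ℕ → ℕ}
    (h0 : Filter.Tendsto (fun k => GG m k 0) Filter.atTop (nhds (ff m 0)))
    (hne : ff m 0 ≠ 0) (F : ℝ → ℂ)
    (hF : ∀ᵐ θ : ℝ, Filter.Tendsto (fun k : ℕ => GG m k (Complex.exp ((θ : ℂ) * Complex.I)))
      Filter.atTop (nhds (F θ)) ∧ F θ ≠ 0) :
    Real.log ‖ff m 0‖ = (1 / (2 * Real.pi)) * ∫ θ in (0 : ℝ)..(2 * Real.pi), Real.log ‖F θ‖ := by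
  set μ : Measure ℝ := volume.restrict (Set.Ioc 0 (2 * Real.pi)) with hμ
  have hpi : (0 : ℝ) ≤ 2 * Real.pi := by positivity
  set g : ℕ → ℝ → ℝ := fun k θ => - Real.log ‖GG m k (Complex.exp ((θ : ℂ) * Complex.I))‖ with hg
  have hgc : ∀ k, Continuous (g k) := fun k => (cont_log m k).neg
  have hg0 : ∀ k θ, 0 ≤ g k θ := by
    intro k θ
    simp only [hg]
    have := Real.log_nonpos (norm_nonneg _) (norm_GG_le m k (norm_exp θ).le)
    linarith
  have hgmono : ∀ θ, Monotone fun k => g k θ := by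
    intro θ
    apply monotone_nat_of_le_succ
    intro k
    simp only [hg]
    apply neg_le_neg
    apply Real.log_le_log (norm_pos_iff.mpr (GG_ne_zero m (k + 1) (norm_exp θ).le))
    rw [GG_succ, norm_mul]
    calc _ ≤ ‖GG m k (Complex.exp ((θ : ℂ) * Complex.I))‖ * 1 :=
          mul_le_mul_of_nonneg_left (norm_FF_le m k (norm_exp θ).le) (norm_nonneg _)
      _ = _ := mul_one _
  have hgi : ∀ k, Integrable (g k) μ := by
    intro k
    exact ((hgc k).integrableOn_Icc (a := 0) (b := 2 * Real.pi)).mono_set Set.Ioc_subset_Icc_self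
  have hgint : ∀ k, ∫ θ, g k θ ∂μ = 2 * Real.pi * (- Real.log ‖GG m k 0‖) := by
    intro k
    have h1 := mean_GG m k
    rw [intervalIntegral.integral_of_le hpi] at h1
    simp only [hg, hμ]
    rw [integral_neg, h1]
    ring
  set G : ℝ → ℝ := fun θ => - Real.log ‖F θ‖ with hG
  have hlim : ∀ᵐ θ ∂μ, Filter.Tendsto (fun k => g k θ) Filter.atTop (nhds (G θ)) := by
    have h1 : ∀ᵐ (θ : ℝ) ∂μ, Filter.Tendsto
        (fun k : ℕ => GG m k (Complex.exp ((θ : ℂ) * Complex.I)))
        Filter.atTop (nhds (F θ)) ∧ F θ ≠ 0 := ae_restrict_of_ae hF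
    filter_upwards [h1] with θ hθ
    exact ((hθ.1.norm).log (norm_ne_zero_iff.mpr hθ.2)).neg
  have hGm : AEMeasurable G μ :=
    aemeasurable_of_tendsto_metrizable_ae _ (fun k => (hgc k).measurable.aemeasurable) hlim
  have hG0 : 0 ≤ᵐ[μ] G := by
    filter_upwards [hlim] with θ hθ
    exact ge_of_tendsto' hθ (fun k => hg0 k θ)
  -- monotone convergence
  have hl : Filter.Tendsto (fun k => ∫⁻ θ, ENNReal.ofReal (g k θ) ∂μ) Filter.atTop
      (nhds (∫⁻ θ, ENNReal.ofReal (G θ) ∂μ)) := by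
    apply lintegral_tendsto_of_tendsto_of_monotone
    · intro k
      exact (hgc k).measurable.ennreal_ofReal.aemeasurable
    · filter_upwards with θ
      intro k l hkl
      exact ENNReal.ofReal_le_ofReal (hgmono θ hkl)
    · filter_upwards [hlim] with θ hθ
      exact (ENNReal.continuous_ofReal.tendsto _).comp hθ
  have hl2 : ∀ k, ∫⁻ θ, ENNReal.ofReal (g k θ) ∂μ =
      ENNReal.ofReal (2 * Real.pi * (- Real.log ‖GG m k 0‖)) := by
    intro k
    rw [← hgint k, ofReal_integral_eq_lintegral_ofReal (hgi k)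
      (Filter.Eventually.of_forall (hg0 k))]
  have h0' : Filter.Tendsto (fun k => ENNReal.ofReal (2 * Real.pi * (- Real.log ‖GG m k 0‖)))
      Filter.atTop (nhds (ENNReal.ofReal (2 * Real.pi * (- Real.log ‖ff m 0‖)))) := by
    apply (ENNReal.continuous_ofReal.tendsto _).comp
    exact ((h0.norm.log (norm_ne_zero_iff.mpr hne)).neg).const_mul _
  have hkey : ∫⁻ θ, ENNReal.ofReal (G θ) ∂μ =
      ENNReal.ofReal (2 * Real.pi * (- Real.log ‖ff m 0‖)) := by
    refine tendsto_nhds_unique hl ?_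
    simp only [hl2]
    exact h0'
  have hff0 : 0 ≤ 2 * Real.pi * (- Real.log ‖ff m 0‖) := by
    have : ‖ff m 0‖ ≤ 1 := by
      refine le_of_tendsto' h0.norm (fun k => norm_GG_le m k (by simp))
    have h2 := Real.log_nonpos (norm_nonneg _) this
    apply mul_nonneg hpi
    linarith
  have hint : ∫ θ, G θ ∂μ = 2 * Real.pi * (- Real.log ‖ff m 0‖) := by
    rw [integral_eq_lintegral_of_nonneg_ae hG0 hGm.aestronglyMeasurable, hkey,
      ENNReal.toReal_ofReal hff0]
  rw [intervalIntegral.integral_of_le hpi]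
  have h3 : ∫ θ, G θ ∂μ = - ∫ θ in Set.Ioc 0 (2 * Real.pi), Real.log ‖F θ‖ := by
    simp only [hG, hμ]
    rw [integral_neg]
  rw [h3] at hint
  have hpi2 : (2 * Real.pi) ≠ 0 := by positivity
  field_simp
  linarith

theorem MMdd (m : ℕ → ℕ) (hm : Par m) (i : ℕ) : (MM m i : ℝ) * dd m i ≤ 1 / 2 ^ MM m i := by
  have h1 := m_le_ll hm i
  unfold dd
  rw [pow_add]
  have h2 : (MM m i : ℝ) ≤ 2 ^ ll m i := by
    unfold MM
    push_cast
    exact pow_le_pow_right₀ (by norm_num) h1
  rw [← mul_div_assoc, mul_one, div_le_div_iff₀ (by positivity) (by positivity)]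
  have : (0 : ℝ) < 2 ^ MM m i := by positivity
  nlinarith

theorem i_le_m {m : ℕ → ℕ} (hm : Par m) (i : ℕ) : i ≤ MM m i := by
  have h1 := mul_le_m hm i
  have h2 : m i < 2 ^ m i := Nat.lt_two_pow_self
  unfold MM
  omega

/-- points of the window whose image is in `U_i` -/
theorem mem_window {m : ℕ → ℕ} (hm : Par m) (i : ℕ) {x : ℝ} (hx0 : 0 ≤ x) (hx1 : x < 1)
    (hx : ee x ∈ UU m i) :
    x ∈ ⋃ j ∈ range (MM m i), (ball (xx m i j) (dd m i) ∪ ball (xx m i j + 1) (dd m i) ∪
      ball (xx m i j - 1) (dd m i)) := by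
  simp only [UU, Set.mem_iUnion, Finset.mem_range] at hx ⊢
  obtain ⟨j, hj, hx⟩ := hx
  refine ⟨j, hj, ?_⟩
  rw [mem_ball, dist_eq_norm] at hx
  have hd := dd_pos m i
  have hL := LL_pos m i
  have hL0 := LL_pos m 0
  have hlo := xx_lower hm i j hj
  have hup := xx_upper hm i j hj
  have hL01 : LL m 0 ≤ 1 := by
    unfold LL
    rw [div_le_one (by positivity)]
    exact one_le_pow₀ (by norm_num)
  have hdhalf : dd m i ≤ 1 / 2 := by
    unfold dd
    rw [pow_add]
    have h1 : (1 : ℝ) ≤ 2 ^ ll m i := one_le_pow₀ (by norm_num)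
    have h2 : (2 : ℝ) ≤ 2 ^ MM m i := by
      have : MM m i ≠ 0 := by unfold MM; positivity
      calc (2 : ℝ) = 2 ^ 1 := by norm_num
        _ ≤ 2 ^ MM m i := pow_le_pow_right₀ (by norm_num) (Nat.one_le_iff_ne_zero.mpr this)
    rw [div_le_div_iff₀ (by positivity) (by norm_num)]
    nlinarith
  set y := xx m i j with hy
  simp only [Set.mem_union, mem_ball, Real.dist_eq]
  by_contra hcon
  push Not at hcon
  obtain ⟨⟨h1, h2⟩, h3⟩ := hcon
  -- x - y in (-1, 3/2)
  have hlow : -1 < x - y := by linarith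
  have hupp : x - y < 3 / 2 := by linarith
  have hnot : ∀ y' : ℝ, ee y' = ee y → dd m i ≤ |x - y'| → |x - y'| ≤ 1 - dd m i → False := by
    intro y' hy' ha hb
    have := le_ee_sub x y' (dd m i) ha hb hd.le
    rw [hy'] at this
    linarith
  rcases le_or_gt (|x - y|) (1 - dd m i) with h4 | h4
  · exact hnot y rfl h1 h4
  · rcases le_or_gt 0 (x - y) with h5 | h5
    · rw [abs_of_nonneg h5] at h4
      refine hnot (y + 1) (ee_add_one y) h2 ?_
      rw [abs_le]
      constructor <;> linarith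
    · rw [abs_of_neg h5] at h4
      have h6 : ee (y - 1) = ee y := by
        have := ee_add_one (y - 1)
        rw [← this]
        ring_nf
      refine hnot (y - 1) h6 h3 ?_
      rw [abs_le]
      constructor <;> linarith

theorem vol_window {m : ℕ → ℕ} (hm : Par m) (i : ℕ) :
    volume ({x : ℝ | ee x ∈ UU m i} ∩ Set.Ico 0 1) ≤ ENNReal.ofReal (6 * (1 / 2 ^ i)) := by
  have hsub : ({x : ℝ | ee x ∈ UU m i} ∩ Set.Ico 0 1) ⊆
      ⋃ j ∈ range (MM m i), (ball (xx m i j) (dd m i) ∪ ball (xx m i j + 1) (dd m i) ∪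
      ball (xx m i j - 1) (dd m i)) := by
    rintro x ⟨hx, hx0, hx1⟩
    exact mem_window hm i hx0 hx1 hx
  calc volume ({x : ℝ | ee x ∈ UU m i} ∩ Set.Ico 0 1) ≤ _ := measure_mono hsub
    _ ≤ ∑ j ∈ range (MM m i), volume ((ball (xx m i j) (dd m i) ∪
        ball (xx m i j + 1) (dd m i) ∪ ball (xx m i j - 1) (dd m i))) :=
        measure_biUnion_finset_le _ _
    _ ≤ ∑ j ∈ range (MM m i), ENNReal.ofReal (6 * dd m i) := by
        apply Finset.sum_le_sum
        intro j _
        calc _ ≤ volume (ball (xx m i j) (dd m i) ∪ ball (xx m i j + 1) (dd m i)) +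
              volume (ball (xx m i j - 1) (dd m i)) := measure_union_le _ _
          _ ≤ volume (ball (xx m i j) (dd m i)) + volume (ball (xx m i j + 1) (dd m i)) +
              volume (ball (xx m i j - 1) (dd m i)) := by
              gcongr
              exact measure_union_le _ _
          _ = _ := by
              rw [Real.volume_ball, Real.volume_ball, Real.volume_ball]
              have hd := (dd_pos m i).le
              rw [← ENNReal.ofReal_add (by positivity) (by positivity),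
                ← ENNReal.ofReal_add (by positivity) (by positivity)]
              congr 1
              ring
    _ = ENNReal.ofReal (6 * (MM m i * dd m i)) := by
        rw [Finset.sum_const, Finset.card_range, nsmul_eq_mul]
        rw [← ENNReal.ofReal_natCast, ← ENNReal.ofReal_mul (by positivity)]
        congr 1
        ring
    _ ≤ ENNReal.ofReal (6 * (1 / 2 ^ i)) := by
        apply ENNReal.ofReal_le_ofReal
        have h1 := MMdd m hm i
        have h2 : (1 : ℝ) / 2 ^ MM m i ≤ 1 / 2 ^ i := by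
          apply one_div_le_one_div_of_le (by positivity)
          exact pow_le_pow_right₀ (by norm_num) (i_le_m hm i)
        linarith

theorem vol_window_zero {m : ℕ → ℕ} (hm : Par m) :
    volume ({x : ℝ | ∀ i, ee x ∈ UU m i} ∩ Set.Ico 0 1) = 0 := by
  have h1 : ∀ i : ℕ, volume ({x : ℝ | ∀ i, ee x ∈ UU m i} ∩ Set.Ico 0 1) ≤
      ENNReal.ofReal (6 * (1 / 2 ^ i)) := by
    intro i
    refine le_trans (measure_mono ?_) (vol_window hm i)
    rintro x ⟨hx, hx1⟩
    exact ⟨hx i, hx1⟩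
  have h2 : Filter.Tendsto (fun i : ℕ => ENNReal.ofReal (6 * (1 / 2 ^ i))) Filter.atTop
      (nhds (ENNReal.ofReal (6 * 0))) := by
    apply (ENNReal.continuous_ofReal.tendsto _).comp
    apply Filter.Tendsto.const_mul
    have := tendsto_pow_atTop_nhds_zero_of_lt_one (r := (1 / 2 : ℝ)) (by norm_num) (by norm_num)
    refine this.congr (fun i => ?_)
    rw [div_pow, one_pow]
  have h3 := ge_of_tendsto' h2 h1
  simpa using h3

theorem vol_zero {m : ℕ → ℕ} (hm : Par m) :
    volume {x : ℝ | ∀ i, ee x ∈ UU m i} = 0 := by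
  have hint : ∀ (n : ℤ) (x : ℝ), ee (x + n) = ee x := by
    intro n x
    unfold ee
    push_cast
    rw [show ((2 * Real.pi * (x + n) : ℂ)) * Complex.I =
      (2 * Real.pi * x : ℂ) * Complex.I + n * (2 * Real.pi * Complex.I) by ring]
    rw [Complex.exp_add, Complex.exp_int_mul_two_pi_mul_I, mul_one]
  set S : Set ℝ := {x : ℝ | ∀ i, ee x ∈ UU m i} with hS
  have hcover : S ⊆ ⋃ n : ℤ, (fun x : ℝ => x + (n : ℝ)) ⁻¹' (S ∩ Set.Ico 0 1) := by
    intro x hx
    rw [Set.mem_iUnion]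
    refine ⟨-⌊x⌋, ?_⟩
    simp only [Set.mem_preimage, Set.mem_inter_iff, Set.mem_Ico]
    refine ⟨?_, ?_, ?_⟩
    · intro i
      have := hx i
      rw [hint]
      exact this
    · push_cast
      linarith [Int.floor_le x]
    · push_cast
      linarith [Int.lt_floor_add_one x]
  refine measure_mono_null hcover ?_
  rw [measure_iUnion_null_iff]
  intro n
  rw [measure_preimage_add_right]
  exact vol_window_zero hm

end JensenAux

open JensenAux in
/-- null set -/
theorem ae_notin {m : ℕ → ℕ} (hm : Par m) :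
    ∀ᵐ θ : ℝ, ∃ i, Complex.exp ((θ : ℂ) * Complex.I) ∉ UU m i := by
  have h0 := vol_zero hm
  rw [ae_iff]
  simp only [not_exists, not_not]
  have hpi : (2 * Real.pi) ≠ 0 := by positivity
  have hset : {θ : ℝ | ∀ i, Complex.exp ((θ : ℂ) * Complex.I) ∈ UU m i} =
      (fun θ : ℝ => (2 * Real.pi)⁻¹ • θ) ⁻¹' {x : ℝ | ∀ i, ee x ∈ UU m i} := by
    ext θ
    simp only [Set.mem_ofPred_eq, Set.mem_preimage]
    have : ee ((2 * Real.pi)⁻¹ • θ) = Complex.exp ((θ : ℂ) * Complex.I) := by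
      unfold ee
      congr 2
      norm_cast
      rw [smul_eq_mul]
      field_simp
    rw [this]
  rw [hset, Measure.addHaar_preimage_smul _ (inv_ne_zero hpi), h0, mul_zero]

end Pool.Agent.Lib.BrownShields
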