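import Mathlib

set_option autoImplicit false

namespace Pool.Agent.Lib.BrownShields

open Complex Finset MeasureTheory Metric

/-- mean value inequality on the unit circle -/
theorem mv_circle {G : ℂ → ℂ} (hG : DiffContOnCl ℂ G (ball 0 1)) :
    ENNReal.ofReal (2 * Real.pi * ‖G 0‖ ^ 2) ≤
      ∫⁻ θ in Set.Ioc (0 : ℝ) (2 * Real.pi), ENNReal.ofReal (‖G (circleMap 0 1 θ)‖ ^ 2) := by
  have h0 : DiffContOnCl ℂ (fun z => G z * G z) (ball (0 : ℂ) |(1 : ℝ)|) := by
    rw [abs_one]
    exact ⟨hG.1.mul hG.1, hG.2.mul hG.2⟩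
  have h1 : Real.circleAverage (fun z => G z * G z) 0 1 = G 0 * G 0 := h0.circleAverage
  rw [Real.circleAverage_def] at h1
  have h2 : ∫ θ in (0 : ℝ)..(2 * Real.pi), G (circleMap 0 1 θ) * G (circleMap 0 1 θ) =
      (2 * Real.pi) • (G 0 * G 0) := by
    rw [← h1, smul_smul, mul_inv_cancel₀ (by positivity), one_smul]
  rw [intervalIntegral.integral_of_le (by positivity)] at h2
  have h3 : ‖∫ θ in Set.Ioc (0 : ℝ) (2 * Real.pi),
      G (circleMap 0 1 θ) * G (circleMap 0 1 θ)‖ₑ = ENNReal.ofReal (2 * Real.pi * ‖G 0‖ ^ 2) := by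
    have h5 : ‖(2 * Real.pi) • (G 0 * G 0)‖ = 2 * Real.pi * ‖G 0‖ ^ 2 := by
      rw [norm_smul_of_nonneg (by positivity), norm_mul]
      ring
    rw [h2, ← ofReal_norm, h5]
  rw [← h3]
  refine (enorm_integral_le_lintegral_enorm _).trans_eq ?_
  refine lintegral_congr ?_
  intro θ
  rw [← ofReal_norm, norm_mul]
  congr 1
  ring

theorem mv_rot {F : ℂ → ENNReal} (hF : Measurable F) (ρ : ℝ) (θ : ℝ) :
    ∫⁻ w in ball (0 : ℂ) ρ, F (circleMap 0 1 θ * w) = ∫⁻ w in ball (0 : ℂ) ρ, F w := by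
  have hc : ‖circleMap 0 1 θ‖ = 1 := by simp
  let a : Circle := ⟨circleMap 0 1 θ, by
    simp [Submonoid.unitSphere]⟩
  have hmp : MeasurePreserving (rotation a) volume volume := (rotation a).measurePreserving
  rw [← lintegral_indicator measurableSet_ball, ← lintegral_indicator measurableSet_ball]
  have hmeas : Measurable ((ball (0 : ℂ) ρ).indicator F) := hF.indicator measurableSet_ball
  rw [← hmp.lintegral_comp hmeas]
  refine lintegral_congr ?_
  intro w
  have hw : rotation a w = circleMap 0 1 θ * w := rfl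
  rw [hw]
  by_cases h : w ∈ ball (0 : ℂ) ρ
  · have h' : circleMap 0 1 θ * w ∈ ball (0 : ℂ) ρ := by
      rw [mem_ball_zero_iff, norm_mul, hc, one_mul]
      exact mem_ball_zero_iff.mp h
    rw [Set.indicator_of_mem h, Set.indicator_of_mem h']
  · have h' : circleMap 0 1 θ * w ∉ ball (0 : ℂ) ρ := by
      rw [mem_ball_zero_iff, norm_mul, hc, one_mul]
      rwa [mem_ball_zero_iff] at h
    rw [Set.indicator_of_notMem h, Set.indicator_of_notMem h']

theorem mv_ball {g : ℂ → ℂ} (hg : Measurable g) {ρ : ℝ} (hρ : 0 < ρ)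
    (hd : DifferentiableOn ℂ g (ball 0 ρ)) :
    ENNReal.ofReal (Real.pi * ρ ^ 2 * ‖g 0‖ ^ 2) ≤
      ∫⁻ w in ball (0 : ℂ) ρ, ENNReal.ofReal (‖g w‖ ^ 2) := by
  set F : ℂ → ENNReal := fun w => ENNReal.ofReal (‖g w‖ ^ 2) with hFdef
  have hF : Measurable F := (hg.norm.pow_const 2).ennreal_ofReal
  set I := ∫⁻ w in ball (0 : ℂ) ρ, F w with hI
  have h1 : ∫⁻ _θ in Set.Ioc (0 : ℝ) (2 * Real.pi), I = ENNReal.ofReal (2 * Real.pi) * I := by
    rw [lintegral_const, Measure.restrict_apply_univ, Real.volume_Ioc, sub_zero, mul_comm]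
  have h2 : ∫⁻ _θ in Set.Ioc (0 : ℝ) (2 * Real.pi), I =
      ∫⁻ θ in Set.Ioc (0 : ℝ) (2 * Real.pi), ∫⁻ w in ball (0 : ℂ) ρ, F (circleMap 0 1 θ * w) := by
    refine lintegral_congr ?_
    intro θ
    rw [mv_rot hF ρ θ]
  have h3 : ∫⁻ θ in Set.Ioc (0 : ℝ) (2 * Real.pi), ∫⁻ w in ball (0 : ℂ) ρ,
      F (circleMap 0 1 θ * w) =
      ∫⁻ w in ball (0 : ℂ) ρ, ∫⁻ θ in Set.Ioc (0 : ℝ) (2 * Real.pi), F (circleMap 0 1 θ * w) := by
    apply lintegral_lintegral_swap
    apply Measurable.aemeasurable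
    apply hF.comp
    exact ((continuous_circleMap 0 1).measurable.comp measurable_fst).mul measurable_snd
  have h4 : ENNReal.ofReal (2 * Real.pi * ‖g 0‖ ^ 2) * volume (ball (0 : ℂ) ρ) ≤
      ∫⁻ w in ball (0 : ℂ) ρ, ∫⁻ θ in Set.Ioc (0 : ℝ) (2 * Real.pi), F (circleMap 0 1 θ * w) := by
    rw [← setLIntegral_const]
    apply setLIntegral_mono' measurableSet_ball
    intro w hw
    rw [mem_ball_zero_iff] at hw
    have hG : DiffContOnCl ℂ (fun ζ => g (ζ * w)) (ball 0 1) := by
      have hd' : DifferentiableOn ℂ (fun ζ => g (ζ * w)) {ζ | ζ * w ∈ ball (0 : ℂ) ρ} := by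
        apply hd.comp (t := ball (0 : ℂ) ρ)
        · exact (differentiable_id.mul_const w).differentiableOn
        · intro ζ hζ
          exact hζ
      apply hd'.diffContOnCl_ball
      intro ζ hζ
      rw [mem_closedBall_zero_iff] at hζ
      change ζ * w ∈ ball (0 : ℂ) ρ
      rw [mem_ball_zero_iff, norm_mul]
      calc ‖ζ‖ * ‖w‖ ≤ 1 * ‖w‖ := mul_le_mul_of_nonneg_right hζ (norm_nonneg _)
        _ < ρ := by rw [one_mul]; exact hw
    have h5 := mv_circle hG
    simp only [zero_mul] at h5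
    exact h5
  rw [← h3, ← h2, h1, Complex.volume_ball] at h4
  have h6 : ENNReal.ofReal (2 * Real.pi * ‖g 0‖ ^ 2) * (ENNReal.ofReal ρ ^ 2 * NNReal.pi) =
      ENNReal.ofReal (2 * Real.pi) * ENNReal.ofReal (Real.pi * ρ ^ 2 * ‖g 0‖ ^ 2) := by
    have h7 : (NNReal.pi : ENNReal) = ENNReal.ofReal Real.pi := by
      rw [← NNReal.coe_real_pi, ENNReal.ofReal_coe_nnreal]
    rw [h7, ← ENNReal.ofReal_pow hρ.le, ← ENNReal.ofReal_mul (by positivity),
      ← ENNReal.ofReal_mul (by positivity), ← ENNReal.ofReal_mul (by positivity)]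
    congr 1
    ring
  rw [h6] at h4
  have h8 : ENNReal.ofReal (2 * Real.pi) ≠ 0 := by
    rw [ne_eq, ENNReal.ofReal_eq_zero, not_le]
    positivity
  exact (ENNReal.mul_le_mul_iff_right h8 ENNReal.ofReal_ne_top).mp h4

theorem sub_sq_le_area {φ : ℂ → ℂ} {c b : ℂ} {R : ℝ} (hR : 0 < R)
    (hφ : DifferentiableOn ℂ φ (ball c R)) (hb : ‖b - c‖ ≤ R / 2) :
    ENNReal.ofReal (Real.pi * ‖φ b - φ c‖ ^ 2) ≤
      ∫⁻ z in ball c R, ENNReal.ofReal (‖deriv φ z‖ ^ 2) := by
  set I := ∫⁻ z in ball c R, ENNReal.ofReal (‖deriv φ z‖ ^ 2) with hI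
  by_cases hItop : I = ⊤
  · rw [hItop]
    exact le_top
  have hdd : DifferentiableOn ℂ (deriv φ) (ball c R) := hφ.deriv isOpen_ball
  -- pointwise bound
  have hpt : ∀ z, ‖z - c‖ ≤ R / 2 → Real.pi * (R / 2) ^ 2 * ‖deriv φ z‖ ^ 2 ≤ I.toReal := by
    intro z hz
    have hsub : ball z (R / 2) ⊆ ball c R := by
      apply ball_subset_ball'
      rw [dist_eq_norm]
      linarith
    have hmeas : Measurable (fun w => deriv φ (z + w)) :=
      (measurable_deriv φ).comp (measurable_const_add z)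
    have hd : DifferentiableOn ℂ (fun w => deriv φ (z + w)) (ball 0 (R / 2)) := by
      apply (hdd.mono hsub).comp (t := ball z (R / 2))
      · exact (differentiable_id.const_add z).differentiableOn
      · intro w hw
        rw [mem_ball_zero_iff] at hw
        rw [mem_ball, dist_eq_norm]
        simpa using hw
    have h1 := mv_ball hmeas (by positivity : 0 < R / 2) hd
    rw [add_zero] at h1
    have h2 : ∫⁻ w in ball (0 : ℂ) (R / 2), ENNReal.ofReal (‖deriv φ (z + w)‖ ^ 2) =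
        ∫⁻ w in ball z (R / 2), ENNReal.ofReal (‖deriv φ w‖ ^ 2) := by
      rw [← lintegral_indicator measurableSet_ball, ← lintegral_indicator measurableSet_ball]
      rw [← lintegral_add_left_eq_self
        ((ball z (R / 2)).indicator (fun w => ENNReal.ofReal (‖deriv φ w‖ ^ 2))) z]
      refine lintegral_congr ?_
      intro w
      by_cases h : w ∈ ball (0 : ℂ) (R / 2)
      · have h' : z + w ∈ ball z (R / 2) := by
          rw [mem_ball_zero_iff] at h
          rw [mem_ball, dist_eq_norm]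
          simpa using h
        rw [Set.indicator_of_mem h, Set.indicator_of_mem h']
      · have h' : z + w ∉ ball z (R / 2) := by
          rw [mem_ball_zero_iff] at h
          rw [mem_ball, dist_eq_norm]
          simpa using h
        rw [Set.indicator_of_notMem h, Set.indicator_of_notMem h']
    rw [h2] at h1
    have h3 := h1.trans (lintegral_mono_set hsub)
    rwa [← hI, ENNReal.ofReal_le_iff_le_toReal hItop] at h3
  set C := Real.sqrt (I.toReal / (Real.pi * (R / 2) ^ 2)) with hC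
  have hder : ∀ z ∈ closedBall c (R / 2), ‖deriv φ z‖ ≤ C := by
    intro z hz
    rw [mem_closedBall, dist_eq_norm] at hz
    rw [hC]
    apply Real.le_sqrt_of_sq_le
    rw [le_div_iff₀ (by positivity)]
    have := hpt z hz
    linarith
  have hlip : ‖φ b - φ c‖ ≤ C * ‖b - c‖ := by
    apply (convex_closedBall c (R / 2)).norm_image_sub_le_of_norm_deriv_le (𝕜 := ℂ) (f := φ) _ hder
    · exact mem_closedBall_self (by positivity)
    · rw [mem_closedBall, dist_eq_norm]
      exact hb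
    · intro z hz
      apply hφ.differentiableAt
      apply isOpen_ball.mem_nhds
      exact closedBall_subset_ball (by linarith) hz
  rw [ENNReal.ofReal_le_iff_le_toReal hItop]
  have hC0 : 0 ≤ C := Real.sqrt_nonneg _
  have h5 : ‖φ b - φ c‖ ≤ C * (R / 2) := hlip.trans (mul_le_mul_of_nonneg_left hb hC0)
  have h6 : C ^ 2 * (Real.pi * (R / 2) ^ 2) = I.toReal := by
    rw [hC, Real.sq_sqrt (by positivity)]
    field_simp
  calc Real.pi * ‖φ b - φ c‖ ^ 2 ≤ Real.pi * (C * (R / 2)) ^ 2 := by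
        apply mul_le_mul_of_nonneg_left _ Real.pi_pos.le
        exact pow_le_pow_left₀ (norm_nonneg _) h5 2
    _ = C ^ 2 * (Real.pi * (R / 2) ^ 2) := by ring
    _ = I.toReal := h6

end Pool.Agent.Lib.BrownShields
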