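import Pool.Agent.Lib.BrownShields.Pos
import Pool.Agent.Lib.BrownShields.MeanVal

set_option autoImplicit false

namespace Pool.Agent.Lib.BrownShields

open Complex Finset MeasureTheory Metric

/-- one step: oscillation over disjoint discs costs at most the total area -/
theorem stepA_one {φ : ℂ → ℂ} (hφ : DifferentiableOn ℂ φ (ball 0 1))
    (hD : ∫⁻ z in ball (0 : ℂ) 1, ENNReal.ofReal (‖deriv φ z‖ ^ 2) ≤ ENNReal.ofReal Real.pi)
    (M : ℕ) (b c : ℕ → ℂ) {R : ℝ} (hR : 0 < R)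
    (hsub : ∀ j ∈ range M, ball (c j) R ⊆ ball (0 : ℂ) 1)
    (hdisj : ∀ j ∈ range M, ∀ j' ∈ range M, j ≠ j' → Disjoint (ball (c j) R) (ball (c j') R))
    (hb : ∀ j ∈ range M, ‖b j - c j‖ ≤ R / 2) :
    ∑ j ∈ range M, ‖φ (b j) - φ (c j)‖ ^ 2 ≤ 1 := by
  have h1 : ENNReal.ofReal (∑ j ∈ range M, Real.pi * ‖φ (b j) - φ (c j)‖ ^ 2)
      ≤ ENNReal.ofReal Real.pi := by
    rw [ENNReal.ofReal_sum_of_nonneg (fun j _ => mul_nonneg Real.pi_pos.le (sq_nonneg _))]
    calc ∑ j ∈ range M, ENNReal.ofReal (Real.pi * ‖φ (b j) - φ (c j)‖ ^ 2)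
        ≤ ∑ j ∈ range M, ∫⁻ z in ball (c j) R, ENNReal.ofReal (‖deriv φ z‖ ^ 2) :=
          Finset.sum_le_sum (fun j hj => sub_sq_le_area hR (hφ.mono (hsub j hj)) (hb j hj))
      _ = ∫⁻ z in ⋃ j ∈ range M, ball (c j) R, ENNReal.ofReal (‖deriv φ z‖ ^ 2) := by
          rw [lintegral_biUnion_finset]
          · intro j hj j' hj' hne
            exact hdisj j (by simpa using hj) j' (by simpa using hj') hne
          · intro j _
            exact measurableSet_ball
      _ ≤ ∫⁻ z in ball (0 : ℂ) 1, ENNReal.ofReal (‖deriv φ z‖ ^ 2) :=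
          lintegral_mono_set (Set.iUnion₂_subset hsub)
      _ ≤ ENNReal.ofReal Real.pi := hD
  rw [ENNReal.ofReal_le_ofReal_iff Real.pi_pos.le, ← Finset.mul_sum] at h1
  have h2 : Real.pi * ∑ j ∈ range M, ‖φ (b j) - φ (c j)‖ ^ 2 ≤ Real.pi * 1 := by
    rw [mul_one]
    exact h1
  exact le_of_mul_le_mul_left h2 Real.pi_pos

theorem stepA_norm_pt {t x : ℝ} (ht : t ≤ 1) : ‖pt t x‖ = 1 - t := by
  unfold pt
  rw [norm_mul, norm_ee, mul_one, Complex.norm_real, Real.norm_eq_abs, abs_of_nonneg (by linarith)]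

theorem stepA_ball_sub {t x : ℝ} (ht : t ≤ 1) : ball (pt t x) t ⊆ ball (0 : ℂ) 1 := by
  apply ball_subset_ball'
  rw [dist_zero_right, stepA_norm_pt ht]
  linarith

theorem stepA_LL_le {m : ℕ → ℕ} (hm : Par m) (i : ℕ) : LL m i ≤ 1 / 2 := by
  unfold LL
  have h1 : 1 ≤ ll m i := by
    have := m_le_ll hm i
    have := mul_le_m hm i
    omega
  have h2 : (2 : ℝ) ^ 1 ≤ 2 ^ ll m i := pow_le_pow_right₀ (by norm_num) h1
  rw [pow_one] at h2
  exact one_div_le_one_div_of_le (by norm_num) h2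

theorem stepA_disj {m : ℕ → ℕ} (hm : Par m) (i : ℕ) {t : ℝ} (ht : t ≤ LL m i)
    (j j' : ℕ) (hj : j < MM m i) (hj' : j' < MM m i) (h : j ≠ j') :
    Disjoint (ball (pt t (xx m i j)) t) (ball (pt t (xx m i j')) t) := by
  apply ball_disjoint_ball
  have h1 := ee_sep hm i j j' hj hj' h
  have h2 := stepA_LL_le hm i
  have h3 := LL_pos m i
  rw [dist_eq_norm]
  have h4 : pt t (xx m i j) - pt t (xx m i j') =
      ((1 - t : ℝ) : ℂ) * (ee (xx m i j) - ee (xx m i j')) := by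
    unfold pt
    ring
  rw [h4, norm_mul, Complex.norm_real, Real.norm_eq_abs, abs_of_nonneg (by linarith)]
  have h5 : (1 / 2 : ℝ) * (4 * LL m i) ≤ (1 - t) * ‖ee (xx m i j) - ee (xx m i j')‖ :=
    mul_le_mul (by linarith) h1 (by linarith) (by linarith)
  linarith

theorem stepA {m : ℕ → ℕ} (hm : Par m) {φ : ℂ → ℂ} (hφ : DifferentiableOn ℂ φ (ball 0 1))
    (hD : ∫⁻ z in ball (0 : ℂ) 1, ENNReal.ofReal (‖deriv φ z‖ ^ 2) ≤ ENNReal.ofReal Real.pi)
    (i : ℕ) (u : ℕ → ℝ) (hu : ∀ j, |u j| ≤ LL m i / 16) :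
    ∑ j ∈ range (MM m i), ‖φ (pt (LL m i) (xx m i j + u j)) - φ (pt (ss m i) (xx m i j))‖ ^ 2
      ≤ ((JJ m i : ℝ) + 1) ^ 2 := by
  have hL := LL_pos m i
  have hL2 := stepA_LL_le hm i
  have ht0 : ∀ k : ℕ, 0 < LL m i / 2 ^ k := fun k => by positivity
  have htL : ∀ k : ℕ, LL m i / 2 ^ k ≤ LL m i := by
    intro k
    apply div_le_self hL.le
    exact one_le_pow₀ (by norm_num)
  let T : ℕ → ℕ → ℂ := fun j k => match k with
    | 0 => φ (pt (LL m i) (xx m i j + u j)) - φ (pt (LL m i / 2 ^ 0) (xx m i j))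
    | (k + 1) => φ (pt (LL m i / 2 ^ k) (xx m i j)) - φ (pt (LL m i / 2 ^ (k + 1)) (xx m i j))
  have hT0 : ∀ j, T j 0 = φ (pt (LL m i) (xx m i j + u j)) - φ (pt (LL m i / 2 ^ 0) (xx m i j)) :=
    fun j => rfl
  have hTs : ∀ j k, T j (k + 1) =
      φ (pt (LL m i / 2 ^ k) (xx m i j)) - φ (pt (LL m i / 2 ^ (k + 1)) (xx m i j)) :=
    fun j k => rfl
  have hsum : ∀ j, φ (pt (LL m i) (xx m i j + u j)) - φ (pt (ss m i) (xx m i j)) =
      ∑ k ∈ range (JJ m i + 1), T j k := by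
    intro j
    rw [Finset.sum_range_succ']
    simp only [hTs, hT0]
    rw [Finset.sum_range_sub' (fun k => φ (pt (LL m i / 2 ^ k) (xx m i j)))]
    unfold ss
    ring
  have hstep : ∀ k ∈ range (JJ m i + 1), ∑ j ∈ range (MM m i), ‖T j k‖ ^ 2 ≤ 1 := by
    intro k _
    cases k with
    | zero =>
      simp only [hT0, pow_zero, div_one]
      apply stepA_one hφ hD (MM m i) (fun j => pt (LL m i) (xx m i j + u j))
        (fun j => pt (LL m i) (xx m i j)) hL
      · intro j _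
        exact stepA_ball_sub (by linarith)
      · intro j hj j' hj' hne
        exact stepA_disj hm i le_rfl j j' (mem_range.mp hj) (mem_range.mp hj') hne
      · intro j _
        have h4 : pt (LL m i) (xx m i j + u j) - pt (LL m i) (xx m i j) =
            ((1 - LL m i : ℝ) : ℂ) * (ee (xx m i j + u j) - ee (xx m i j)) := by
          unfold pt
          ring
        rw [h4, norm_mul, Complex.norm_real, Real.norm_eq_abs, abs_of_nonneg (by linarith)]
        have h5 := ee_sub_le (xx m i j + u j) (xx m i j)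
        rw [add_sub_cancel_left] at h5
        have h6 := hu j
        have h7 := Real.pi_lt_d2
        have h8 : ‖ee (xx m i j + u j) - ee (xx m i j)‖ ≤ LL m i / 2 := by
          calc ‖ee (xx m i j + u j) - ee (xx m i j)‖ ≤ 2 * Real.pi * |u j| := h5
            _ ≤ 2 * 4 * (LL m i / 16) := by
              apply mul_le_mul _ h6 (abs_nonneg _) (by norm_num)
              linarith
            _ = LL m i / 2 := by ring
        have h9 : (1 - LL m i) * ‖ee (xx m i j + u j) - ee (xx m i j)‖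
            ≤ 1 * ‖ee (xx m i j + u j) - ee (xx m i j)‖ :=
          mul_le_mul_of_nonneg_right (by linarith) (norm_nonneg _)
        linarith
    | succ k =>
      simp only [hTs]
      have hsw : ∀ j, ‖φ (pt (LL m i / 2 ^ k) (xx m i j)) -
          φ (pt (LL m i / 2 ^ (k + 1)) (xx m i j))‖ ^ 2 =
          ‖φ (pt (LL m i / 2 ^ (k + 1)) (xx m i j)) - φ (pt (LL m i / 2 ^ k) (xx m i j))‖ ^ 2 := by
        intro j
        rw [norm_sub_rev]
      simp only [hsw]
      apply stepA_one hφ hD (MM m i) (fun j => pt (LL m i / 2 ^ (k + 1)) (xx m i j))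
        (fun j => pt (LL m i / 2 ^ k) (xx m i j)) (ht0 k)
      · intro j _
        have := htL k
        exact stepA_ball_sub (by linarith)
      · intro j hj j' hj' hne
        exact stepA_disj hm i (htL k) j j' (mem_range.mp hj) (mem_range.mp hj') hne
      · intro j _
        have h4 : pt (LL m i / 2 ^ (k + 1)) (xx m i j) - pt (LL m i / 2 ^ k) (xx m i j) =
            ((LL m i / 2 ^ k / 2 : ℝ) : ℂ) * ee (xx m i j) := by
          unfold pt
          rw [← sub_mul, ← Complex.ofReal_sub]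
          congr 2
          rw [pow_succ]
          have : (2 : ℝ) ^ k ≠ 0 := by positivity
          field_simp
          ring
        rw [h4, norm_mul, norm_ee, mul_one, Complex.norm_real, Real.norm_eq_abs,
          abs_of_nonneg (by have := ht0 k; linarith)]
  have hCS : ∀ j, ‖φ (pt (LL m i) (xx m i j + u j)) - φ (pt (ss m i) (xx m i j))‖ ^ 2 ≤
      ((JJ m i : ℝ) + 1) * ∑ k ∈ range (JJ m i + 1), ‖T j k‖ ^ 2 := by
    intro j
    rw [hsum j]
    calc ‖∑ k ∈ range (JJ m i + 1), T j k‖ ^ 2 ≤ (∑ k ∈ range (JJ m i + 1), ‖T j k‖) ^ 2 :=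
          pow_le_pow_left₀ (norm_nonneg _) (norm_sum_le _ _) 2
      _ ≤ ((range (JJ m i + 1)).card : ℝ) * ∑ k ∈ range (JJ m i + 1), ‖T j k‖ ^ 2 :=
          sq_sum_le_card_mul_sum_sq
      _ = _ := by
          rw [card_range]
          push_cast
          rfl
  calc ∑ j ∈ range (MM m i), ‖φ (pt (LL m i) (xx m i j + u j)) - φ (pt (ss m i) (xx m i j))‖ ^ 2
      ≤ ∑ j ∈ range (MM m i), ((JJ m i : ℝ) + 1) * ∑ k ∈ range (JJ m i + 1), ‖T j k‖ ^ 2 :=
        Finset.sum_le_sum (fun j _ => hCS j)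
    _ = ((JJ m i : ℝ) + 1) * ∑ k ∈ range (JJ m i + 1), ∑ j ∈ range (MM m i), ‖T j k‖ ^ 2 := by
        rw [← Finset.mul_sum, Finset.sum_comm]
    _ ≤ ((JJ m i : ℝ) + 1) * ∑ k ∈ range (JJ m i + 1), (1 : ℝ) := by
        apply mul_le_mul_of_nonneg_left _ (by positivity)
        exact Finset.sum_le_sum hstep
    _ = ((JJ m i : ℝ) + 1) ^ 2 := by
        rw [Finset.sum_const, card_range, nsmul_eq_mul, mul_one]
        push_cast
        ring

end Pool.Agent.Lib.BrownShields
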