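import Mathlib
import Pool.Agent.Lib.BrownShields.Defs

/-!
# The two-constants inequality (from the Poisson-Jensen inequality)
-/

set_option autoImplicit false

namespace Pool.Agent.Lib.BrownShields

open Complex MeasureTheory Metric

namespace TwoConst

open Filter MeromorphicOn Real InnerProductSpace

/-- The Poisson kernel times a circle integrable function is circle integrable. -/
theorem kernel_mul_integrable {w : ℂ} {r : ℝ} (hw : w ∈ ball (0 : ℂ) r) {f : ℂ → ℝ}
    (hf : CircleIntegrable f 0 r) :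
    CircleIntegrable ((Complex.re ∘ herglotzRieszKernel 0 w) * f) 0 r :=
  hf.continuousOn_mul
    (Complex.continuous_re.comp_continuousOn (continuousOn_herglotzRieszKernel_sphere hw))

theorem norm_sub_le_of_mem {u w : ℂ} {r : ℝ} (hr : 0 < r) (hu : ‖u‖ ≤ r) (hw : ‖w‖ ≤ r) :
    ‖w - u‖ ≤ ‖((r : ℂ) ^ 2 - (starRingEnd ℂ) u * w) / (r : ℂ)‖ := by
  rw [norm_div, Complex.norm_real, Real.norm_eq_abs, abs_of_pos hr, le_div_iff₀ hr]
  have h1 : (‖w - u‖ * r) ^ 2 ≤ ‖(r : ℂ) ^ 2 - (starRingEnd ℂ) u * w‖ ^ 2 := by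
    have h2 : 0 ≤ (r ^ 2 - ‖u‖ ^ 2) * (r ^ 2 - ‖w‖ ^ 2) := by
      apply mul_nonneg
      · nlinarith [norm_nonneg u]
      · nlinarith [norm_nonneg w]
    rw [mul_pow]
    simp only [← Complex.normSq_eq_norm_sq, Complex.normSq_apply] at h2 ⊢
    simp only [Complex.sub_re, Complex.sub_im, Complex.mul_re, Complex.mul_im, Complex.conj_re,
      Complex.conj_im, pow_two, Complex.ofReal_re, Complex.ofReal_im]
    nlinarith [h2]
  exact (sq_le_sq₀ (by positivity) (norm_nonneg _)).1 h1

theorem log_sub_le {u w : ℂ} {r : ℝ} (hu : u ∈ closedBall (0 : ℂ) r) (hw : w ∈ ball (0 : ℂ) r)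
    (huw : w ≠ u) :
    Real.log ‖w - u‖ ≤
      circleAverage ((Complex.re ∘ herglotzRieszKernel 0 w) * (fun z => Real.log ‖z - u‖)) 0 r := by
  have hr : 0 < r := pos_of_mem_ball hw
  rcases eq_or_lt_of_le (mem_closedBall_zero_iff.1 hu) with h | h
  · have hs : u ∈ sphere (0 : ℂ) r := by
      rw [mem_sphere_zero_iff_norm]
      exact h
    exact (circleAverage_re_herglotzRieszKernel_mul_log hs hw).ge
  · have hw' : ‖w‖ < r := mem_ball_zero_iff.1 hw
    have hne : ∀ z ∈ closedBall (0 : ℂ) r,
        ((r : ℂ) ^ 2 - (starRingEnd ℂ) u * z) / (r : ℂ) ≠ 0 := by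
      intro z hz h0
      have hz' : ‖z‖ ≤ r := mem_closedBall_zero_iff.1 hz
      rw [div_eq_zero_iff] at h0
      rcases h0 with h0 | h0
      · have h1 : (r : ℂ) ^ 2 = (starRingEnd ℂ) u * z := sub_eq_zero.1 h0
        have h2 : r ^ 2 = ‖u‖ * ‖z‖ := by
          have := congrArg norm h1
          rw [norm_mul, norm_pow, Complex.norm_real, Real.norm_eq_abs, abs_of_pos hr] at this
          simpa using this
        nlinarith [norm_nonneg u, norm_nonneg z]
      · exact hr.ne' (Complex.ofReal_eq_zero.1 h0)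
    have h1 : HarmonicOnNhd (fun z : ℂ => Real.log
        ‖((r : ℂ) ^ 2 - (starRingEnd ℂ) u * z) / (r : ℂ)‖) (closedBall 0 r) := by
      intro z hz
      exact AnalyticAt.harmonicAt_log_norm (by fun_prop) (hne z hz)
    have h2 := HarmonicOnNhd.circleAverage_re_herglotzRieszKernel_smul h1 hw
    have h3 : circleAverage ((Complex.re ∘ herglotzRieszKernel 0 w) *
        (fun z => Real.log ‖z - u‖)) 0 r = circleAverage ((Complex.re ∘ herglotzRieszKernel 0 w) •
        (fun z : ℂ => Real.log ‖((r : ℂ) ^ 2 - (starRingEnd ℂ) u * z) / (r : ℂ)‖)) 0 r := by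
      apply circleAverage_congr_sphere
      intro z hz
      rw [abs_of_pos hr, mem_sphere_zero_iff_norm] at hz
      simp only [Pi.mul_apply, Pi.smul_apply', smul_eq_mul]
      congr 2
      have h4 : ‖Complex.canonicalFactor r u z‖ = 1 :=
        Complex.norm_canonicalFactor_eval_circle_eq_one (mem_ball_zero_iff.2 h)
          (mem_sphere_zero_iff_norm.2 hz)
      have hzu : ‖z - u‖ ≠ 0 := by
        rw [norm_ne_zero_iff, sub_ne_zero]
        rintro rfl
        exact absurd hz h.ne
      rw [Complex.canonicalFactor_apply, norm_div, norm_mul, Complex.norm_real, Real.norm_eq_abs,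
        abs_of_pos hr, div_eq_one_iff_eq (mul_ne_zero hr.ne' hzu)] at h4
      rw [norm_div, Complex.norm_real, Real.norm_eq_abs, abs_of_pos hr, h4,
        mul_div_cancel_left₀ _ hr.ne']
    rw [h3, h2]
    apply Real.log_le_log
    · rw [norm_pos_iff, sub_ne_zero]
      exact huw
    · exact norm_sub_le_of_mem hr h.le hw'.le

/-- The Poisson-Jensen inequality. -/
theorem poisson_jensen {φ : ℂ → ℂ} {r : ℝ} {w : ℂ}
    (hφ : AnalyticOnNhd ℂ φ (closedBall 0 r)) (hw : w ∈ ball (0 : ℂ) r) (hφw : φ w ≠ 0) :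
    Real.log ‖φ w‖ ≤
      circleAverage ((Complex.re ∘ herglotzRieszKernel 0 w) * (fun z => Real.log ‖φ z‖)) 0 r := by
  classical
  have hr : 0 < r := pos_of_mem_ball hw
  have hwc : w ∈ closedBall (0 : ℂ) r := ball_subset_closedBall hw
  have hmer : MeromorphicOn φ (closedBall 0 r) := hφ.meromorphicOn
  have horder : ∀ u : closedBall (0 : ℂ) r, meromorphicOrderAt φ u ≠ ⊤ := by
    rw [← hmer.exists_meromorphicOrderAt_ne_top_iff_forall
      (Metric.isConnected_closedBall hr.le)]
    refine ⟨⟨w, hwc⟩, ?_⟩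
    have h1 : meromorphicOrderAt φ w = 0 := by
      rw [(hφ w hwc).meromorphicNFAt.meromorphicOrderAt_eq_zero_iff]
      exact hφw
    rw [h1]
    simp
  have hfin : (divisor φ (closedBall 0 r)).support.Finite :=
    (divisor φ (closedBall 0 r)).finiteSupport (isCompact_closedBall 0 r)
  obtain ⟨g, hg1, hg2, hg3⟩ := hmer.extract_zeros_poles horder hfin
  set D := divisor φ (closedBall 0 r) with hD
  have hDnn : ∀ u, 0 ≤ D u := by
    have : 0 ≤ D := AnalyticOnNhd.divisor_nonneg hφ
    intro u
    exact this u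
  have hDsupp : ∀ u, D u ≠ 0 → u ∈ closedBall (0 : ℂ) r := fun u hu => D.supportWithinDomain hu
  have hlog := extract_zeros_poles_log hg2 hg3
  -- the value at `w`
  have t1 : AccPt w (𝓟 (closedBall (0 : ℂ) r)) := by
    apply accPt_iff_frequently_nhdsNE.mpr
    apply compl_notMem
    apply mem_nhdsWithin.mpr
    refine ⟨ball 0 r, isOpen_ball, hw, ?_⟩
    rintro z ⟨hz, _⟩
    simpa using ball_subset_closedBall hz
  have hval : Real.log ‖φ w‖ = ∑ᶠ u, (D u) * Real.log ‖w - u‖ + Real.log ‖g w‖ := by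
    have h1 := MeromorphicOn.log_norm_meromorphicTrailingCoeffAt_extract_zeros_poles hfin hwc t1
      (hmer w hwc) (hg1 w hwc) (hg2 ⟨w, hwc⟩) hg3
    rwa [(hφ w hwc).meromorphicTrailingCoeffAt_of_ne_zero hφw] at h1
  have hDw : D w = 0 := by
    rw [hD, divisor_apply hmer hwc]
    have h1 : meromorphicOrderAt φ w = 0 := by
      rw [(hφ w hwc).meromorphicNFAt.meromorphicOrderAt_eq_zero_iff]
      exact hφw
    rw [h1]
    rfl
  -- the circle average
  have hsum : ∀ z, (∑ᶠ u, (D u * Real.log ‖· - u‖) : ℂ → ℝ) z =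
      ∑ u ∈ hfin.toFinset, D u * Real.log ‖z - u‖ := by
    intro z
    rw [finsum_eq_sum_of_support_subset (s := hfin.toFinset)]
    · simp
    · intro u
      contrapose
      intro hu
      have : D u = 0 := by
        simpa using hu
      simp only [Function.mem_support, ne_eq, not_not, this, Int.cast_zero]
      funext x
      simp
  have havg : circleAverage ((Complex.re ∘ herglotzRieszKernel 0 w) *
      (fun z => Real.log ‖φ z‖)) 0 r =
      ∑ u ∈ hfin.toFinset, D u * circleAverage ((Complex.re ∘ herglotzRieszKernel 0 w) *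
        (fun z => Real.log ‖z - u‖)) 0 r + Real.log ‖g w‖ := by
    have h1 : circleAverage ((Complex.re ∘ herglotzRieszKernel 0 w) *
        (fun z => Real.log ‖φ z‖)) 0 r =
        circleAverage ((∑ u ∈ hfin.toFinset, (D u : ℝ) • ((Complex.re ∘ herglotzRieszKernel 0 w) *
        (fun z => Real.log ‖z - u‖))) + ((Complex.re ∘ herglotzRieszKernel 0 w) *
        (fun z => Real.log ‖g z‖))) 0 r := by
      apply circleAverage_congr_codiscreteWithin _ hr.ne'
      rw [abs_of_pos hr]
      have h2 := codiscreteWithin_mono (sphere_subset_closedBall (x := (0 : ℂ)) (ε := r)) hlog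
      filter_upwards [h2] with z hz
      simp only [Pi.mul_apply, Pi.add_apply, Finset.sum_apply, Pi.smul_apply, smul_eq_mul] at hz ⊢
      rw [hz, hsum, mul_add, Finset.mul_sum]
      congr 1
      refine Finset.sum_congr rfl fun u _ => ?_
      ring
    have hint : ∀ u : ℂ, CircleIntegrable (fun z => Real.log ‖z - u‖) 0 r := fun u =>
      circleIntegrable_log_norm_sub_const r
    have hintg : CircleIntegrable (fun z => Real.log ‖g z‖) 0 r := by
      apply MeromorphicOn.circleIntegrable_log_norm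
      rw [abs_of_pos hr]
      exact (hg1.mono sphere_subset_closedBall).meromorphicOn
    rw [h1, circleAverage_add, circleAverage_sum]
    · congr 1
      · refine Finset.sum_congr rfl fun u _ => ?_
        rw [circleAverage_smul, smul_eq_mul]
      · have h3 : HarmonicOnNhd (fun z : ℂ => Real.log ‖g z‖) (closedBall 0 r) := by
          intro z hz
          exact AnalyticAt.harmonicAt_log_norm (hg1 z hz) (hg2 ⟨z, hz⟩)
        exact HarmonicOnNhd.circleAverage_re_herglotzRieszKernel_smul h3 hw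
    · intro u _
      exact (kernel_mul_integrable hw (hint u)).const_smul
    · apply CircleIntegrable.sum
      intro u _
      exact (kernel_mul_integrable hw (hint u)).const_smul
    · exact kernel_mul_integrable hw hintg
  rw [hval, havg]
  have hfs : ∑ᶠ u, (D u) * Real.log ‖w - u‖ = ∑ u ∈ hfin.toFinset, D u * Real.log ‖w - u‖ := by
    rw [finsum_eq_sum_of_support_subset]
    intro u
    contrapose
    intro hu
    have : D u = 0 := by
      simpa using hu
    simp [this]
  rw [hfs]
  gcongr with u hu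
  · exact_mod_cast hDnn u
  · have hDu : D u ≠ 0 := by simpa using hu
    apply log_sub_le (hDsupp u hDu) hw
    rintro rfl
    exact hDu hDw

theorem circleMap_eq (r x : ℝ) : circleMap 0 r (2 * π * x) = (r : ℂ) * ee x := by
  rw [circleMap, ee, zero_add]

/-- The circle average as an integral over one turn. -/
theorem circleAverage_eq (F : ℂ → ℝ) (r a : ℝ) :
    circleAverage F 0 r = ∫ x in a..(a + 1), F ((r : ℂ) * ee x) := by
  have hpi : (2 * π) ≠ 0 := by positivity
  rw [circleAverage_eq_integral_add (2 * π * a),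
    intervalIntegral.integral_comp_add_right (fun θ => F (circleMap 0 r θ)), zero_add]
  have h1 : ∫ x in a..(a + 1), F ((r : ℂ) * ee x) =
      ∫ x in a..(a + 1), (fun θ => F (circleMap 0 r θ)) (2 * π * x) := by
    apply intervalIntegral.integral_congr
    intro x _
    simp only [circleMap_eq]
  rw [h1, intervalIntegral.integral_comp_mul_left (fun θ => F (circleMap 0 r θ)) hpi]
  congr 2
  ring

theorem intervalIntegrable_of_circle {F : ℂ → ℝ} {r : ℝ} (a : ℝ) (hF : CircleIntegrable F 0 r) :
    IntervalIntegrable (fun x => F ((r : ℂ) * ee x)) volume a (a + 1) := by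
  have hpi : (2 * π) ≠ 0 := by positivity
  have hper : Function.Periodic (fun θ => F (circleMap 0 r θ)) (2 * π) := fun x => by
    simp [periodic_circleMap 0 r x]
  have h1 : IntervalIntegrable (fun θ => F (circleMap 0 r θ)) volume
      (2 * π * a) (2 * π * (a + 1)) := hper.intervalIntegrable₀ hpi hF _ _
  have h2 := h1.comp_mul_left (c := 2 * π)
  rw [mul_div_cancel_left₀ _ hpi, mul_div_cancel_left₀ _ hpi] at h2
  refine h2.congr ?_
  intro x _
  simp only [circleMap_eq]

theorem ae_ne_zero {φ : ℂ → ℂ} {r : ℝ} {w : ℂ}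
    (hφ : AnalyticOnNhd ℂ φ (closedBall 0 r)) (hw : w ∈ ball (0 : ℂ) r) (hφw : φ w ≠ 0) :
    ∀ᵐ x : ℝ, φ ((r : ℂ) * ee x) ≠ 0 := by
  have hr : 0 < r := pos_of_mem_ball hw
  have hpi : (2 * π) ≠ 0 := by positivity
  have h1 : φ ⁻¹' {0}ᶜ ∈ codiscreteWithin (closedBall (0 : ℂ) r) :=
    hφ.preimage_zero_mem_codiscreteWithin hφw (ball_subset_closedBall hw)
      (Metric.isConnected_closedBall hr.le)
  have h2 : φ ⁻¹' {0}ᶜ ∈ codiscreteWithin (sphere (0 : ℂ) |r|) := by
    rw [abs_of_pos hr]
    exact codiscreteWithin_mono sphere_subset_closedBall h1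
  have h3 := circleMap_preimage_codiscrete hr.ne' h2
  have h4 : (circleMap 0 r) ⁻¹' (φ ⁻¹' {0}ᶜ) ∈ ae (volume : Measure ℝ) := by
    have := ae_restrict_le_codiscreteWithin (μ := (volume : Measure ℝ)) MeasurableSet.univ h3
    rwa [Measure.restrict_univ] at this
  have h5 : (fun x : ℝ => 2 * π * x) ⁻¹' ((circleMap 0 r) ⁻¹' (φ ⁻¹' {0}ᶜ)) ∈
      ae (volume : Measure ℝ) := by
    rw [mem_ae_iff] at h4 ⊢
    rw [← Set.preimage_compl, Real.volume_preimage_mul_left hpi, h4, mul_zero]
  filter_upwards [h5] with x hx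
  simp only [Set.mem_preimage, circleMap_eq] at hx
  exact hx

end TwoConst

open TwoConst in
theorem two_const {φ : ℂ → ℂ} {r A κ H a : ℝ} {w : ℂ} (hr : 0 < r)
    (hφ : AnalyticOnNhd ℂ φ (closedBall 0 r)) (hw : w ∈ ball (0 : ℂ) r) (hφw : φ w ≠ 0)
    (hA : 0 ≤ A) (hH : 0 ≤ H)
    (hbd : ∀ z ∈ sphere (0 : ℂ) r, ‖φ z‖ ≤ Real.exp A)
    {S : Set ℝ} (hS : MeasurableSet S) (hSsub : S ⊆ Set.Ioc a (a + 1))
    (hsm : ∀ x ∈ S, ‖φ ((r : ℂ) * ee x)‖ ≤ Real.exp (-H))
    (hκ : 0 ≤ κ) (hP : ∀ x ∈ S, κ * ‖(r : ℂ) * ee x - w‖ ^ 2 ≤ r ^ 2 - ‖w‖ ^ 2) :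
    Real.log ‖φ w‖ ≤ A - κ * (volume S).toReal * H := by
  have hnormee : ∀ x : ℝ, ‖(r : ℂ) * ee x‖ = r := by
    intro x
    rw [← circleMap_eq, norm_circleMap_zero, abs_of_pos hr]
  have hwn : ‖w‖ < r := mem_ball_zero_iff.1 hw
  set P : ℂ → ℝ := Complex.re ∘ herglotzRieszKernel 0 w with hPdef
  have hPval : ∀ x : ℝ, P ((r : ℂ) * ee x) =
      (r ^ 2 - ‖w‖ ^ 2) / ‖(r : ℂ) * ee x - w‖ ^ 2 := by
    intro x
    rw [hPdef, ← poissonKernel_eq_re_herglotzRieszKernel, poissonKernel_def, sub_zero, sub_zero,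
      hnormee]
  have hpos : ∀ x : ℝ, 0 < ‖(r : ℂ) * ee x - w‖ ^ 2 := by
    intro x
    apply pow_pos
    rw [norm_pos_iff, sub_ne_zero]
    intro h
    have := hnormee x
    rw [h] at this
    exact absurd this hwn.ne
  have hPnn : ∀ x : ℝ, 0 ≤ P ((r : ℂ) * ee x) := by
    intro x
    rw [hPval]
    apply div_nonneg _ (hpos x).le
    nlinarith [norm_nonneg w]
  have hPκ : ∀ x ∈ S, κ ≤ P ((r : ℂ) * ee x) := by
    intro x hx
    rw [hPval, le_div_iff₀ (hpos x)]
    exact hP x hx
  -- integrability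
  have hlogint : CircleIntegrable (fun z => Real.log ‖φ z‖) 0 r := by
    apply MeromorphicOn.circleIntegrable_log_norm
    rw [abs_of_pos hr]
    exact (hφ.mono sphere_subset_closedBall).meromorphicOn
  have hint1 : IntervalIntegrable (fun x => P ((r : ℂ) * ee x) *
      Real.log ‖φ ((r : ℂ) * ee x)‖) volume a (a + 1) :=
    intervalIntegrable_of_circle a (kernel_mul_integrable hw hlogint)
  have hone : CircleIntegrable (fun _ => (1 : ℝ)) 0 r := circleIntegrable_const 1 0 r
  have hint2 : IntervalIntegrable (fun x => P ((r : ℂ) * ee x) * 1) volume a (a + 1) :=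
    intervalIntegrable_of_circle a (kernel_mul_integrable hw hone)
  have hP1 : ∫ x in a..(a + 1), P ((r : ℂ) * ee x) * 1 = 1 := by
    have h1 : InnerProductSpace.HarmonicOnNhd (fun _ : ℂ => (1 : ℝ)) (closedBall 0 r) := by
      intro z _
      have := AnalyticAt.harmonicAt_log_norm (f := fun _ : ℂ => (Real.exp 1 : ℂ)) (z := z)
        analyticAt_const (by simp [Complex.exp_ne_zero])
      simpa [Complex.norm_exp] using this
    have h2 := InnerProductSpace.HarmonicOnNhd.circleAverage_re_herglotzRieszKernel_smul h1 hw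
    rw [circleAverage_eq _ r a] at h2
    exact h2
  have hkey : Real.log ‖φ w‖ ≤ ∫ x in a..(a + 1), P ((r : ℂ) * ee x) *
      Real.log ‖φ ((r : ℂ) * ee x)‖ := by
    have h1 := poisson_jensen hφ hw hφw
    rw [circleAverage_eq _ r a] at h1
    exact h1
  have hind : IntegrableOn (S.indicator fun _ => κ * H) (Set.Ioc a (a + 1)) volume := by
    apply Integrable.indicator _ hS
    exact integrableOn_const (by simp)
  have hfin : ∫ x in a..(a + 1), P ((r : ℂ) * ee x) * Real.log ‖φ ((r : ℂ) * ee x)‖ ≤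
      ∫ x in a..(a + 1), (A * (P ((r : ℂ) * ee x) * 1) - S.indicator (fun _ => κ * H) x) := by
    rw [intervalIntegral.integral_of_le (by linarith), intervalIntegral.integral_of_le (by linarith)]
    apply integral_mono_ae
    · exact (intervalIntegrable_iff_integrableOn_Ioc_of_le (by linarith)).1 hint1
    · exact ((intervalIntegrable_iff_integrableOn_Ioc_of_le (by linarith)).1
        (hint2.const_mul A)).sub hind
    · filter_upwards [ae_restrict_of_ae (ae_ne_zero hφ hw hφw)] with x hx
      have hmem : (r : ℂ) * ee x ∈ sphere (0 : ℂ) r := by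
        rw [mem_sphere_zero_iff_norm, hnormee]
      by_cases hxS : x ∈ S
      · rw [Set.indicator_of_mem hxS]
        have h1 : Real.log ‖φ ((r : ℂ) * ee x)‖ ≤ -H := by
          rw [Real.log_le_iff_le_exp (norm_pos_iff.2 hx)]
          exact hsm x hxS
        have h2 := hPκ x hxS
        have h3 := hPnn x
        nlinarith [mul_le_mul_of_nonneg_left h1 h3, mul_le_mul_of_nonneg_right h2 hH,
          mul_nonneg hA h3]
      · rw [Set.indicator_of_notMem hxS]
        have h1 : Real.log ‖φ ((r : ℂ) * ee x)‖ ≤ A := by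
          rw [Real.log_le_iff_le_exp (norm_pos_iff.2 hx)]
          exact hbd _ hmem
        nlinarith [mul_le_mul_of_nonneg_left h1 (hPnn x)]
  have hval : ∫ x in a..(a + 1), (A * (P ((r : ℂ) * ee x) * 1) -
      S.indicator (fun _ => κ * H) x) = A - κ * (volume S).toReal * H := by
    have hind' : IntervalIntegrable (S.indicator fun _ => κ * H) volume a (a + 1) :=
      (intervalIntegrable_iff_integrableOn_Ioc_of_le (by linarith)).2 hind
    rw [intervalIntegral.integral_sub (hint2.const_mul A) hind',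
      intervalIntegral.integral_const_mul, hP1, mul_one]
    congr 1
    rw [intervalIntegral.integral_of_le (by linarith), setIntegral_indicator hS,
      Set.inter_eq_self_of_subset_right hSsub, setIntegral_const, smul_eq_mul, Measure.real]
    ring
  linarith

end Pool.Agent.Lib.BrownShields
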