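import Pool.Agent.Lib.BrownShields.Pos
import Pool.Agent.Lib.BrownShields.TwoConst

set_option autoImplicit false

/-!
Step B of the counterexample to the Brown-Shields conjecture (MP_d9131c_an): smallness of `phi` on
half of the children of an arc forces smallness at the depth `ss` of the arc (`stepB`), and at the top
it contradicts `1 / 2 < |phi 0|` (`top_contra`). Both use the two constants theorem `two_const`.
-/

namespace Pool.Agent.Lib.BrownShields.StepB

open Complex Finset MeasureTheory Metric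
open Pool.Agent.Lib.BrownShields

/-- the volume of a union of separated small intervals -/
theorem vol_union (T : Finset ℕ) (x : ℕ → ℝ) (L : ℝ) (hL : 0 < L)
    (hsep : ∀ a ∈ T, ∀ b ∈ T, a < b → x a + L ≤ x b) :
    (volume (⋃ k ∈ T, Set.Icc (x k - L / 16) (x k + L / 16))).toReal = T.card * (L / 8) := by
  have hdis : Set.PairwiseDisjoint (↑T : Set ℕ)
      (fun k : ℕ => Set.Icc (x k - L / 16) (x k + L / 16)) := by
    intro a ha b hb hab
    have key : ∀ a ∈ T, ∀ b ∈ T, a < b →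
        Disjoint (Set.Icc (x a - L / 16) (x a + L / 16)) (Set.Icc (x b - L / 16) (x b + L / 16)) := by
      intro a ha b hb hlt
      rw [Set.disjoint_left]
      intro y hy hy'
      have h1 := hsep a ha b hb hlt
      have h2 := hy.2
      have h3 := hy'.1
      linarith
    rcases lt_or_gt_of_ne hab with h | h
    · exact key a ha b hb h
    · exact (key b hb a ha h).symm
  rw [measure_biUnion_finset hdis (fun k _ => measurableSet_Icc)]
  have h1 : ∀ k ∈ T, volume (Set.Icc (x k - L / 16) (x k + L / 16)) = ENNReal.ofReal (L / 8) := by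
    intro k _
    rw [Real.volume_Icc]
    congr 1
    ring
  rw [Finset.sum_congr rfl h1, Finset.sum_const, nsmul_eq_mul, ENNReal.toReal_mul,
    ENNReal.toReal_natCast, ENNReal.toReal_ofReal (by positivity)]

theorem m_le_MM (m : ℕ → ℕ) (i : ℕ) : m i ≤ MM m i := Nat.lt_two_pow_self.le

theorem MM_ge {m : ℕ → ℕ} (hm : Par m) (i : ℕ) : 1000 ≤ MM m i :=
  (thousand_le hm i).trans (m_le_MM m i)

/-- `dd * 2 ^ MM = ss * 2 ^ JJ` -/
theorem dd_ss (m : ℕ → ℕ) (i : ℕ) : dd m i * 2 ^ MM m i = ss m i * 2 ^ JJ m i := by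
  rw [dd_eq, ss_mul]

theorem nn_ge {m : ℕ → ℕ} (hm : Par m) (i : ℕ) : 1000 ≤ nn m i := by
  have h1 := MM_ge hm i
  have h2 : MM m i < 2 ^ MM m i := Nat.lt_two_pow_self
  have h3 : 2 ^ MM m i < 2 ^ (2 ^ MM m i) := Nat.lt_two_pow_self
  unfold nn
  omega

theorem LL_succ_le {m : ℕ → ℕ} (hm : Par m) (i : ℕ) : LL m (i + 1) * 1000 ≤ dd m i := by
  rw [← LL_succ m i]
  have h : (1000 : ℝ) ≤ nn m i := by exact_mod_cast nn_ge hm i
  exact mul_le_mul_of_nonneg_left h (LL_pos m (i + 1)).le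

theorem hgrow_A {φ : ℂ → ℂ}
    (hgrow : ∀ (t : ℝ) (z : ℂ), 0 < t → t ≤ 1 → ‖z‖ ≤ 1 - t →
      ‖φ z‖ ≤ 2 * Real.sqrt (1 + Real.log (1 / t))) {t : ℝ} (ht : 0 < t) (ht1 : t ≤ 1) {C : ℝ}
    (hC : 1 + Real.log (1 / t) ≤ C) (hC0 : 0 < C) :
    ∀ z : ℂ, ‖z‖ ≤ 1 - t → ‖φ z‖ ≤ Real.exp (Real.log 2 + Real.log C / 2) := by
  intro z hz
  refine (hgrow t z ht ht1 hz).trans ?_
  rw [Real.exp_add, Real.exp_log (by norm_num : (0 : ℝ) < 2)]
  refine mul_le_mul_of_nonneg_left ?_ (by norm_num)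
  have : Real.exp (Real.log C / 2) = Real.sqrt C := by
    rw [Real.sqrt_eq_rpow, Real.rpow_def_of_pos hC0]
    congr 1
    ring
  rw [this]
  exact Real.sqrt_le_sqrt hC

theorem norm_pt_sub_le {s t : ℝ} (hs : s ≤ 1) (ht : t ≤ s) (x y : ℝ) :
    ‖pt t x - pt s y‖ ≤ (s - t) + (1 - s) * (2 * Real.pi * |x - y|) := by
  have h1 : pt t x - pt s y = ((s - t : ℝ) : ℂ) * ee x + ((1 - s : ℝ) : ℂ) * (ee x - ee y) := by
    unfold pt
    push_cast
    ring
  rw [h1]
  refine (norm_add_le _ _).trans ?_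
  rw [norm_mul, norm_mul, norm_ee, mul_one, Complex.norm_real, Complex.norm_real,
    Real.norm_eq_abs, Real.norm_eq_abs, abs_of_nonneg (by linarith : 0 ≤ s - t),
    abs_of_nonneg (by linarith : 0 ≤ 1 - s)]
  have := ee_sub_le x y
  have h2 := mul_le_mul_of_nonneg_left this (by linarith : 0 ≤ 1 - s)
  linarith

end Pool.Agent.Lib.BrownShields.StepB

namespace Pool.Agent.Lib.BrownShields

open Complex Finset MeasureTheory Metric
open StepB

theorem stepB {m : ℕ → ℕ} (hm : Par m) {φ : ℂ → ℂ} (hφ : DifferentiableOn ℂ φ (ball 0 1))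
    (hgrow : ∀ (t : ℝ) (z : ℂ), 0 < t → t ≤ 1 → ‖z‖ ≤ 1 - t →
      ‖φ z‖ ≤ 2 * Real.sqrt (1 + Real.log (1 / t)))
    (i j : ℕ) (_hj : j < MM m i)
    (hgood : ∃ T ⊆ range (nn m i), nn m i ≤ 2 * T.card ∧
      ∀ k ∈ T, Good m φ (i + 1) (j * nn m i + k)) :
    ‖φ (pt (ss m i) (xx m i j))‖ ≤ et m i / 2 := by
  obtain ⟨T, hT, hcard, hTg⟩ := hgood
  have het : 0 < et m i := Real.exp_pos _
  by_cases hφw : φ (pt (ss m i) (xx m i j)) = 0
  · rw [hφw, norm_zero]
    exact (half_pos het).le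
  -- notation
  have hL'pos : 0 < LL m (i + 1) := LL_pos m (i + 1)
  have hdpos : 0 < dd m i := dd_pos m i
  have hspos : 0 < ss m i := ss_pos m i
  have hds : dd m i ≤ ss m i := dd_le_ss hm i
  have hL'd : LL m (i + 1) * 1000 ≤ dd m i := LL_succ_le hm i
  have hsL : ss m i ≤ LL m i := ss_le_LL m i
  have hL1 : LL m i ≤ 1 / 1000 := LL_le_small hm i
  have hs1 : ss m i ≤ 1 / 1000 := hsL.trans hL1
  have hd1 : dd m i ≤ 1 / 1000 := hds.trans hs1
  have hx : ∀ k ∈ T, xx m (i + 1) (j * nn m i + k) =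
      xx m i j + ((k : ℝ) - ((nn m i : ℝ) - 1) / 2) * LL m (i + 1) := fun k hk =>
    xx_child_eq m i j k (Finset.mem_range.1 (hT hk))
  set N := nn m i with hN
  set L' := LL m (i + 1) with hL'
  set d := dd m i with hd
  set s := ss m i with hs
  set x0 := xx m i j with hx0
  have hNL : L' * N = d := LL_succ m i
  let x : ℕ → ℝ := fun k => xx m (i + 1) (j * N + k)
  have hxdef : ∀ k ∈ T, x k = x0 + ((k : ℝ) - ((N : ℝ) - 1) / 2) * L' := hx
  have hsep : ∀ a ∈ T, ∀ b ∈ T, a < b → x a + L' ≤ x b := by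
    intro a ha b hb hab
    rw [hxdef a ha, hxdef b hb]
    have : (a : ℝ) + 1 ≤ b := by exact_mod_cast hab
    nlinarith
  set S : Set ℝ := ⋃ k ∈ T, Set.Icc (x k - L' / 16) (x k + L' / 16) with hSdef
  have hvol : (volume S).toReal = T.card * (L' / 8) := vol_union T x L' hL'pos hsep
  have hSmem : ∀ y ∈ S, ∃ k ∈ T, |y - x k| ≤ L' / 16 := by
    intro y hy
    rw [hSdef] at hy
    simp only [Set.mem_iUnion, exists_prop] at hy
    obtain ⟨k, hk, hy1, hy2⟩ := hy
    refine ⟨k, hk, ?_⟩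
    rw [abs_le]
    constructor <;> linarith
  have hSx0 : ∀ y ∈ S, |y - x0| ≤ d / 2 := by
    intro y hy
    obtain ⟨k, hk, hky⟩ := hSmem y hy
    have hkN : k < N := Finset.mem_range.1 (hT hk)
    have hkN' : (k : ℝ) + 1 ≤ N := by exact_mod_cast hkN
    have hk0 : (0 : ℝ) ≤ k := Nat.cast_nonneg k
    rw [hxdef k hk] at hky
    rw [abs_le] at hky ⊢
    have e1 : (k : ℝ) * L' + L' ≤ d := by
      rw [← hNL]
      nlinarith
    have e2 : (0 : ℝ) ≤ k * L' := mul_nonneg hk0 hL'pos.le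
    have e3 : ((k : ℝ) - ((N : ℝ) - 1) / 2) * L' = k * L' - d / 2 + L' / 2 := by
      rw [← hNL]; ring
    rw [e3] at hky
    constructor <;> linarith [hky.1, hky.2]
  -- Constants
  have hAC : 1 + Real.log (1 / L') ≤ 2 ^ (MM m i + 2) := by
    rw [hL', log_inv_LL]
    have h1 : ll m (i + 1) ≤ 2 * m (i + 1) := ll_le hm (i + 1)
    have h2 : m (i + 1) = m i + 2 ^ MM m i := hm.hs i
    have h3 : m i ≤ 2 ^ MM m i := (m_le_MM m i).trans Nat.lt_two_pow_self.le
    have h4 : ll m (i + 1) ≤ 4 * 2 ^ MM m i := by omega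
    have h5 : (ll m (i + 1) : ℝ) ≤ 4 * 2 ^ MM m i := by exact_mod_cast h4
    have h6 : Real.log 2 ≤ 0.7 := by
      have := Real.log_two_lt_d9; linarith
    have h7 : 0 ≤ Real.log 2 := Real.log_nonneg (by norm_num)
    have h8 : (1 : ℝ) ≤ 2 ^ MM m i := one_le_pow₀ (by norm_num)
    have h9 : (ll m (i + 1) : ℝ) * Real.log 2 ≤ 4 * 2 ^ MM m i * 0.7 := by
      refine mul_le_mul h5 h6 h7 (by positivity)
    rw [pow_add]
    linarith
  have hA := hgrow_A hgrow hL'pos (by linarith : L' ≤ 1) hAC (by positivity)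
  have hlogA : Real.log 2 + Real.log ((2 : ℝ) ^ (MM m i + 2)) / 2 =
      Real.log 2 * (2 + (MM m i : ℝ) / 2) := by
    rw [Real.log_pow]
    push_cast
    ring
  rw [hlogA] at hA
  have hl2 : 0 < Real.log 2 := Real.log_pos (by norm_num)
  have hmain := two_const (φ := φ) (r := 1 - L') (A := Real.log 2 * (2 + (MM m i : ℝ) / 2))
    (κ := 1 / (35 * s)) (H := (m (i + 1) : ℝ) * Real.log 2 / 4) (a := x0 - 1 / 2)
    (w := pt s x0) (by linarith) ?_ ?_ hφw (by positivity) (by positivity) ?_ (S := S) ?_ ?_ ?_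
    (by positivity) ?_
  rotate_left
  · -- analytic
    intro z hz
    refine (hφ.analyticOnNhd isOpen_ball) z ?_
    rw [mem_ball_zero_iff]
    rw [mem_closedBall_zero_iff] at hz
    linarith
  · rw [mem_ball_zero_iff, norm_pt (by linarith)]
    linarith
  · intro z hz
    rw [mem_sphere_zero_iff_norm] at hz
    exact hA z hz.le
  · exact Finset.measurableSet_biUnion _ (fun k _ => measurableSet_Icc)
  · intro y hy
    have := hSx0 y hy
    rw [abs_le] at this
    constructor <;> linarith [this.1, this.2]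
  · intro y hy
    obtain ⟨k, hk, hky⟩ := hSmem y hy
    have h1 := hTg k hk (y - x k) hky
    have h2 : xx m (i + 1) (j * N + k) + (y - x k) = y := by
      show x k + (y - x k) = y
      ring
    rw [h2] at h1
    exact h1
  · intro y hy
    have h1 := hSx0 y hy
    have h2 := norm_pt_sub_le (by linarith : s ≤ 1) (by linarith : L' ≤ s) y x0
    have hpi : Real.pi ≤ 3.15 := by linarith [Real.pi_lt_d2]
    have hpi0 : 0 < Real.pi := Real.pi_pos
    have h3 : ‖pt L' y - pt s x0‖ ≤ 4.15 * s := by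
      have h4 : 2 * Real.pi * |y - x0| ≤ 3.15 * s := by
        calc 2 * Real.pi * |y - x0| ≤ 2 * Real.pi * (d / 2) := by gcongr
          _ = Real.pi * d := by ring
          _ ≤ 3.15 * s := by gcongr
      have h5 : 0 ≤ 2 * Real.pi * |y - x0| := by positivity
      nlinarith
    have h6 : ((1 - L' : ℝ) : ℂ) * ee y - pt s x0 = pt L' y - pt s x0 := rfl
    rw [h6, norm_pt (by linarith)]
    have h7 : ‖pt L' y - pt s x0‖ ^ 2 ≤ (4.15 * s) ^ 2 := by
      gcongr
    have h8 : 1 / (35 * s) * ‖pt L' y - pt s x0‖ ^ 2 ≤ 1 / (35 * s) * (4.15 * s) ^ 2 := by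
      gcongr
    have h9 : 1 / (35 * s) * (4.15 * s) ^ 2 ≤ 0.5 * s := by
      rw [div_mul_eq_mul_div, div_le_iff₀ (by positivity)]
      nlinarith
    have h10 : 0.5 * s ≤ (1 - L') ^ 2 - (1 - s) ^ 2 := by nlinarith
    linarith
  -- final estimate
  have hvolge : d / 16 ≤ (volume S).toReal := by
    rw [hvol, ← hNL]
    have : (N : ℝ) ≤ 2 * T.card := by exact_mod_cast hcard
    nlinarith
  have hMM := dd_ss m i
  have hJ : (2 : ℝ) ^ JJ m i = 8192 * MM m i := by
    unfold JJ MM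
    rw [pow_add]
    push_cast
    ring
  have hH : (2 : ℝ) ^ MM m i ≤ m (i + 1) := by
    have h2 : m (i + 1) = m i + 2 ^ MM m i := hm.hs i
    have h3 : 2 ^ MM m i ≤ m (i + 1) := by omega
    exact_mod_cast h3
  have hprod : 1 / (35 * s) * (volume S).toReal * ((m (i + 1) : ℝ) * Real.log 2 / 4) ≥
      8192 / 2240 * MM m i * Real.log 2 := by
    have h1 : 1 / (35 * s) * (volume S).toReal * ((m (i + 1) : ℝ) * Real.log 2 / 4) ≥
        1 / (35 * s) * (d / 16) * ((2 : ℝ) ^ MM m i * Real.log 2 / 4) := by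
      gcongr
    have h2 : 1 / (35 * s) * (d / 16) * ((2 : ℝ) ^ MM m i * Real.log 2 / 4) =
        8192 / 2240 * MM m i * Real.log 2 := by
      have h3 : d * 2 ^ MM m i = s * (8192 * MM m i) := by rw [← hJ]; exact hMM
      have h4 : 1 / (35 * s) * (d / 16) * ((2 : ℝ) ^ MM m i * Real.log 2 / 4) =
        (d * 2 ^ MM m i) * (Real.log 2 / (2240 * s)) := by
        field_simp
        ring
      rw [h4, h3]
      field_simp
    linarith
  have hlogle : Real.log ‖φ (pt s x0)‖ ≤ -((m i : ℝ) * Real.log 2 / 4) - Real.log 2 := by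
    have h1 : (m i : ℝ) ≤ MM m i := by exact_mod_cast m_le_MM m i
    have h2 : (1000 : ℝ) ≤ MM m i := by exact_mod_cast MM_ge hm i
    have h3 : (2 + (MM m i : ℝ) / 2) + (m i : ℝ) / 4 + 1 ≤ 8192 / 2240 * MM m i := by
      linarith
    have h4 := mul_le_mul_of_nonneg_left h3 hl2.le
    have h5 : Real.log ‖φ (pt s x0)‖ ≤ Real.log 2 * (2 + (MM m i : ℝ) / 2) -
        8192 / 2240 * MM m i * Real.log 2 := hmain.trans (sub_le_sub_left hprod _)
    refine h5.trans ?_
    rw [mul_add, mul_add] at h4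
    linarith
  have hnorm : 0 < ‖φ (pt s x0)‖ := norm_pos_iff.2 hφw
  rw [← Real.exp_log hnorm]
  refine (Real.exp_le_exp.2 hlogle).trans (le_of_eq ?_)
  rw [Real.exp_sub, Real.exp_log (by norm_num : (0 : ℝ) < 2)]
  rfl

theorem top_contra {m : ℕ → ℕ} (hm : Par m) {φ : ℂ → ℂ} (hφ : DifferentiableOn ℂ φ (ball 0 1))
    (hgrow : ∀ (t : ℝ) (z : ℂ), 0 < t → t ≤ 1 → ‖z‖ ≤ 1 - t →
      ‖φ z‖ ≤ 2 * Real.sqrt (1 + Real.log (1 / t)))
    (h0 : 1 / 2 < ‖φ 0‖)
    (hgood : ∃ T ⊆ range (MM m 0), MM m 0 ≤ 2 * T.card ∧ ∀ k ∈ T, Good m φ 0 k) :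
    False := by
  obtain ⟨T, hT, hcard, hTg⟩ := hgood
  have hφw : φ 0 ≠ 0 := by
    intro h
    rw [h, norm_zero] at h0
    norm_num at h0
  have hL'pos : 0 < LL m 0 := LL_pos m 0
  have hL1 : LL m 0 ≤ 1 / 1000 := LL_le_small hm 0
  have hLM : LL m 0 * MM m 0 = 1 := by
    unfold LL MM ll
    push_cast
    rw [one_div_mul_cancel]
    positivity
  have hm0 : m 0 = 1000 := hm.h0
  have hlog : Real.log (1 / LL m 0) = 1000 * Real.log 2 := by
    rw [log_inv_LL]
    show ((m 0 : ℕ) : ℝ) * Real.log 2 = _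
    rw [hm0]
    norm_num
  set L := LL m 0 with hL
  set N := MM m 0 with hN
  let x : ℕ → ℝ := fun k => xx m 0 k
  have hxdef : ∀ k, x k = (k : ℝ) * L := fun k => rfl
  have hsep : ∀ a ∈ T, ∀ b ∈ T, a < b → x a + L ≤ x b := by
    intro a ha b hb hab
    rw [hxdef a, hxdef b]
    have : (a : ℝ) + 1 ≤ b := by exact_mod_cast hab
    nlinarith
  set S : Set ℝ := ⋃ k ∈ T, Set.Icc (x k - L / 16) (x k + L / 16) with hSdef
  have hvol : (volume S).toReal = T.card * (L / 8) := vol_union T x L hL'pos hsep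
  have hSmem : ∀ y ∈ S, ∃ k ∈ T, |y - x k| ≤ L / 16 := by
    intro y hy
    rw [hSdef] at hy
    simp only [Set.mem_iUnion, exists_prop] at hy
    obtain ⟨k, hk, hy1, hy2⟩ := hy
    refine ⟨k, hk, ?_⟩
    rw [abs_le]
    constructor <;> linarith
  have hAC : 1 + Real.log (1 / L) ≤ 2 ^ 10 := by
    rw [hlog]
    have := Real.log_two_lt_d9
    linarith
  have hA := hgrow_A hgrow hL'pos (by linarith : L ≤ 1) hAC (by positivity)
  have hlogA : Real.log 2 + Real.log ((2 : ℝ) ^ 10) / 2 = 6 * Real.log 2 := by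
    rw [Real.log_pow]
    push_cast
    ring
  rw [hlogA] at hA
  have hl2 : 0 < Real.log 2 := Real.log_pos (by norm_num)
  have hmain := two_const (φ := φ) (r := 1 - L) (A := 6 * Real.log 2)
    (κ := 1) (H := (m 0 : ℝ) * Real.log 2 / 4) (a := - (L / 2))
    (w := 0) (by linarith) ?_ ?_ hφw (by positivity) (by positivity) ?_ (S := S) ?_ ?_ ?_
    (by positivity) ?_
  rotate_left
  · -- analytic
    intro z hz
    refine (hφ.analyticOnNhd isOpen_ball) z ?_
    rw [mem_ball_zero_iff]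
    rw [mem_closedBall_zero_iff] at hz
    linarith
  · rw [mem_ball_zero_iff, norm_zero]
    linarith
  · intro z hz
    rw [mem_sphere_zero_iff_norm] at hz
    exact hA z hz.le
  · exact Finset.measurableSet_biUnion _ (fun k _ => measurableSet_Icc)
  · intro y hy
    obtain ⟨k, hk, hky⟩ := hSmem y hy
    have hkN : k < N := Finset.mem_range.1 (hT hk)
    have hkN' : (k : ℝ) + 1 ≤ N := by exact_mod_cast hkN
    have hk0 : (0 : ℝ) ≤ k := Nat.cast_nonneg k
    rw [hxdef k, abs_le] at hky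
    have e1 : (k : ℝ) * L + L ≤ 1 := by
      rw [← hLM]
      nlinarith
    have e2 : (0 : ℝ) ≤ k * L := mul_nonneg hk0 hL'pos.le
    constructor <;> linarith [hky.1, hky.2]
  · intro y hy
    obtain ⟨k, hk, hky⟩ := hSmem y hy
    have h1 := hTg k hk (y - x k) hky
    have h2 : xx m 0 k + (y - x k) = y := by
      show x k + (y - x k) = y
      ring
    rw [h2] at h1
    exact h1
  · intro y hy
    rw [sub_zero, norm_mul, norm_ee, mul_one, Complex.norm_real, Real.norm_eq_abs, sq_abs,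
      norm_zero]
    linarith
  have hvolge : 1 / 16 ≤ (volume S).toReal := by
    rw [hvol]
    have h1 : (N : ℝ) ≤ 2 * T.card := by exact_mod_cast hcard
    have h2 : L * N ≤ L * (2 * T.card) := mul_le_mul_of_nonneg_left h1 hL'pos.le
    rw [hLM] at h2
    linarith
  rw [hm0] at hmain
  have h1 : Real.log ‖φ 0‖ ≤ 6 * Real.log 2 - 1 / 16 * (1000 * Real.log 2 / 4) := by
    have h2 : 1 / 16 * (1000 * Real.log 2 / 4) ≤
        1 * (volume S).toReal * (((1000 : ℕ) : ℝ) * Real.log 2 / 4) := by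
      rw [one_mul]
      push_cast
      gcongr
    linarith
  have h3 : Real.log (1 / 2) < Real.log ‖φ 0‖ := Real.log_lt_log (by norm_num) h0
  rw [one_div, Real.log_inv] at h3
  linarith

end Pool.Agent.Lib.BrownShields
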