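import Pool.Agent.Lib.BrownShields.Growth
import Pool.Agent.Lib.BrownShields.Count
import Pool.Agent.Lib.BrownShields.StepA
import Pool.Agent.Lib.BrownShields.StepB
import Pool.Agent.Lib.BrownShields.Conv
import Pool.Agent.Lib.BrownShields.Energy
import Pool.Agent.Lib.BrownShields.Jensen
import Pool.Agent.Lib.BrownShields.Capacity

set_option autoImplicit false

namespace Pool.Agent.Lib.BrownShields

open Complex Finset MeasureTheory Metric Filter Topology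

theorem no_cyclic {m : ℕ → ℕ} (hm : Par m) {φ : ℂ → ℂ} (hφ : DifferentiableOn ℂ φ (ball 0 1))
    (hD : ∫⁻ z in ball (0 : ℂ) 1, ENNReal.ofReal (‖deriv φ z‖ ^ 2) ≤ ENNReal.ofReal Real.pi)
    (hgrow : ∀ (t : ℝ) (z : ℂ), 0 < t → t ≤ 1 → ‖z‖ ≤ 1 - t →
      ‖φ z‖ ≤ 2 * Real.sqrt (1 + Real.log (1 / t)))
    (h0 : 1 / 2 < ‖φ 0‖)
    (k : ℕ) (hsmall : ∀ j < MM m k, ‖φ (pt (ss m k) (xx m k j))‖ ≤ et m k / 2) :
    False :=
  no_cyclic_of hm (fun i u hu => stepA hm hφ hD i u hu)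
    (fun i j hj h => stepB hm hφ hgrow i j hj h) (fun h => top_contra hm hφ hgrow h0 h) k hsmall

theorem energy_total {m : ℕ → ℕ} (hm : Par m) :
    ∫⁻ z in ball (0 : ℂ) 1, ENNReal.ofReal (‖deriv (ff m) z‖ ^ 2) < ⊤ :=
  energy_total_of hm (GG_tendsto hm)

theorem jensen {m : ℕ → ℕ} (hm : Par m) (F : ℝ → ℂ)
    (hF : ∀ᵐ θ : ℝ, Filter.Tendsto (fun k : ℕ => GG m k (Complex.exp ((θ : ℂ) * Complex.I)))
      Filter.atTop (nhds (F θ)) ∧ F θ ≠ 0) :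
    Real.log ‖ff m 0‖ = (1 / (2 * Real.pi)) * ∫ θ in (0 : ℝ)..(2 * Real.pi), Real.log ‖F θ‖ :=
  JensenAux.jensen_of ((GG_tendsto hm).tendsto_at (by simp)) (ff_zero_ne hm) F hF

end Pool.Agent.Lib.BrownShields
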