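import Pool.Agent.Lib.BrownShields.Defs

set_option autoImplicit false

namespace Pool.Agent.Lib.BrownShields

open Complex Finset MeasureTheory Metric

theorem growth_sum {x : ℝ} (hx0 : 0 ≤ x) (hx1 : x < 1) (N : ℕ) :
    ∑ n ∈ range N, x ^ n / ((n : ℝ) + 1) ≤ 1 - Real.log (1 - x) := by
  have habs : |x| < 1 := by rwa [abs_of_nonneg hx0]
  have hs := Real.hasSum_pow_div_log_of_abs_lt_one habs
  have hfin : ∀ K : ℕ, ∑ n ∈ range K, x ^ (n + 1) / ((n : ℝ) + 1) ≤ -Real.log (1 - x) := by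
    intro K
    refine sum_le_hasSum _ (fun n _ => by positivity) hs
  cases N with
  | zero =>
    have := hfin 0
    simp only [range_zero, sum_empty] at this ⊢
    linarith
  | succ N =>
    rw [sum_range_succ']
    have h1 : ∑ n ∈ range N, x ^ (n + 1) / (((n + 1 : ℕ) : ℝ) + 1) ≤
        ∑ n ∈ range N, x ^ (n + 1) / ((n : ℝ) + 1) := by
      refine sum_le_sum fun n _ => ?_
      refine div_le_div_of_nonneg_left (by positivity) (by positivity) ?_
      push_cast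
      linarith
    have h2 := hfin N
    simp only [pow_zero, Nat.cast_zero, zero_add, div_one]
    linarith

theorem growth {c : ℕ → ℂ} {φ : ℂ → ℂ}
    (hφ : ∀ z ∈ ball (0 : ℂ) 1, HasSum (fun n => c n * z ^ n) (φ z)) {B : ℝ} (hB : 0 ≤ B)
    (hs : Summable (fun n : ℕ => ((n : ℝ) + 1) * ‖c n‖ ^ 2))
    (hsB : ∑' n : ℕ, ((n : ℝ) + 1) * ‖c n‖ ^ 2 ≤ B ^ 2) {z : ℂ} {t : ℝ} (ht0 : 0 < t)
    (ht : t ≤ 1) (hz : ‖z‖ ≤ 1 - t) :
    ‖φ z‖ ≤ B * Real.sqrt (1 + Real.log (1 / t)) := by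
  have hz1 : ‖z‖ < 1 := by linarith
  have hzb : z ∈ ball (0 : ℂ) 1 := by simpa using hz1
  have hnz : 0 ≤ ‖z‖ := norm_nonneg z
  have hx0 : 0 ≤ ‖z‖ ^ 2 := by positivity
  have hx1 : ‖z‖ ^ 2 ≤ 1 - t := by nlinarith
  have hlog : -Real.log (1 - ‖z‖ ^ 2) ≤ Real.log (1 / t) := by
    rw [one_div, Real.log_inv]
    have := Real.log_le_log ht0 (show t ≤ 1 - ‖z‖ ^ 2 by linarith)
    linarith
  have hpart : ∀ N : ℕ, ‖∑ n ∈ range N, c n * z ^ n‖ ≤ B * Real.sqrt (1 + Real.log (1 / t)) := by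
    intro N
    have h1 : ‖∑ n ∈ range N, c n * z ^ n‖ ≤ ∑ n ∈ range N, (Real.sqrt ((n : ℝ) + 1) * ‖c n‖) *
        (‖z‖ ^ n / Real.sqrt ((n : ℝ) + 1)) := by
      refine (norm_sum_le _ _).trans (sum_le_sum fun n _ => ?_)
      rw [norm_mul, norm_pow]
      have hpos : 0 < Real.sqrt ((n : ℝ) + 1) := Real.sqrt_pos.mpr (by positivity)
      apply le_of_eq
      field_simp
    have h2 := Finset.sum_mul_sq_le_sq_mul_sq (range N)
      (fun n => Real.sqrt ((n : ℝ) + 1) * ‖c n‖) (fun n => ‖z‖ ^ n / Real.sqrt ((n : ℝ) + 1))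
    have h3 : ∑ n ∈ range N, (Real.sqrt ((n : ℝ) + 1) * ‖c n‖) ^ 2 ≤ B ^ 2 := by
      refine le_trans ?_ hsB
      refine le_trans (le_of_eq ?_) (hs.sum_le_tsum (range N) (fun n _ => by positivity))
      refine sum_congr rfl fun n _ => ?_
      rw [mul_pow, Real.sq_sqrt (by positivity)]
    have h4 : ∑ n ∈ range N, (‖z‖ ^ n / Real.sqrt ((n : ℝ) + 1)) ^ 2 ≤
        1 + Real.log (1 / t) := by
      have h5 := growth_sum hx0 (by linarith) N
      have h6 : ∑ n ∈ range N, (‖z‖ ^ n / Real.sqrt ((n : ℝ) + 1)) ^ 2 =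
          ∑ n ∈ range N, (‖z‖ ^ 2) ^ n / ((n : ℝ) + 1) := by
        refine sum_congr rfl fun n _ => ?_
        rw [div_pow, Real.sq_sqrt (by positivity), ← pow_mul, ← pow_mul, mul_comm n 2]
      rw [h6]
      linarith
    have hlog0 : 0 ≤ 1 + Real.log (1 / t) :=
      le_trans (sum_nonneg fun n _ => by positivity) h4
    have h7 : (∑ n ∈ range N, (Real.sqrt ((n : ℝ) + 1) * ‖c n‖) *
        (‖z‖ ^ n / Real.sqrt ((n : ℝ) + 1))) ^ 2 ≤
          (B * Real.sqrt (1 + Real.log (1 / t))) ^ 2 := by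
      rw [mul_pow, Real.sq_sqrt hlog0]
      exact h2.trans (mul_le_mul h3 h4 (sum_nonneg fun n _ => by positivity) (by positivity))
    have h8 := abs_le_of_sq_le_sq h7 (by positivity)
    exact h1.trans ((le_abs_self _).trans h8)
  have hlim := ((hφ z hzb).tendsto_sum_nat).norm
  exact le_of_tendsto' hlim hpart

end Pool.Agent.Lib.BrownShields
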